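import Mathlib

set_option autoImplicit false

open Finset

namespace Pool.Agent.H472Z.Bowtie

/-- no two triangles sharing exactly one vertex -/
def BowFree {V : Type} (G : SimpleGraph V) : Prop :=
  ∀ a b c d e, G.Adj a b → G.Adj a c → G.Adj b c → G.Adj a d → G.Adj a e → G.Adj d e →
    b ≠ d → b ≠ e → c ≠ d → c ≠ e → False

theorem mantel {V : Type} [Fintype V] [DecidableEq V] (E : Finset (Sym2 V))
    (hd : ∀ e ∈ E, ¬ e.IsDiag)
    (ht : ∀ u v w, s(u, v) ∈ E → s(u, w) ∈ E → s(v, w) ∈ E → False) :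
    E.card ≤ (Fintype.card V) ^ 2 / 4 := by
  classical
  let G : SimpleGraph V := SimpleGraph.fromEdgeSet (E : Set (Sym2 V))
  have hcf : G.CliqueFree (2 + 1) := by
    intro t ht'
    obtain ⟨a, b, c, hab, hac, hbc, -⟩ := SimpleGraph.is3Clique_iff.1 ht'
    simp only [G, SimpleGraph.fromEdgeSet_adj, Finset.mem_coe] at hab hac hbc
    exact ht a b c hab.1 hac.1 hbc.1
  have h := hcf.card_edgeFinset_le
  have hE : E ⊆ @SimpleGraph.edgeFinset V G G.fintypeEdgeSet := by
    intro e he
    have : e ∈ G.edgeSet := by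
      rw [SimpleGraph.edgeSet_fromEdgeSet]
      exact ⟨he, hd e he⟩
    exact (@SimpleGraph.mem_edgeFinset V G e G.fintypeEdgeSet).2 this
  refine (Finset.card_le_card hE).trans (h.trans ?_)
  have h2 : (Fintype.card V % 2).choose 2 = 0 := Nat.choose_eq_zero_of_lt (Nat.mod_lt _ (by norm_num))
  rw [h2, add_zero]
  apply Nat.div_le_div_right
  simp

section
variable {V : Type} [Fintype V] [DecidableEq V] (G : SimpleGraph V) [DecidableRel G.Adj]

/-- common neighbourhood -/
def cn (x y : V) : Finset V := G.neighborFinset x ∩ G.neighborFinset y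

theorem mem_cn (x y w : V) : w ∈ cn G x y ↔ G.Adj x w ∧ G.Adj y w := by
  simp [cn]

theorem cn_comm (x y : V) : cn G x y = cn G y x := by
  simp [cn, inter_comm]

omit [Fintype V] in
theorem pick2 (S : Finset V) (h : 3 ≤ S.card) (u v : V) : ∃ p ∈ S, p ≠ u ∧ p ≠ v := by
  by_contra hcon
  push Not at hcon
  have : S ⊆ {u, v} := by
    intro p hp
    by_cases h1 : p = u
    · simp [h1]
    · simp [hcon p hp h1]
  have := (Finset.card_le_card this).trans Finset.card_le_two
  omega

variable {G}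

theorem small (hG : BowFree G) {x y z : V} (hxy : G.Adj x y) (hxz : G.Adj x z) (hyz : y ≠ z)
    (h : 3 ≤ (cn G x y).card) : (cn G x z).card ≤ 1 := by
  have : cn G x z ⊆ {y} := by
    intro q hq
    rw [mem_cn] at hq
    by_contra hqy
    rw [mem_singleton] at hqy
    obtain ⟨p, hp, h1, h2⟩ := pick2 _ h z q
    rw [mem_cn] at hp
    exact hG x y p z q hxy hp.1 hp.2 hxz hq.1 hq.2 hyz (Ne.symm hqy) h1 h2
  simpa using Finset.card_le_card this

theorem incl_excl (x y z : V) : G.degree x + G.degree y + G.degree z ≤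
    Fintype.card V + (cn G x y).card + (cn G x z).card + (cn G y z).card := by
  simp only [← SimpleGraph.card_neighborFinset_eq_degree, cn]
  generalize G.neighborFinset x = A
  generalize G.neighborFinset y = B
  generalize G.neighborFinset z = C
  have h1 := Finset.card_union_add_card_inter A B
  have h2 := Finset.card_union_add_card_inter (A ∪ B) C
  have h3 : ((A ∪ B) ∩ C).card ≤ (A ∩ C).card + (B ∩ C).card := by
    rw [Finset.union_inter_distrib_right]
    exact Finset.card_union_le _ _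
  have h4 : (A ∪ B ∪ C).card ≤ Fintype.card V := Finset.card_le_univ _
  omega

/-- heavy edges -/
def Heavy (G : SimpleGraph V) [DecidableRel G.Adj] (x y : V) : Prop :=
  G.Adj x y ∧ Fintype.card V / 2 ≤ (cn G x y).card + 3

theorem Heavy.symm {x y : V} (h : Heavy G x y) : Heavy G y x :=
  ⟨h.1.symm, by rw [cn_comm]; exact h.2⟩

theorem tri_heavy (hG : BowFree G) (hn : 30 ≤ Fintype.card V)
    (hd : ∀ v, Fintype.card V / 2 ≤ G.degree v) {x y z : V}
    (hxy : G.Adj x y) (hxz : G.Adj x z) (hyz : G.Adj y z) :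
    Heavy G x y ∨ Heavy G x z ∨ Heavy G y z := by
  have h := incl_excl (G := G) x y z
  have h1 := hd x
  have h2 := hd y
  have h3 := hd z
  by_cases c1 : 3 ≤ (cn G x y).card
  · have a1 := small hG hxy hxz hyz.ne c1
    have a2 := small hG hxy.symm hyz hxz.ne (by rw [cn_comm]; exact c1)
    exact Or.inl ⟨hxy, by omega⟩
  by_cases c2 : 3 ≤ (cn G x z).card
  · have a2 := small hG hxz.symm hyz.symm hxy.ne (by rw [cn_comm]; exact c2)
    rw [cn_comm] at a2
    have a1 := small hG hxz hxy hyz.ne.symm c2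
    exact Or.inr (Or.inl ⟨hxz, by omega⟩)
  by_cases c3 : 3 ≤ (cn G y z).card
  · have a1 := small hG hyz hxy.symm hxz.ne.symm c3
    have a2 := small hG hyz.symm hxz.symm hxy.ne.symm (by rw [cn_comm]; exact c3)
    rw [cn_comm] at a1 a2
    exact Or.inr (Or.inr ⟨hyz, by omega⟩)
  · exfalso
    omega

theorem share (hG : BowFree G) (hn : 30 ≤ Fintype.card V) {x y b : V}
    (h1 : Heavy G x y) (h2 : Heavy G x b) : y = b := by
  by_contra hne
  have := small hG h1.1 h2.1 hne (by have := h1.2; omega)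
  have := h2.2
  omega

theorem two_heavy (hG : BowFree G) (hn : 30 ≤ Fintype.card V) {x y a b : V}
    (h1 : Heavy G x y) (h2 : Heavy G a b) (hne : s(x, y) ≠ s(a, b)) :
    x ≠ a ∧ x ≠ b ∧ y ≠ a ∧ y ≠ b := by
  refine ⟨?_, ?_, ?_, ?_⟩
  · rintro rfl
    exact hne (by rw [share hG hn h1 h2])
  · rintro rfl
    exact hne (by rw [share hG hn h1 h2.symm, Sym2.eq_swap])
  · rintro rfl
    exact hne (by rw [share hG hn h1.symm h2, Sym2.eq_swap])
  · rintro rfl
    exact hne (by rw [share hG hn h1.symm h2.symm])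

theorem two_heavy_disj (hG : BowFree G) (hn : 30 ≤ Fintype.card V) {x y a b : V}
    (h1 : Heavy G x y) (h2 : Heavy G a b) (hne : s(x, y) ≠ s(a, b)) :
    Disjoint (cn G x y) (cn G a b) := by
  obtain ⟨n1, n2, n3, n4⟩ := two_heavy hG hn h1 h2 hne
  rw [Finset.disjoint_left]
  intro s hs hs'
  rw [mem_cn] at hs hs'
  exact hG s x y a b hs.1.symm hs.2.symm h1.1 hs'.1.symm hs'.2.symm h2.1 n1 n2 n3 n4

theorem three_heavy (hG : BowFree G) (hn : 30 ≤ Fintype.card V) {x y a b c d : V}
    (h1 : Heavy G x y) (h2 : Heavy G a b) (h3 : Heavy G c d) (n12 : s(x, y) ≠ s(a, b))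
    (n13 : s(x, y) ≠ s(c, d)) (n23 : s(a, b) ≠ s(c, d)) : False := by
  have d12 := two_heavy_disj hG hn h1 h2 n12
  have d13 := two_heavy_disj hG hn h1 h3 n13
  have d23 := two_heavy_disj hG hn h2 h3 n23
  have e1 := Finset.card_union_of_disjoint d12
  have e2 := Finset.card_union_of_disjoint (Finset.disjoint_union_left.2 ⟨d13, d23⟩)
  have e3 : (cn G x y ∪ cn G a b ∪ cn G c d).card ≤ Fintype.card V := Finset.card_le_univ _
  have := h1.2
  have := h2.2
  have := h3.2
  omega

theorem no_nbr (hG : BowFree G) (hn : 30 ≤ Fintype.card V) {x y w : V}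
    (h1 : Heavy G x y) (hw : G.Adj x w) (hwy : w ≠ y) :
    Disjoint (G.neighborFinset w) (cn G x y) := by
  rw [Finset.disjoint_left]
  intro s hs hs'
  rw [mem_cn] at hs'
  rw [SimpleGraph.mem_neighborFinset] at hs
  obtain ⟨p, hp, p1, p2⟩ := pick2 (cn G x y) (by have := h1.2; omega) w s
  rw [mem_cn] at hp
  exact hG x w s y p hw hs'.1 hs h1.1 hp.1 hp.2 hwy p1.symm hs'.2.ne.symm p2.symm

theorem case_two (hG : BowFree G) (hn : 30 ≤ Fintype.card V)
    (hd : ∀ v, Fintype.card V / 2 ≤ G.degree v) {x y a b : V}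
    (h1 : Heavy G x y) (h2 : Heavy G a b) (hne : s(x, y) ≠ s(a, b)) (hax : ¬ G.Adj x a) :
    G.edgeFinset.card ≤ (Fintype.card V) ^ 2 / 4 + 1 := by
  obtain ⟨n1, n2, n3, n4⟩ := two_heavy hG hn h1 h2 hne
  have nocommon : ∀ w, G.Adj x w → G.Adj a w → w ≠ y → w ≠ b → False := by
    intro w hx ha wy wb
    have d1 := no_nbr hG hn h1 hx wy
    have d2 := no_nbr hG hn h2 ha wb
    have d12 := two_heavy_disj hG hn h1 h2 hne
    have e1 := Finset.card_union_of_disjoint d12
    have e2 := Finset.card_union_of_disjoint (Finset.disjoint_union_right.2 ⟨d1, d2⟩)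
    have e3 : (G.neighborFinset w ∪ (cn G x y ∪ cn G a b)).card ≤ Fintype.card V :=
      Finset.card_le_univ _
    have := h1.2
    have := h2.2
    have := hd w
    rw [SimpleGraph.card_neighborFinset_eq_degree] at e2
    omega
  let E0 := (G.edgeFinset.erase s(x, y)).erase s(a, b)
  have mem0 : ∀ u v, s(u, v) ∈ E0 ↔ G.Adj u v ∧ s(u, v) ≠ s(x, y) ∧ s(u, v) ≠ s(a, b) := by
    intro u v
    simp only [E0, Finset.mem_erase, SimpleGraph.mem_edgeFinset, SimpleGraph.mem_edgeSet]
    tauto
  have key : ∀ u v w, s(u, v) = s(x, a) → s(u, w) ∈ E0 → s(v, w) ∈ E0 → False := by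
    intro u v w h hu hv
    rw [mem0] at hu hv
    rcases Sym2.eq_iff.1 h with ⟨rfl, rfl⟩ | ⟨rfl, rfl⟩
    · exact nocommon w hu.1 hv.1 (by rintro rfl; exact hu.2.1 rfl) (by rintro rfl; exact hv.2.2 rfl)
    · exact nocommon w hv.1 hu.1 (by rintro rfl; exact hv.2.1 rfl) (by rintro rfl; exact hu.2.2 rfl)
  have hM := mantel (insert s(x, a) E0) ?_ ?_
  · have c1 : s(x, a) ∉ E0 := by
      rw [mem0]
      exact fun h => hax h.1
    rw [Finset.card_insert_of_notMem c1] at hM
    have c2 : G.edgeFinset.card - 1 ≤ (G.edgeFinset.erase s(x, y)).card := Finset.pred_card_le_card_erase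
    have c3 : (G.edgeFinset.erase s(x, y)).card - 1 ≤ E0.card := Finset.pred_card_le_card_erase
    omega
  · intro e he
    rw [Finset.mem_insert] at he
    rcases he with rfl | he
    · simpa using n1
    · have : e ∈ G.edgeFinset := Finset.mem_of_mem_erase (Finset.mem_of_mem_erase he)
      rw [SimpleGraph.mem_edgeFinset] at this
      exact G.not_isDiag_of_mem_edgeSet this
  · intro u v w huv huw hvw
    rw [Finset.mem_insert] at huv huw hvw
    have dg : ∀ p q, s(p, q) ∈ E0 → p ≠ q := fun p q h => ((mem0 p q).1 h).1.ne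
    rcases huv with e1 | e1 <;> rcases huw with e2 | e2 <;> rcases hvw with e3 | e3
    · have : v = w := Sym2.congr_right.1 (e1.trans e2.symm)
      subst this
      rw [Sym2.eq_iff] at e3
      exact n1 (by rcases e3 with ⟨p1, p2⟩ | ⟨p1, p2⟩ <;> [exact p1.symm.trans p2; exact p2.symm.trans p1])
    · have : v = w := Sym2.congr_right.1 (e1.trans e2.symm)
      exact dg _ _ e3 this
    · have : u = w := by
        have := e1.trans e3.symm
        rw [Sym2.eq_swap (a := v)] at this
        exact Sym2.congr_left.1 this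
      exact dg _ _ e2 this
    · exact key u v w e1 e2 e3
    · have : u = v := Sym2.congr_left.1 (e2.trans e3.symm)
      exact dg _ _ e1 this
    · exact key u w v e2 e1 (by rw [Sym2.eq_swap]; exact e3)
    · exact key v w u e3 (by rw [Sym2.eq_swap]; exact e1) (by rw [Sym2.eq_swap]; exact e2)
    · rw [mem0] at e1 e2 e3
      rcases tri_heavy hG hn hd e1.1 e2.1 e3.1 with h | h | h
      · exact three_heavy hG hn h1 h2 h hne e1.2.1.symm e1.2.2.symm
      · exact three_heavy hG hn h1 h2 h hne e2.2.1.symm e2.2.2.symm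
      · exact three_heavy hG hn h1 h2 h hne e3.2.1.symm e3.2.2.symm

theorem mindeg_case (hG : BowFree G) (hn : 30 ≤ Fintype.card V)
    (hd : ∀ v, Fintype.card V / 2 ≤ G.degree v) :
    G.edgeFinset.card ≤ (Fintype.card V) ^ 2 / 4 + 1 := by
  by_cases h2 : ∃ x y a b, Heavy G x y ∧ Heavy G a b ∧ s(x, y) ≠ s(a, b)
  · obtain ⟨x, y, a, b, h1, h2, hne⟩ := h2
    obtain ⟨n1, n2, n3, n4⟩ := two_heavy hG hn h1 h2 hne
    by_cases hax : G.Adj x a
    · by_cases hay : G.Adj y a
      · exfalso
        obtain ⟨q, hq, q1, q2⟩ := pick2 (cn G a b) (by have := h2.2; omega) x y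
        rw [mem_cn] at hq
        exact hG a x y b q hax.symm hay.symm h1.1 h2.1 hq.1 hq.2 n2 q1.symm n4 q2.symm
      · exact case_two hG hn hd h1.symm h2 (by rw [Sym2.eq_swap]; exact hne) hay
    · exact case_two hG hn hd h1 h2 hne hax
  · push Not at h2
    have : ∃ e0 : Sym2 V, ∀ x y, Heavy G x y → s(x, y) = e0 := by
      by_cases h : ∃ x y, Heavy G x y
      · obtain ⟨x, y, h⟩ := h
        exact ⟨s(x, y), fun a b hab => h2 a b x y hab h⟩
      · have : Nonempty V := Fintype.card_pos_iff.1 (by omega)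
        obtain ⟨v⟩ := this
        exact ⟨s(v, v), fun a b hab => (h ⟨a, b, hab⟩).elim⟩
    obtain ⟨e0, he0⟩ := this
    have hM := mantel (G.edgeFinset.erase e0) ?_ ?_
    · have c2 : G.edgeFinset.card - 1 ≤ (G.edgeFinset.erase e0).card := Finset.pred_card_le_card_erase
      omega
    · intro e he
      have : e ∈ G.edgeFinset := Finset.mem_of_mem_erase he
      rw [SimpleGraph.mem_edgeFinset] at this
      exact G.not_isDiag_of_mem_edgeSet this
    · intro u v w e1 e2 e3
      simp only [Finset.mem_erase, SimpleGraph.mem_edgeFinset, SimpleGraph.mem_edgeSet] at e1 e2 e3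
      rcases tri_heavy hG hn hd e1.2 e2.2 e3.2 with h | h | h
      · exact e1.1 (he0 _ _ h)
      · exact e2.1 (he0 _ _ h)
      · exact e3.1 (he0 _ _ h)

end

theorem sq_step (m : ℕ) : (m + 1) ^ 2 / 4 = m ^ 2 / 4 + (m + 1) / 2 := by
  obtain ⟨k, rfl | rfl⟩ := Nat.even_or_odd' m
  · have h1 : (2 * k + 1) ^ 2 = 4 * (k * k + k) + 1 := by ring
    have h2 : (2 * k) ^ 2 = 4 * (k * k) := by ring
    rw [h1, h2]; omega
  · have h1 : (2 * k + 1 + 1) ^ 2 = 4 * (k * k + 2 * k + 1) := by ring
    have h2 : (2 * k + 1) ^ 2 = 4 * (k * k + k) + 1 := by ring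
    rw [h1, h2]; omega

theorem induct (n : ℕ) : ∀ (V : Type) [Fintype V] [DecidableEq V] (G : SimpleGraph V)
    [DecidableRel G.Adj], Fintype.card V = 30 + n → BowFree G →
    G.edgeFinset.card ≤ (30 + n) ^ 2 / 4 + 1 + (435 - n) := by
  induction n with
  | zero =>
    intro V _ _ G _ hV _
    have := SimpleGraph.card_edgeFinset_le_card_choose_two (G := G)
    rw [hV] at this
    have h : Nat.choose (30 + 0) 2 = 435 := by decide
    omega
  | succ n ih =>
    intro V _ _ G _ hV hG
    by_cases hd : ∀ v, Fintype.card V / 2 ≤ G.degree v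
    · have := mindeg_case hG (by omega) hd
      rw [hV] at this
      omega
    · push Not at hd
      obtain ⟨v, hv⟩ := hd
      have hc : Fintype.card ({v}ᶜ : Set V) = 30 + n := by
        rw [Fintype.card_compl_set, Set.card_singleton, hV]
        omega
      have hB : BowFree (G.induce ({v}ᶜ : Set V)) := by
        intro a b c d e h1 h2 h3 h4 h5 h6 n1 n2 n3 n4
        exact hG a b c d e h1 h2 h3 h4 h5 h6 (fun h => n1 (Subtype.ext h))
          (fun h => n2 (Subtype.ext h)) (fun h => n3 (Subtype.ext h)) (fun h => n4 (Subtype.ext h))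
      have h1 := ih _ (G.induce ({v}ᶜ : Set V)) hc hB
      rw [SimpleGraph.card_edgeFinset_induce_compl_singleton,
        SimpleGraph.card_edgeFinset_deleteIncidenceSet] at h1
      have h2 := sq_step (30 + n)
      rw [hV] at hv
      have e : 30 + (n + 1) = 30 + n + 1 := by ring
      rw [e] at hv ⊢
      omega

theorem bowtie_bound (V : Type) [Fintype V] [DecidableEq V] (G : SimpleGraph V)
    [DecidableRel G.Adj] (hV : 465 ≤ Fintype.card V) (hG : BowFree G) :
    G.edgeFinset.card ≤ (Fintype.card V) ^ 2 / 4 + 1 := by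
  obtain ⟨n, hn⟩ := Nat.exists_eq_add_of_le (show 30 ≤ Fintype.card V by omega)
  have := induct n V G hn hG
  rw [hn]
  have : 435 - n = 0 := by omega
  omega

end Pool.Agent.H472Z.Bowtie
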