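import Mathlib
import Pool.Agent.H472Z.Bowtie

set_option autoImplicit false

open Finset

namespace Pool.Agent.H472Z.BowtieRain

/-- the bowtie: two triangles sharing the vertex 0 -/
def F : Finset (Finset (Fin 5)) := {{0, 1}, {0, 2}, {1, 2}, {0, 3}, {0, 4}, {3, 4}}

theorem upper {n : ℕ} (hn : 465 ≤ n) (G : Finset (Finset (Fin n))) (h2 : ∀ e ∈ G, e.card = 2)
    (hfree : ¬ ∃ φ : Fin 5 ↪ Fin n, ∀ e ∈ F, e.map φ ∈ G) : G.card ≤ n ^ 2 / 4 + 1 := by
  classical
  let Gs : SimpleGraph (Fin n) :=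
    { Adj := fun u v => u ≠ v ∧ ({u, v} : Finset (Fin n)) ∈ G
      symm := ⟨fun u v h => ⟨h.1.symm, by rw [Finset.pair_comm]; exact h.2⟩⟩
      loopless := ⟨fun u h => h.1 rfl⟩ }
  have hB : Bowtie.BowFree Gs := by
    intro a b c d e h1 h2 h3 h4 h5 h6 n1 n2 n3 n4
    apply hfree
    have hinj : Function.Injective (![a, b, c, d, e] : Fin 5 → Fin n) := by
      have := h1.1
      have := h2.1
      have := h3.1
      have := h4.1
      have := h5.1
      have := h6.1
      intro i j hij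
      fin_cases i <;> fin_cases j <;> simp_all [eq_comm]
    refine ⟨⟨_, hinj⟩, ?_⟩
    intro f hf
    simp only [F, Finset.mem_insert, Finset.mem_singleton] at hf
    rcases hf with rfl | rfl | rfl | rfl | rfl | rfl
    · simpa using h1.2
    · simpa using h2.2
    · simpa using h3.2
    · simpa using h4.2
    · simpa using h5.2
    · simpa using h6.2
  have h := Bowtie.bowtie_bound (Fin n) Gs (by simpa using hn) hB
  rw [Fintype.card_fin] at h
  refine le_trans ?_ h
  have : G ⊆ Gs.edgeFinset.image Sym2.toFinset := by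
    intro e he
    obtain ⟨u, v, huv, rfl⟩ := Finset.card_eq_two.1 (h2 e he)
    rw [Finset.mem_image]
    refine ⟨s(u, v), ?_, Sym2.toFinset_mk_eq⟩
    rw [SimpleGraph.mem_edgeFinset, SimpleGraph.mem_edgeSet]
    exact ⟨huv, he⟩
  exact (Finset.card_le_card this).trans Finset.card_image_le

/-- the balanced complete bipartite graph -/
def Bip (n : ℕ) : Finset (Finset (Fin n)) :=
  ((univ.filter (fun u : Fin n => u.1 < n / 2)) ×ˢ (univ.filter (fun u : Fin n => n / 2 ≤ u.1))).image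
    (fun p => {p.1, p.2})

theorem mem_Bip {n : ℕ} {e : Finset (Fin n)} :
    e ∈ Bip n ↔ ∃ u v : Fin n, u.1 < n / 2 ∧ n / 2 ≤ v.1 ∧ e = {u, v} := by
  simp only [Bip, Finset.mem_image, Finset.mem_product, Finset.mem_filter, Finset.mem_univ,
    true_and, Prod.exists]
  constructor
  · rintro ⟨u, v, ⟨h1, h2⟩, rfl⟩
    exact ⟨u, v, h1, h2, rfl⟩
  · rintro ⟨u, v, h1, h2, rfl⟩
    exact ⟨u, v, ⟨h1, h2⟩, rfl⟩

theorem Bip_two {n : ℕ} : ∀ e ∈ Bip n, e.card = 2 := by
  intro e he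
  obtain ⟨u, v, h1, h2, rfl⟩ := mem_Bip.1 he
  apply Finset.card_pair
  rintro rfl
  omega

theorem pair_Bip {n : ℕ} {a b : Fin n} (h : ({a, b} : Finset (Fin n)) ∈ Bip n) :
    (a.1 < n / 2 ↔ ¬ b.1 < n / 2) := by
  obtain ⟨u, v, h1, h2, h3⟩ := mem_Bip.1 h
  have hu : u ∈ ({a, b} : Finset (Fin n)) := by rw [h3]; simp
  have hv : v ∈ ({a, b} : Finset (Fin n)) := by rw [h3]; simp
  simp only [Finset.mem_insert, Finset.mem_singleton] at hu hv
  rcases hu with rfl | rfl <;> rcases hv with rfl | rfl <;> omega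

theorem card_Bip (n : ℕ) : (Bip n).card = n ^ 2 / 4 := by
  unfold Bip
  rw [Finset.card_image_of_injOn, Finset.card_product]
  · have h1 : (univ.filter (fun u : Fin n => u.1 < n / 2)).card = n / 2 := by
      rw [Fin.card_filter_val_lt]
      omega
    have h2 : (univ.filter (fun u : Fin n => u.1 < n / 2)).card +
        (univ.filter (fun u : Fin n => n / 2 ≤ u.1)).card = n := by
      have := Finset.card_filter_add_card_filter_not (s := (univ : Finset (Fin n)))
        (fun u : Fin n => u.1 < n / 2)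
      simpa using this
    have h3 : (univ.filter (fun u : Fin n => n / 2 ≤ u.1)).card = n - n / 2 := by omega
    rw [h1, h3]
    obtain ⟨k, rfl | rfl⟩ := Nat.even_or_odd' n
    · have e1 : 2 * k / 2 = k := by omega
      have e2 : 2 * k - k = k := by omega
      have e3 : (2 * k) ^ 2 = 4 * (k * k) := by ring
      rw [e1, e2, e3]; omega
    · have e1 : (2 * k + 1) / 2 = k := by omega
      have e2 : 2 * k + 1 - k = k + 1 := by omega
      have e3 : (2 * k + 1) ^ 2 = 4 * (k * (k + 1)) + 1 := by ring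
      rw [e1, e2, e3]; omega
  · rintro ⟨u, v⟩ huv ⟨u', v'⟩ huv' h
    simp only [Finset.coe_product, Finset.coe_filter, Finset.mem_univ, true_and, Set.mem_prod,
      Set.mem_ofPred_eq] at huv huv'
    have h' : ({u, v} : Finset (Fin n)) = {u', v'} := h
    have hu : u ∈ ({u', v'} : Finset (Fin n)) := by rw [← h']; simp
    have hv : v ∈ ({u', v'} : Finset (Fin n)) := by rw [← h']; simp
    simp only [Finset.mem_insert, Finset.mem_singleton] at hu hv
    rcases hu with rfl | rfl <;> rcases hv with rfl | rfl <;> first | rfl | omega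

theorem tri_not_Bip {n : ℕ} (a b c : Fin n) :
    ({a, b} : Finset (Fin n)) ∉ Bip n ∨ ({a, c} : Finset (Fin n)) ∉ Bip n ∨
      ({b, c} : Finset (Fin n)) ∉ Bip n := by
  by_contra h
  push Not at h
  have h1 := pair_Bip h.1
  have h2 := pair_Bip h.2.1
  have h3 := pair_Bip h.2.2
  tauto

/-- every copy of the bowtie has two different edges outside the bipartite graph -/
theorem two_out {n : ℕ} (φ : Fin 5 ↪ Fin n) :
    ∃ e ∈ F, ∃ f ∈ F, e ≠ f ∧ e.map φ ∉ Bip n ∧ f.map φ ∉ Bip n := by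
  have h1 : ∃ e ∈ ({{0, 1}, {0, 2}, {1, 2}} : Finset (Finset (Fin 5))), e.map φ ∉ Bip n := by
    rcases tri_not_Bip (φ 0) (φ 1) (φ 2) with h | h | h
    · exact ⟨{0, 1}, by decide, by simpa using h⟩
    · exact ⟨{0, 2}, by decide, by simpa using h⟩
    · exact ⟨{1, 2}, by decide, by simpa using h⟩
  have h2 : ∃ e ∈ ({{0, 3}, {0, 4}, {3, 4}} : Finset (Finset (Fin 5))), e.map φ ∉ Bip n := by
    rcases tri_not_Bip (φ 0) (φ 3) (φ 4) with h | h | h
    · exact ⟨{0, 3}, by decide, by simpa using h⟩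
    · exact ⟨{0, 4}, by decide, by simpa using h⟩
    · exact ⟨{3, 4}, by decide, by simpa using h⟩
  obtain ⟨e, he, he'⟩ := h1
  obtain ⟨f, hf, hf'⟩ := h2
  refine ⟨e, ?_, f, ?_, ?_, he', hf'⟩
  · clear he'; revert e; decide
  · clear hf'; revert f; decide
  · clear he' hf'; revert e f; decide

theorem Bip_free {n : ℕ} : ¬ ∃ φ : Fin 5 ↪ Fin n, ∀ e ∈ F, e.map φ ∈ Bip n := by
  rintro ⟨φ, h⟩
  obtain ⟨e, he, -, -, -, h1, -⟩ := two_out φ
  exact h1 (h e he)

noncomputable def ex (n : ℕ) : ℕ := sSup {t : ℕ | ∃ G : Finset (Finset (Fin n)),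
          (∀ e ∈ G, e.card = 2) ∧
          (¬ ∃ φ : Fin 5 ↪ Fin n, ∀ e ∈ F, e.map φ ∈ G) ∧ G.card = t}

theorem ex_lower (n : ℕ) : n ^ 2 / 4 ≤ ex n := by
  apply le_csSup
  · refine ⟨Fintype.card (Finset (Fin n)), ?_⟩
    rintro t ⟨G, -, -, rfl⟩
    exact Finset.card_le_univ _
  · exact ⟨Bip n, Bip_two, Bip_free, card_Bip n⟩

theorem ex_upper {n : ℕ} (hn : 465 ≤ n) : ex n ≤ n ^ 2 / 4 + 1 := by
  apply csSup_le
  · exact ⟨_, Bip n, Bip_two, Bip_free, rfl⟩
  · rintro t ⟨G, h1, h2, rfl⟩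
    exact upper hn G h1 h2

theorem many {n : ℕ} (hn : 465 ≤ n) (r : ℕ) (hr : 1 ≤ r) : ∃ H : Finset (Finset (Fin n)),
    (∀ e ∈ H, e.card = 2) ∧ ex n < H.card ∧
    r ^ ex n ≤ Nat.card {c : {x // x ∈ H} → Fin r //
            ¬ ∃ φ : Fin 5 ↪ Fin n, (∀ e ∈ F, e.map φ ∈ H) ∧
              ∀ e ∈ F, ∀ f ∈ F, ∀ x y : {x // x ∈ H},
                x.1 = e.map φ → y.1 = f.map φ → e ≠ f → c x ≠ c y} := by
  classical
  let v0 : Fin n := ⟨0, by omega⟩
  let v1 : Fin n := ⟨1, by omega⟩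
  let v2 : Fin n := ⟨2, by omega⟩
  let v3 : Fin n := ⟨3, by omega⟩
  let e0 : Finset (Fin n) := {v0, v1}
  let e1 : Finset (Fin n) := {v2, v3}
  have h0 : e0 ∉ Bip n := by
    intro h
    have := pair_Bip h
    simp only [v0, v1] at this
    omega
  have h1 : e1 ∉ Bip n := by
    intro h
    have := pair_Bip h
    simp only [v2, v3] at this
    omega
  have h01 : e1 ≠ e0 := by
    intro h
    have : v2 ∈ e0 := by rw [← h]; simp [e1]
    simp [e0, v0, v1, v2, Fin.ext_iff] at this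
  have hcard : (insert e1 (insert e0 (Bip n))).card = n ^ 2 / 4 + 2 := by
    rw [Finset.card_insert_of_notMem, Finset.card_insert_of_notMem h0, card_Bip]
    rw [Finset.mem_insert]
    tauto
  have hex := ex_upper hn
  refine ⟨insert e1 (insert e0 (Bip n)), ?_, by omega, ?_⟩
  · intro e he
    simp only [Finset.mem_insert] at he
    rcases he with rfl | rfl | he
    · exact Finset.card_pair (by simp [v2, v3, Fin.ext_iff])
    · exact Finset.card_pair (by simp [v0, v1, Fin.ext_iff])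
    · exact Bip_two e he
  · let ψ : (Option {x // x ∈ Bip n} → Fin r) →
        ({x // x ∈ insert e1 (insert e0 (Bip n))} → Fin r) :=
      fun g x => if h : x.1 ∈ Bip n then g (some ⟨x.1, h⟩) else g none
    have hψ : ∀ g, ¬ ∃ φ : Fin 5 ↪ Fin n, (∀ e ∈ F, e.map φ ∈ insert e1 (insert e0 (Bip n))) ∧
              ∀ e ∈ F, ∀ f ∈ F, ∀ x y : {x // x ∈ insert e1 (insert e0 (Bip n))},
                x.1 = e.map φ → y.1 = f.map φ → e ≠ f → ψ g x ≠ ψ g y := by
      rintro g ⟨φ, hφ, hr⟩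
      obtain ⟨e, he, f, hf, hef, he', hf'⟩ := two_out φ
      apply hr e he f hf ⟨_, hφ e he⟩ ⟨_, hφ f hf⟩ rfl rfl hef
      simp only [ψ, dif_neg he', dif_neg hf']
    have hinj : Function.Injective (fun g => (⟨ψ g, hψ g⟩ : {c : {x // x ∈ insert e1 (insert e0 (Bip n))} → Fin r //
            ¬ ∃ φ : Fin 5 ↪ Fin n, (∀ e ∈ F, e.map φ ∈ insert e1 (insert e0 (Bip n))) ∧
              ∀ e ∈ F, ∀ f ∈ F, ∀ x y : {x // x ∈ insert e1 (insert e0 (Bip n))},
                x.1 = e.map φ → y.1 = f.map φ → e ≠ f → c x ≠ c y})) := by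
      intro g g' h
      have h' : ψ g = ψ g' := congrArg Subtype.val h
      funext o
      cases o with
      | none =>
        have := congrFun h' ⟨e0, by simp⟩
        simpa only [ψ, dif_neg h0] using this
      | some x =>
        have := congrFun h' ⟨x.1, by simp [x.2]⟩
        simpa only [ψ, dif_pos x.2] using this
    have := Nat.card_le_card_of_injective _ hinj
    refine le_trans ?_ this
    rw [Nat.card_eq_fintype_card, Fintype.card_fun, Fintype.card_fin, Fintype.card_option,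
      Fintype.card_coe, card_Bip]
    exact Nat.pow_le_pow_right hr hex

theorem ex_omega : ∃ c : ℝ, 0 < c ∧ ∃ N : ℕ, ∀ n ≥ N, c * (n : ℝ) ^ 2 ≤ (ex n : ℝ) := by
  refine ⟨1 / 8, by norm_num, 3, fun n hn => ?_⟩
  have h := ex_lower n
  have h2 : 9 ≤ n ^ 2 := by nlinarith
  have h3 : n ^ 2 ≤ 8 * ex n := by omega
  have h4 : ((n : ℝ)) ^ 2 ≤ 8 * (ex n : ℝ) := by exact_mod_cast h3
  linarith

end Pool.Agent.H472Z.BowtieRain
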