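import Pool.Agent.H472Z.CrossPoly

set_option autoImplicit false

namespace Pool.Agent.H472Z.Cross

open Finset

lemma pw_aux (s u v : ℝ) (hs : 3/4 ≤ s) (hu0 : 0 ≤ u) (hu1 : u ≤ 1) (hv0 : 0 ≤ v) (hvu : v ≤ u) :
    3 / (4 * s) * (u ^ 2 + v ^ 2) - 1 / (2 * s ^ 3) * (u ^ 2 * v ^ 2) ≤ u := by
  have hs0 : 0 < s := by linarith
  set A := 3 / (4 * s) with hA
  set c := 1 / (2 * s ^ 3) with hc
  have hA1 : A ≤ 1 := by
    rw [hA, div_le_one (by positivity)]; linarith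
  have hA0 : 0 ≤ A := by positivity
  have hw : v ^ 2 ≤ u ^ 2 := by nlinarith
  have hw0 : 0 ≤ v ^ 2 := sq_nonneg v
  have h1 : A * u ^ 2 ≤ u := by
    have : u ^ 2 ≤ u := by nlinarith
    nlinarith [sq_nonneg u]
  have h2 : 2 * A * u ^ 2 - c * u ^ 4 ≤ u := by
    have e : u - (2 * A * u ^ 2 - c * u ^ 4) = u * ((u - s) ^ 2 * (u + 2 * s)) / (2 * s ^ 3) := by
      rw [hA, hc]; field_simp; ring
    have : 0 ≤ u * ((u - s) ^ 2 * (u + 2 * s)) / (2 * s ^ 3) := by positivity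
    linarith
  rcases le_total (A - c * u ^ 2) 0 with h | h
  · nlinarith [mul_nonneg hw0 (neg_nonneg.mpr h)]
  · nlinarith [mul_nonneg (sub_nonneg.mpr hw) h]

lemma pw (s u v : ℝ) (hs : 3/4 ≤ s) (hu0 : 0 ≤ u) (hu1 : u ≤ 1) (hv0 : 0 ≤ v) (hv1 : v ≤ 1) :
    3 / (4 * s) * (u ^ 2 + v ^ 2) - 1 / (2 * s ^ 3) * (u ^ 2 * v ^ 2) ≤ max u v := by
  rcases le_total v u with h | h
  · rw [max_eq_left h]; exact pw_aux s u v hs hu0 hu1 hv0 h
  · rw [max_eq_right h]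
    have := pw_aux s v u hs hv0 hv1 hu0 h
    linarith [mul_comm (u ^ 2) (v ^ 2)]

lemma sum_max {V : Type*} (K : Finset V) (u : V → ℝ) (hu0 : ∀ x ∈ K, 0 ≤ u x) (hu1 : ∀ x ∈ K, u x ≤ 1)
    (s : ℝ) (hs : 3/4 ≤ s) :
    3 / (4 * s) * (2 * K.card * ∑ x ∈ K, u x ^ 2) - 1 / (2 * s ^ 3) * (∑ x ∈ K, u x ^ 2) ^ 2
      ≤ ∑ x ∈ K, ∑ y ∈ K, max (u x) (u y) := by
  have h : ∑ x ∈ K, ∑ y ∈ K, (3 / (4 * s) * (u x ^ 2 + u y ^ 2) - 1 / (2 * s ^ 3) * (u x ^ 2 * u y ^ 2))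
      ≤ ∑ x ∈ K, ∑ y ∈ K, max (u x) (u y) :=
    sum_le_sum fun x hx => sum_le_sum fun y hy => pw s _ _ hs (hu0 x hx) (hu1 x hx) (hu0 y hy) (hu1 y hy)
  refine le_of_eq_of_le ?_ h
  simp only [sum_sub_distrib, ← mul_sum, sum_add_distrib, sum_const, nsmul_eq_mul, ← sum_mul]
  ring

/-- the limit inequality -/
lemma limit_ineq (γ : ℝ) (hγ : ∀ x, 0 ≤ x → x ≤ 1 → ff x ≤ γ) {V : Type*} (K : Finset V) (σ : V → ℝ)
    (b R : ℝ) (hb : 0 < b) (hab : b ≤ K.card) (h0 : ∀ x ∈ K, 0 ≤ σ x) (h1 : ∀ x ∈ K, σ x ≤ b)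
    (hR : R ≤ ∑ x ∈ K, ∑ y ∈ K, (b - max (σ x) (σ y))) :
    ((K.card : ℝ) ^ 3 + 3 * R) * (b ^ 3 + 3 * ∑ x ∈ K, σ x ^ 2) ≤ γ * ((K.card : ℝ) + b) ^ 6 := by
  set a : ℝ := (K.card : ℝ) with ha
  have ha0 : 0 < a := lt_of_lt_of_le hb hab
  set u : V → ℝ := fun x => σ x / b with hu
  have hσ : ∀ x, σ x = b * u x := fun x => by simp only [hu]; field_simp
  have hu0 : ∀ x ∈ K, 0 ≤ u x := fun x hx => div_nonneg (h0 x hx) hb.le
  have hu1 : ∀ x ∈ K, u x ≤ 1 := fun x hx => (div_le_one hb).mpr (h1 x hx)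
  set m : ℝ := (∑ x ∈ K, u x ^ 2) / a with hm
  have hS : ∑ x ∈ K, u x ^ 2 = a * m := by rw [hm]; field_simp
  have hm0 : 0 ≤ m := div_nonneg (sum_nonneg fun x _ => sq_nonneg _) ha0.le
  have hm1 : m ≤ 1 := by
    rw [hm, div_le_one ha0]
    calc ∑ x ∈ K, u x ^ 2 ≤ ∑ x ∈ K, (1 : ℝ) :=
          sum_le_sum fun x hx => by nlinarith [hu0 x hx, hu1 x hx]
      _ = a := by rw [sum_const, nsmul_eq_mul, mul_one]
  have hQ : ∑ x ∈ K, σ x ^ 2 = b ^ 2 * (a * m) := by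
    rw [← hS, mul_sum]; exact sum_congr rfl fun x _ => by rw [hσ x]; ring
  have hR' : R ≤ a ^ 2 * b - b * ∑ x ∈ K, ∑ y ∈ K, max (u x) (u y) := by
    refine hR.trans (le_of_eq ?_)
    have : ∀ x y, max (σ x) (σ y) = b * max (u x) (u y) := fun x y => by
      rw [hσ x, hσ y, mul_max_of_nonneg _ _ hb.le]
    simp only [this, sum_sub_distrib, sum_const, nsmul_eq_mul, ← mul_sum]
    ring
  have hn : 0 < a + b := by linarith
  set α : ℝ := a / (a + b) with hα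
  have hα1 : 1 / 2 ≤ α := by rw [hα, le_div_iff₀ hn]; linarith
  have hα2 : α ≤ 1 := by rw [hα, div_le_one hn]; linarith
  have hβ : 1 - α = b / (a + b) := by rw [hα]; field_simp; ring
  clear_value α m u a
  have key : ∀ φ : ℝ, a ^ 2 * φ ≤ ∑ x ∈ K, ∑ y ∈ K, max (u x) (u y) →
      α ^ 2 * (1 - α) ^ 2 * (α + 3 * (1 - α) * (1 - φ)) * ((1 - α) + 3 * α * m) ≤ γ →
      (a ^ 3 + 3 * R) * (b ^ 3 + 3 * ∑ x ∈ K, σ x ^ 2) ≤ γ * (a + b) ^ 6 := by
    intro φ hφ hF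
    have e : α ^ 2 * (1 - α) ^ 2 * (α + 3 * (1 - α) * (1 - φ)) * ((1 - α) + 3 * α * m) * (a + b) ^ 6
        = (a ^ 3 + 3 * (a ^ 2 * b - b * (a ^ 2 * φ))) * (b ^ 3 + 3 * (b ^ 2 * (a * m))) := by
      rw [hβ, hα]; field_simp
    rw [hQ]
    have hQ0 : 0 ≤ b ^ 3 + 3 * (b ^ 2 * (a * m)) := by positivity
    have hP : a ^ 3 + 3 * R ≤ a ^ 3 + 3 * (a ^ 2 * b - b * (a ^ 2 * φ)) := by
      have := mul_le_mul_of_nonneg_left hφ hb.le
      linarith
    calc _ ≤ (a ^ 3 + 3 * (a ^ 2 * b - b * (a ^ 2 * φ))) * (b ^ 3 + 3 * (b ^ 2 * (a * m))) :=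
          mul_le_mul_of_nonneg_right hP hQ0
      _ = _ := e.symm
      _ ≤ γ * (a + b) ^ 6 := mul_le_mul_of_nonneg_right hF (by positivity)
  rcases le_total m (9 / 16) with hc | hc
  · refine key (2 * m - 32 / 27 * m ^ 2) ?_ ?_
    · have := sum_max K u hu0 hu1 (3 / 4) le_rfl
      rw [hS, ← ha] at this
      refine le_of_eq_of_le ?_ this
      ring
    · have := case1 γ hγ α m hα1 hα2 hm0 hc
      refine le_of_eq_of_le ?_ this
      ring
  · obtain ⟨s, hs0, hs⟩ : ∃ s : ℝ, 0 ≤ s ∧ s ^ 2 = m := ⟨√m, Real.sqrt_nonneg m, Real.sq_sqrt hm0⟩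
    have hs1 : 3 / 4 ≤ s := by nlinarith
    have hs2 : s ≤ 1 := by nlinarith
    have hs3 : 0 < s := by linarith
    refine key s ?_ ?_
    · have := sum_max K u hu0 hu1 s hs1
      rw [hS, ← ha, ← hs] at this
      refine le_of_eq_of_le ?_ this
      field_simp
      ring
    · have := case2 γ hγ α (1 - s) hα1 hα2 (by linarith) (by linarith)
      refine le_of_eq_of_le ?_ this
      rw [← hs]
      ring

/-- the lower-order slack -/
lemma slack (a b E E' R S T1 T2 C : ℝ) (hb : 1 ≤ b) (hab : b ≤ a) (hn : 12 ≤ a + b)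
    (hE : 0 ≤ E) (hE' : 0 ≤ E') (hEE : E + E' = a * b) (hR0 : 0 ≤ R) (hS0 : 0 ≤ S)
    (hR : R ≤ a * E) (hS : S ≤ b * E') (h10 : 0 ≤ T1) (h20 : 0 ≤ T2)
    (h1 : T1 ≤ a * ((a - 1) ^ 2 - (a - 1)) + 3 * (R - E))
    (h2 : T2 ≤ b * ((b - 1) ^ 2 - (b - 1)) + 3 * (S - E'))
    (hC : (a ^ 3 + 3 * R) * (b ^ 3 + 3 * S) ≤ C * (a + b) ^ 6) :
    T1 * T2 ≤ C * ((a + b) * (a + b - 1) * (a + b - 2)) ^ 2 := by
  have ha0 : 0 < a := by linarith
  have hb0 : 0 < b := by linarith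
  set n := a + b with hn'
  have hn0 : 0 < n := by linarith
  set D1 := a ^ 2 + 3 * E with hD1
  set D2 := b ^ 2 + 3 * E' with hD2
  have hD10 : 0 < D1 := by positivity
  have hD20 : 0 < D2 := by positivity
  set x := 1 / a + 2 * (a - 1) / D1 with hx
  set y := 1 / b + 2 * (b - 1) / D2 with hy
  set P := a ^ 3 + 3 * R with hP
  set Q := b ^ 3 + 3 * S with hQ
  have hP0 : 0 < P := by positivity
  have hQ0 : 0 < Q := by positivity
  have hx0 : 0 ≤ x := by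
    have : 0 ≤ a - 1 := by linarith
    positivity
  have hy0 : 0 ≤ y := by
    have : 0 ≤ b - 1 := by linarith
    positivity
  clear_value x y P Q D1 D2 n
  have hT1 : T1 ≤ P * (1 - x) := by
    have e : (a * D1) * x = 3 * a ^ 2 - 2 * a + 3 * E := by
      rw [hx]; field_simp; rw [hD1]; ring
    have e0 : a * D1 = a ^ 3 + 3 * (a * E) := by rw [hD1]; ring
    have : P * x ≤ (a * D1) * x := mul_le_mul_of_nonneg_right (by rw [e0, hP]; linarith) hx0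
    have e1 : a * ((a - 1) ^ 2 - (a - 1)) + 3 * (R - E) = P - (3 * a ^ 2 - 2 * a + 3 * E) := by
      rw [hP]; ring
    have e2 : P * (1 - x) = P - P * x := by ring
    linarith
  have hT2 : T2 ≤ Q * (1 - y) := by
    have e : (b * D2) * y = 3 * b ^ 2 - 2 * b + 3 * E' := by
      rw [hy]; field_simp; rw [hD2]; ring
    have e0 : b * D2 = b ^ 3 + 3 * (b * E') := by rw [hD2]; ring
    have : Q * y ≤ (b * D2) * y := mul_le_mul_of_nonneg_right (by rw [e0, hQ]; linarith) hy0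
    have e1 : b * ((b - 1) ^ 2 - (b - 1)) + 3 * (S - E') = Q - (3 * b ^ 2 - 2 * b + 3 * E') := by
      rw [hQ]; ring
    have e2 : Q * (1 - y) = Q - Q * y := by ring
    linarith
  have hx1 : 0 ≤ 1 - x := by
    exact (mul_nonneg_iff_of_pos_left hP0).mp (h10.trans hT1)
  have hy1 : 0 ≤ 1 - y := by
    exact (mul_nonneg_iff_of_pos_left hQ0).mp (h20.trans hT2)
  have hsum : D1 + D2 ≤ 5 / 4 * n ^ 2 := by
    have e : 5 / 4 * n ^ 2 - (a ^ 2 + b ^ 2 + 3 * (a * b)) = (a - b) ^ 2 / 4 := by rw [hn']; ring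
    have := sq_nonneg (a - b)
    rw [hD1, hD2]; linarith
  have hxy : 6 / n ≤ x + y := by
    have g1 : 2 * (b - 1) / D1 ≤ 2 * (a - 1) / D1 :=
      div_le_div_of_nonneg_right (by linarith) hD10.le
    have g2 : 4 / (5 / 4 * n ^ 2) ≤ 1 / D1 + 1 / D2 := by
      have : 4 / (D1 + D2) ≤ 1 / D1 + 1 / D2 := by
        rw [div_add_div _ _ hD10.ne' hD20.ne', div_le_div_iff₀ (by positivity) (by positivity)]
        have e : (1 * D2 + D1 * 1) * (D1 + D2) - 4 * (D1 * D2) = (D1 - D2) ^ 2 := by ring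
        have := sq_nonneg (D1 - D2)
        linarith
      exact le_trans (div_le_div_of_nonneg_left (by norm_num) (by positivity) hsum) this
    have g3 : 2 * (b - 1) * (4 / (5 / 4 * n ^ 2)) ≤ 2 * (b - 1) / D1 + 2 * (b - 1) / D2 := by
      have := mul_le_mul_of_nonneg_left g2 (show 0 ≤ 2 * (b - 1) by linarith)
      refine this.trans (le_of_eq ?_)
      ring
    have g4 : 6 / n ≤ 1 / a + 1 / b + 2 * (b - 1) * (4 / (5 / 4 * n ^ 2)) := by
      have e : 1 / a + 1 / b + 2 * (b - 1) * (4 / (5 / 4 * n ^ 2)) - 6 / n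
          = (5 * n ^ 3 + 32 * (b - 1) * (a * b) - 30 * n * (a * b)) / (5 * n ^ 2 * (a * b)) := by
        rw [hn']; field_simp; ring
      have : 0 ≤ (5 * n ^ 3 + 32 * (b - 1) * (a * b) - 30 * n * (a * b)) / (5 * n ^ 2 * (a * b)) := by
        apply div_nonneg _ (by positivity)
        -- with d = a - b
        have hd : 0 ≤ a - b := by linarith
        have hab0 : 0 < a * b := by positivity
        have k1 : (4 * n ^ 2 + 4 * (a - b) ^ 2) * (a * b) ≤ n ^ 4 := by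
          have e : n ^ 4 - (4 * n ^ 2 + 4 * (a - b) ^ 2) * (a * b) = ((a - b) ^ 2) ^ 2 := by
            rw [hn']; ring
          have := sq_nonneg ((a - b) ^ 2)
          linarith
        have k2 : 0 ≤ 5 * (4 * n ^ 2 + 4 * (a - b) ^ 2) + 32 * (b - 1) * n - 30 * n ^ 2 := by
          have e : 5 * (4 * n ^ 2 + 4 * (a - b) ^ 2) + 32 * (b - 1) * n - 30 * n ^ 2
              = 4 / 5 * (5 * (a - b) - 2 * n) ^ 2 + 14 / 5 * (n * (n - 12)) + 8 / 5 * n := by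
            rw [hn']; ring
          have := mul_nonneg hn0.le (sub_nonneg.mpr hn)
          have := sq_nonneg (5 * (a - b) - 2 * n)
          linarith
        have k3 := mul_nonneg k2 hab0.le
        have k4 : 0 ≤ n * (5 * n ^ 3 + 32 * (b - 1) * (a * b) - 30 * n * (a * b)) := by
          have e : n * (5 * n ^ 3 + 32 * (b - 1) * (a * b) - 30 * n * (a * b))
            = (5 * (4 * n ^ 2 + 4 * (a - b) ^ 2) + 32 * (b - 1) * n - 30 * n ^ 2) * (a * b)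
              + 5 * (n ^ 4 - (4 * n ^ 2 + 4 * (a - b) ^ 2) * (a * b)) := by ring
          linarith
        exact (mul_nonneg_iff_of_pos_left hn0).mp k4
      linarith
    rw [hx, hy]; linarith
  have h3 : (1 - x) * (1 - y) ≤ (1 - 3 / n) ^ 2 := by
    have : (1 - x) * (1 - y) ≤ (1 - (x + y) / 2) ^ 2 := by
      have e : (1 - (x + y) / 2) ^ 2 - (1 - x) * (1 - y) = (x - y) ^ 2 / 4 := by ring
      have := sq_nonneg (x - y)
      linarith
    refine this.trans ?_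
    have e : 3 / n = 6 / n / 2 := by ring
    apply pow_le_pow_left₀ <;> linarith
  have hC0 : 0 ≤ C := by
    by_contra h
    push Not at h
    have : C * n ^ 6 < 0 := mul_neg_of_neg_of_pos h (by positivity)
    have := mul_pos hP0 hQ0
    linarith
  calc T1 * T2 ≤ (P * (1 - x)) * (Q * (1 - y)) :=
        mul_le_mul hT1 hT2 h20 (mul_nonneg hP0.le hx1)
    _ = (P * Q) * ((1 - x) * (1 - y)) := by ring
    _ ≤ (C * n ^ 6) * (1 - 3 / n) ^ 2 :=
        mul_le_mul hC h3 (mul_nonneg hx1 hy1) (by positivity)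
    _ = C * (n ^ 2 * (n - 3)) ^ 2 := by field_simp
    _ ≤ C * (n * (n - 1) * (n - 2)) ^ 2 := by
        apply mul_le_mul_of_nonneg_left _ hC0
        apply pow_le_pow_left₀
        · have : 0 ≤ n - 3 := by linarith
          positivity
        · have e : n * (n - 1) * (n - 2) = n ^ 2 * (n - 3) + 2 * n := by ring
          linarith

end Pool.Agent.H472Z.Cross
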