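import Mathlib

set_option autoImplicit false

namespace Pool.Agent.H472Z.Cross

open Finset

open Classical in
/-- ordered triangles of a relation -/
def tri {V : Type*} (g : V → V → Prop) (x y z : V) : Prop :=
  x ≠ y ∧ y ≠ z ∧ x ≠ z ∧ g x y ∧ g y z ∧ g x z

open Classical in
/-- the set of ordered triangles -/
noncomputable def triSet {V : Type*} [Fintype V] (g : V → V → Prop) : Finset (V × V × V) :=
  univ.filter fun t => tri g t.1 t.2.1 t.2.2

/-- `g'` is the shift of `g` from `j` to `i` -/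
structure IsShift {V : Type*} (i j : V) (g g' : V → V → Prop) : Prop where
  ne : i ≠ j
  s1 : ∀ x y, g x y → g y x
  s2 : ∀ x y, g' x y → g' y x
  off : ∀ x y, x ≠ i → x ≠ j → y ≠ i → y ≠ j → (g' x y ↔ g x y)
  mid : g' i j ↔ g i j
  up : ∀ y, y ≠ i → y ≠ j → (g' i y ↔ g i y ∨ g j y)
  down : ∀ y, y ≠ i → y ≠ j → (g' j y ↔ g i y ∧ g j y)

lemma IsShift.compl {V : Type*} {i j : V} {g g' : V → V → Prop} (h : IsShift i j g g') :
    IsShift j i (fun x y => ¬ g x y) (fun x y => ¬ g' x y) where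
  ne := h.ne.symm
  s1 := fun x y a b => a (h.s1 _ _ b)
  s2 := fun x y a b => a (h.s2 _ _ b)
  off := fun x y a b c d => not_congr (h.off x y b a d c)
  mid := by
    constructor
    · intro a b; exact a (h.s2 _ _ (h.mid.mpr (h.s1 _ _ b)))
    · intro a b; exact a (h.s1 _ _ (h.mid.mp (h.s2 _ _ b)))
  up := fun y a b => by rw [h.down y b a]; tauto
  down := fun y a b => by rw [h.up y b a]; tauto

section
variable {V : Type*} [DecidableEq V] {i j : V} {g g' : V → V → Prop}

lemma IsShift.e1 (h : IsShift i j g g') {x y : V} (hxy : x ≠ y) (a : g x y)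
    (b : g (Equiv.swap i j x) (Equiv.swap i j y)) : g' x y := by
  have hne := h.ne
  by_cases hxi : x = i
  · subst hxi
    by_cases hyj : y = j
    · subst hyj; exact h.mid.mpr a
    · exact (h.up y hxy.symm hyj).mpr (Or.inl a)
  by_cases hxj : x = j
  · subst hxj
    by_cases hyi : y = i
    · subst hyi; exact h.s2 _ _ (h.mid.mpr (h.s1 _ _ a))
    · rw [Equiv.swap_apply_right, Equiv.swap_apply_of_ne_of_ne hyi hxy.symm] at b
      exact (h.down y hyi hxy.symm).mpr ⟨b, a⟩
  by_cases hyi : y = i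
  · subst hyi
    exact h.s2 _ _ ((h.up x hxi hxj).mpr (Or.inl (h.s1 _ _ a)))
  by_cases hyj : y = j
  · subst hyj
    rw [Equiv.swap_apply_right, Equiv.swap_apply_of_ne_of_ne hxi hxj] at b
    exact h.s2 _ _ ((h.down x hxi hxj).mpr ⟨h.s1 _ _ b, h.s1 _ _ a⟩)
  exact (h.off x y hxi hxj hyi hyj).mpr a

lemma IsShift.e2 (h : IsShift i j g g') {x y : V} (hxy : x ≠ y) (a : g x y)
    (hx : x ≠ j) (hy : y ≠ j) : g' x y := by
  by_cases hxi : x = i
  · subst hxi
    exact (h.up y hxy.symm hy).mpr (Or.inl a)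
  by_cases hyi : y = i
  · subst hyi
    exact h.s2 _ _ ((h.up x hxi hx).mpr (Or.inl (h.s1 _ _ a)))
  exact (h.off x y hxi hx hyi hy).mpr a

lemma IsShift.e3 (h : IsShift i j g g') {x y : V} (hxy : x ≠ y) (a : g x y)
    (hx : x ≠ i) (hy : y ≠ i) : g' (Equiv.swap i j x) (Equiv.swap i j y) := by
  by_cases hxj : x = j
  · subst hxj
    rw [Equiv.swap_apply_right, Equiv.swap_apply_of_ne_of_ne hy hxy.symm]
    exact (h.up y hy hxy.symm).mpr (Or.inr a)
  by_cases hyj : y = j
  · subst hyj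
    rw [Equiv.swap_apply_right, Equiv.swap_apply_of_ne_of_ne hx hxj]
    exact h.s2 _ _ ((h.up x hx hxj).mpr (Or.inr (h.s1 _ _ a)))
  rw [Equiv.swap_apply_of_ne_of_ne hx hxj, Equiv.swap_apply_of_ne_of_ne hy hyj]
  exact (h.off x y hx hxj hy hyj).mpr a

lemma IsShift.t1 (h : IsShift i j g g') {x y z : V} (a : tri g x y z)
    (b : tri g (Equiv.swap i j x) (Equiv.swap i j y) (Equiv.swap i j z)) : tri g' x y z :=
  ⟨a.1, a.2.1, a.2.2.1, h.e1 a.1 a.2.2.2.1 b.2.2.2.1, h.e1 a.2.1 a.2.2.2.2.1 b.2.2.2.2.1,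
    h.e1 a.2.2.1 a.2.2.2.2.2 b.2.2.2.2.2⟩

lemma IsShift.t2 (h : IsShift i j g g') {x y z : V} (a : tri g x y z) (b : ¬ tri g' x y z) :
    tri g' (Equiv.swap i j x) (Equiv.swap i j y) (Equiv.swap i j z) := by
  have hne := h.ne
  have hs := h.s1
  by_cases hi : x ≠ i ∧ y ≠ i ∧ z ≠ i
  · exact ⟨(Equiv.swap i j).injective.ne a.1, (Equiv.swap i j).injective.ne a.2.1,
      (Equiv.swap i j).injective.ne a.2.2.1, h.e3 a.1 a.2.2.2.1 hi.1 hi.2.1,
      h.e3 a.2.1 a.2.2.2.2.1 hi.2.1 hi.2.2, h.e3 a.2.2.1 a.2.2.2.2.2 hi.1 hi.2.2⟩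
  by_cases hj : x ≠ j ∧ y ≠ j ∧ z ≠ j
  · exact absurd ⟨a.1, a.2.1, a.2.2.1, h.e2 a.1 a.2.2.2.1 hj.1 hj.2.1,
      h.e2 a.2.1 a.2.2.2.2.1 hj.2.1 hj.2.2, h.e2 a.2.2.1 a.2.2.2.2.2 hj.1 hj.2.2⟩ b
  exfalso
  apply b
  apply h.t1 a
  obtain ⟨h1, h2, h3, h4, h5, h6⟩ := a
  refine ⟨(Equiv.swap i j).injective.ne h1, (Equiv.swap i j).injective.ne h2,
      (Equiv.swap i j).injective.ne h3, ?_⟩
  have hi' : x = i ∨ y = i ∨ z = i := by tauto
  have hj' : x = j ∨ y = j ∨ z = j := by tauto
  rcases hi' with rfl | rfl | rfl <;> rcases hj' with rfl | rfl | rfl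
  · exact absurd rfl hne
  · rw [Equiv.swap_apply_left, Equiv.swap_apply_right, Equiv.swap_apply_of_ne_of_ne h3.symm h2.symm]
    exact ⟨hs _ _ h4, h6, h5⟩
  · rw [Equiv.swap_apply_left, Equiv.swap_apply_right, Equiv.swap_apply_of_ne_of_ne h1.symm h2]
    exact ⟨hs _ _ h5, hs _ _ h4, hs _ _ h6⟩
  · rw [Equiv.swap_apply_left, Equiv.swap_apply_right, Equiv.swap_apply_of_ne_of_ne h2.symm h3.symm]
    exact ⟨hs _ _ h4, h6, h5⟩
  · exact absurd rfl hne
  · rw [Equiv.swap_apply_left, Equiv.swap_apply_right, Equiv.swap_apply_of_ne_of_ne h1 h3]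
    exact ⟨h6, hs _ _ h5, h4⟩
  · rw [Equiv.swap_apply_left, Equiv.swap_apply_right, Equiv.swap_apply_of_ne_of_ne h2 h1.symm]
    exact ⟨hs _ _ h5, hs _ _ h4, hs _ _ h6⟩
  · rw [Equiv.swap_apply_left, Equiv.swap_apply_right, Equiv.swap_apply_of_ne_of_ne h3 h1]
    exact ⟨h6, hs _ _ h5, h4⟩
  · exact absurd rfl hne

lemma IsShift.card_le [Fintype V] (h : IsShift i j g g') : (triSet g).card ≤ (triSet g').card := by
  classical
  have key : (triSet g \ triSet g').card ≤ (triSet g' \ triSet g).card := by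
    apply card_le_card_of_injOn
      (fun t : V × V × V => (Equiv.swap i j t.1, Equiv.swap i j t.2.1, Equiv.swap i j t.2.2))
    · intro t ht
      simp only [triSet, coe_sdiff, coe_filter, mem_univ, true_and, Set.mem_sdiff,
        Set.mem_ofPred_eq] at ht ⊢
      exact ⟨h.t2 ht.1 ht.2, fun hh => ht.2 (h.t1 ht.1 hh)⟩
    · intro t _ u _ htu
      simp only [Prod.mk.injEq, EmbeddingLike.apply_eq_iff_eq] at htu
      exact Prod.ext htu.1 (Prod.ext htu.2.1 htu.2.2)
  have e1 := card_sdiff_add_card_inter (triSet g) (triSet g')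
  have e2 := card_sdiff_add_card_inter (triSet g') (triSet g)
  rw [inter_comm] at e2
  omega

/-- the explicit shift -/
def shift (i j : V) (g : V → V → Prop) (x y : V) : Prop :=
  if x = i ∧ y ≠ j then g i y ∨ g j y
  else if y = i ∧ x ≠ j then g i x ∨ g j x
  else if x = j ∧ y ≠ i then g i y ∧ g j y
  else if y = j ∧ x ≠ i then g i x ∧ g j x
  else g x y

lemma isShift_shift (hij : i ≠ j) (hs : ∀ x y, g x y → g y x) : IsShift i j g (shift i j g) where
  ne := hij
  s1 := hs
  s2 := by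
    intro x y
    have := hs x y
    unfold shift
    by_cases h1 : x = i <;> by_cases h2 : x = j <;> by_cases h3 : y = i <;> by_cases h4 : y = j <;>
      simp_all
  off := by
    intro x y a b c d
    simp [shift, a, b, c, d]
  mid := by simp [shift, hij, hij.symm]
  up := by
    intro y a b
    simp [shift, b]
  down := by
    intro y a b
    simp [shift, a, b, hij.symm]

end

open Classical in
/-- the potential -/
noncomputable def pot {n : ℕ} (g : Fin n → Fin n → Prop) : ℕ :=
  ∑ p : Fin n × Fin n, if p.1 ≠ p.2 ∧ g p.1 p.2 then (p.1 : ℕ) else 0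

lemma IsShift.pot_lt {n : ℕ} {i j k : Fin n} {g g' : Fin n → Fin n → Prop} (h : IsShift i j g g')
    (hij : i < j) (hki : k ≠ i) (hkj : k ≠ j) (h1 : g j k) (h2 : ¬ g i k) : pot g' < pot g := by
  classical
  let w : (Fin n → Fin n → Prop) → Fin n × Fin n → ℕ :=
    fun g p => if p.1 ≠ p.2 ∧ g p.1 p.2 then (p.1 : ℕ) else 0
  let σ : Fin n × Fin n ≃ Fin n × Fin n := Equiv.prodCongr (Equiv.swap i j) (Equiv.swap i j)
  have e : ∀ g, 2 * pot g = ∑ p, (w g p + w g (σ p)) := by
    intro g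
    rw [sum_add_distrib, Equiv.sum_comp σ (w g), two_mul]
    rfl
  have hlt : (i : ℕ) < j := hij
  have hne := h.ne
  have : ∑ p, (w g' p + w g' (σ p)) < ∑ p, (w g p + w g (σ p)) := by
    apply sum_lt_sum
    · rintro ⟨x, y⟩ _
      simp only [w, σ, Equiv.prodCongr_apply, Prod.map_apply]
      have hm := h.mid
      have hm' : g' j i ↔ g j i :=
        ⟨fun a => h.s1 _ _ (hm.mp (h.s2 _ _ a)), fun a => h.s2 _ _ (hm.mpr (h.s1 _ _ a))⟩
      by_cases hxi : x = i
      · subst hxi
        by_cases hyi : y = x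
        · subst hyi; simp
        by_cases hyj : y = j
        · subst hyj
          simp only [Equiv.swap_apply_left, Equiv.swap_apply_right, hm, hm', le_refl]
        · rw [Equiv.swap_apply_left, Equiv.swap_apply_of_ne_of_ne hyi hyj, h.up y hyi hyj,
            h.down y hyi hyj]
          by_cases a : g x y <;> by_cases b : g j y <;> simp [a, b, Ne.symm hyi, Ne.symm hyj, hlt.le]
      by_cases hxj : x = j
      · subst hxj
        by_cases hyj : y = x
        · subst hyj; simp
        by_cases hyi : y = i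
        · subst hyi
          simp only [Equiv.swap_apply_left, Equiv.swap_apply_right, hm, hm', le_refl]
        · rw [Equiv.swap_apply_right, Equiv.swap_apply_of_ne_of_ne hyi hyj, h.up y hyi hyj,
            h.down y hyi hyj]
          by_cases a : g x y <;> by_cases b : g i y <;> simp [a, b, Ne.symm hyi, Ne.symm hyj, hlt.le]
      have u1 : g' x i ↔ g x i ∨ g x j := by
        have := h.up x hxi hxj
        constructor
        · intro a; exact (this.mp (h.s2 _ _ a)).imp (h.s1 _ _) (h.s1 _ _)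
        · intro a; exact h.s2 _ _ (this.mpr (a.imp (h.s1 _ _) (h.s1 _ _)))
      have u2 : g' x j ↔ g x i ∧ g x j := by
        have := h.down x hxi hxj
        constructor
        · intro a; exact (this.mp (h.s2 _ _ a)).imp (h.s1 _ _) (h.s1 _ _)
        · intro a; exact h.s2 _ _ (this.mpr (a.imp (h.s1 _ _) (h.s1 _ _)))
      rw [Equiv.swap_apply_of_ne_of_ne hxi hxj]
      by_cases hyi : y = i
      · subst hyi
        rw [Equiv.swap_apply_left, u1, u2]
        by_cases a : g x y <;> by_cases b : g x j <;> simp [a, b, hxi, hxj]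
      by_cases hyj : y = j
      · subst hyj
        rw [Equiv.swap_apply_right, u1, u2]
        by_cases a : g x y <;> by_cases b : g x i <;> simp [a, b, hxi, hxj]
      rw [Equiv.swap_apply_of_ne_of_ne hyi hyj, h.off x y hxi hxj hyi hyj]
    · refine ⟨(j, k), mem_univ _, ?_⟩
      simp only [w, σ, Equiv.prodCongr_apply, Prod.map_apply]
      rw [Equiv.swap_apply_right, Equiv.swap_apply_of_ne_of_ne hki hkj, h.up k hki hkj,
        h.down k hki hkj]
      simp [h1, h2, Ne.symm hki, Ne.symm hkj, hlt]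
  have e1 := e g
  have e2 := e g'
  omega

/-- reduction to split graphs -/
lemma reduce {n : ℕ} (C : ℝ)
    (H : ∀ (g : Fin n → Fin n → Prop) (K : Finset (Fin n)), (∀ x y, g x y → g y x) →
      (∀ x ∈ K, ∀ y ∈ K, x ≠ y → g x y) → (∀ x ∉ K, ∀ y ∉ K, x ≠ y → ¬ g x y) →
      ((triSet g).card : ℝ) * (triSet fun x y => ¬ g x y).card ≤ C)
    (g : Fin n → Fin n → Prop) (hs : ∀ x y, g x y → g y x) :
    ((triSet g).card : ℝ) * (triSet fun x y => ¬ g x y).card ≤ C := by
  classical
  induction hm : pot g using Nat.strong_induction_on generalizing g with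
  | _ m ih =>
    by_cases hsh : ∃ i j k : Fin n, i < j ∧ k ≠ i ∧ k ≠ j ∧ g j k ∧ ¬ g i k
    · obtain ⟨i, j, k, hij, hki, hkj, h1, h2⟩ := hsh
      have h := isShift_shift hij.ne hs
      have hlt := h.pot_lt hij hki hkj h1 h2
      have := ih _ (hm ▸ hlt) (shift i j g) h.s2 rfl
      refine le_trans ?_ this
      apply mul_le_mul
      · exact_mod_cast h.card_le
      · exact_mod_cast h.compl.card_le
      · positivity
      · positivity
    · push Not at hsh
      apply H g (univ.filter fun j => ∀ i < j, g i j) hs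
      · intro x hx y hy hxy
        simp only [mem_filter, mem_univ, true_and] at hx hy
        rcases lt_or_gt_of_ne hxy with h | h
        · exact hy x h
        · exact hs _ _ (hx y h)
      · have : ∀ x y, x < y → (¬ ∀ i < x, g i x) → ¬ g x y := by
          intro x y hxy hx hg
          apply hx
          intro i hi
          exact hsh i y x (hi.trans hxy) hi.ne' hxy.ne (hs _ _ hg)
        intro x hx y hy hxy
        simp only [mem_filter, mem_univ, true_and] at hx hy
        rcases lt_or_gt_of_ne hxy with h | h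
        · exact this x y h hx
        · exact fun hg => this y x h hy (hs _ _ hg)

end Pool.Agent.H472Z.Cross
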