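import Pool.Agent.H472Z.CrossAn
import Pool.Agent.H472Z.CrossShift

set_option autoImplicit false

namespace Pool.Agent.H472Z.Cross

open Finset

section
variable {V : Type*} [Fintype V] [DecidableEq V]

lemma pair_sum (S : Finset V) :
    ∑ y, ∑ z, (if y ≠ z ∧ y ∈ S ∧ z ∈ S then (1 : ℝ) else 0) = (S.card : ℝ) ^ 2 - S.card := by
  have e : ∀ y z : V, (if y ≠ z ∧ y ∈ S ∧ z ∈ S then (1 : ℝ) else 0)
      = (if y ∈ S then (1 : ℝ) else 0) * (if z ∈ S then (1 : ℝ) else 0)
        - (if y = z then (if y ∈ S then (1 : ℝ) else 0) else 0) := by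
    intro y z
    by_cases h : y = z
    · subst h; by_cases hy : y ∈ S <;> simp [hy]
    · by_cases hy : y ∈ S <;> by_cases hz : z ∈ S <;> simp [h, hy, hz]
  have c : ∑ y : V, (if y ∈ S then (1 : ℝ) else 0) = S.card := by simp
  simp only [e, sum_sub_distrib, ← mul_sum, ← sum_mul, c, sum_ite_eq, mem_univ, if_true]
  ring

open Classical in
lemma tri_card (g : V → V → Prop) :
    ((triSet g).card : ℝ) = ∑ x, ∑ y, ∑ z, if tri g x y z then (1 : ℝ) else 0 := by
  rw [triSet, card_filter]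
  push_cast
  rw [Fintype.sum_prod_type]
  refine sum_congr rfl fun x _ => ?_
  rw [Fintype.sum_prod_type]

open Classical in
lemma split_bound (g : V → V → Prop) (K : Finset V) (hs : ∀ x y, g x y → g y x)
    (hI : ∀ x ∉ K, ∀ y ∉ K, x ≠ y → ¬ g x y) :
    ((triSet g).card : ℝ) ≤ K.card * (((K.card : ℝ) - 1) ^ 2 - (K.card - 1))
      + 3 * (∑ y ∈ Kᶜ, ((K.filter (g y)).card : ℝ) ^ 2 - ∑ y ∈ Kᶜ, ((K.filter (g y)).card : ℝ)) := by
  let κ : V → V → V → ℝ := fun x y z =>
    if x ∈ K then (if y ≠ z ∧ y ∈ K.erase x ∧ z ∈ K.erase x then 1 else 0) else 0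
  let l : V → V → V → ℝ := fun x y z =>
    if x ∈ Kᶜ then (if y ≠ z ∧ y ∈ K.filter (g x) ∧ z ∈ K.filter (g x) then 1 else 0) else 0
  have hκ0 : ∀ x y z, 0 ≤ κ x y z := by
    intro x y z; simp only [κ]; split_ifs <;> norm_num
  have hl0 : ∀ x y z, 0 ≤ l x y z := by
    intro x y z; simp only [l]; split_ifs <;> norm_num
  have pt : ∀ x y z, (if tri g x y z then (1 : ℝ) else 0) ≤ κ x y z + l x y z + l y x z + l z x y := by
    intro x y z
    have a1 := hκ0 x y z
    have a2 := hl0 x y z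
    have a3 := hl0 y x z
    have a4 := hl0 z x y
    split_ifs with h
    · obtain ⟨h1, h2, h3, h4, h5, h6⟩ := h
      by_cases hx : x ∈ K
      · by_cases hy : y ∈ K
        · by_cases hz : z ∈ K
          · have : κ x y z = 1 := by simp [κ, hx, hy, hz, h2, h1.symm, h3.symm]
            linarith
          · have : l z x y = 1 := by simp [l, hx, hy, hz, h1, hs _ _ h5, hs _ _ h6]
            linarith
        · have hz : z ∈ K := by
            by_contra hz
            exact hI y hy z hz h2 h5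
          have : l y x z = 1 := by simp [l, hx, hy, hz, h3, h5, hs _ _ h4]
          linarith
      · have hy : y ∈ K := by
          by_contra hy
          exact hI x hx y hy h1 h4
        have hz : z ∈ K := by
          by_contra hz
          exact hI x hx z hz h3 h6
        have : l x y z = 1 := by simp [l, hx, hy, hz, h2, h4, h6]
        linarith
    · linarith
  have sκ : ∑ x, ∑ y, ∑ z, κ x y z = K.card * (((K.card : ℝ) - 1) ^ 2 - (K.card - 1)) := by
    have : ∀ x, ∑ y, ∑ z, κ x y z = if x ∈ K then (((K.card : ℝ) - 1) ^ 2 - (K.card - 1)) else 0 := by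
      intro x
      by_cases hx : x ∈ K
      · simp only [κ, hx, if_true]
        rw [pair_sum, card_erase_of_mem hx, Nat.cast_sub (card_pos.mpr ⟨x, hx⟩)]
        simp
      · simp [κ, hx]
    simp only [this]
    rw [sum_ite_mem, univ_inter, sum_const, nsmul_eq_mul]
  have sl : ∑ x, ∑ y, ∑ z, l x y z
      = ∑ y ∈ Kᶜ, ((K.filter (g y)).card : ℝ) ^ 2 - ∑ y ∈ Kᶜ, ((K.filter (g y)).card : ℝ) := by
    have : ∀ x, ∑ y, ∑ z, l x y z = if x ∈ Kᶜ then
        (((K.filter (g x)).card : ℝ) ^ 2 - (K.filter (g x)).card) else 0 := by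
      intro x
      by_cases hx : x ∈ Kᶜ
      · simp only [l, hx, if_true]
        rw [pair_sum]
      · simp only [l, hx, if_false, sum_const_zero]
    simp only [this]
    rw [sum_ite_mem, univ_inter, sum_sub_distrib]
  have sl2 : ∑ x, ∑ y, ∑ z, l y x z = ∑ x, ∑ y, ∑ z, l x y z := sum_comm
  have sl3 : ∑ x, ∑ y, ∑ z, l z x y = ∑ x, ∑ y, ∑ z, l x y z := by
    calc ∑ x, ∑ y, ∑ z, l z x y = ∑ x, ∑ z, ∑ y, l z x y := sum_congr rfl fun x _ => sum_comm
      _ = ∑ z, ∑ x, ∑ y, l z x y := sum_comm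
  rw [tri_card]
  calc _ ≤ ∑ x, ∑ y, ∑ z, (κ x y z + l x y z + l y x z + l z x y) :=
        sum_le_sum fun x _ => sum_le_sum fun y _ => sum_le_sum fun z _ => pt x y z
    _ = _ := by
        simp only [sum_add_distrib]
        rw [sl2, sl3, sκ, sl]
        ring

open Classical in
lemma split_main (γ : ℝ) (hγ : ∀ x, 0 ≤ x → x ≤ 1 → ff x ≤ γ) (hn : 12 ≤ Fintype.card V)
    (g h : V → V → Prop) (hgh : ∀ x y, h x y ↔ ¬ g x y) (K : Finset V) (hs : ∀ x y, g x y → g y x)
    (hK : ∀ x ∈ K, ∀ y ∈ K, x ≠ y → g x y) (hI : ∀ x ∉ K, ∀ y ∉ K, x ≠ y → ¬ g x y)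
    (hab : Kᶜ.card ≤ K.card) :
    ((triSet g).card : ℝ) * (triSet h).card ≤
      γ * ((Fintype.card V : ℝ) * (Fintype.card V - 1) * (Fintype.card V - 2)) ^ 2 := by
  have hs' : ∀ x y, h x y → h y x := fun x y a => (hgh _ _).mpr fun b => (hgh _ _).mp a (hs _ _ b)
  have b1 := split_bound g K hs hI
  have b2 := split_bound h Kᶜ hs' (by
    intro x hx y hy hxy
    rw [mem_compl, not_not] at hx hy
    rw [hgh, not_not]
    exact hK x hx y hy hxy)
  rw [compl_compl] at b2
  have hγ0 : 0 ≤ γ := by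
    have := hγ 0 le_rfl zero_le_one
    simpa [ff] using this
  have hcard : (K.card : ℝ) + (Kᶜ.card : ℝ) = Fintype.card V := by
    exact_mod_cast card_add_card_compl K
  by_cases hb : Kᶜ = ∅
  · have : ((triSet h).card : ℝ) ≤ 0 := by
      rw [hb] at b2
      simpa using b2
    have h0 : ((triSet h).card : ℝ) = 0 := le_antisymm this (by positivity)
    rw [h0, mul_zero]
    positivity
  have hb1 : (1 : ℝ) ≤ Kᶜ.card := by
    exact_mod_cast card_pos.mpr (nonempty_iff_ne_empty.mpr hb)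
  have hab' : (Kᶜ.card : ℝ) ≤ K.card := by exact_mod_cast hab
  set ρ : V → ℝ := fun y => ((K.filter (g y)).card : ℝ) with hρ
  set σ : V → ℝ := fun x => ((Kᶜ.filter (h x)).card : ℝ) with hσ
  have hρ' : ∀ y, ρ y = ∑ x ∈ K, if g y x then (1 : ℝ) else 0 := by
    intro y; simp only [hρ]; rw [card_filter]; push_cast; rfl
  have hσ' : ∀ x, σ x = ∑ y ∈ Kᶜ, if h x y then (1 : ℝ) else 0 := by
    intro y; simp only [hσ]; rw [card_filter]; push_cast; rfl
  have hρ0 : ∀ y, 0 ≤ ρ y := fun y => by simp only [hρ]; positivity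
  have hσ0 : ∀ y, 0 ≤ σ y := fun y => by simp only [hσ]; positivity
  have hρ1 : ∀ y, ρ y ≤ K.card := fun y => by
    simp only [hρ]; exact_mod_cast card_filter_le _ _
  have hσ1 : ∀ y, σ y ≤ Kᶜ.card := fun y => by
    simp only [hσ]; exact_mod_cast card_filter_le _ _
  have compl1 : ∀ x, ∑ y ∈ Kᶜ, (if g y x then (1 : ℝ) else 0) = Kᶜ.card - σ x := by
    intro x
    rw [hσ', eq_sub_iff_add_eq, ← sum_add_distrib]
    have : ∀ y, (if g y x then (1 : ℝ) else 0) + (if h x y then (1 : ℝ) else 0) = 1 := by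
      intro y
      by_cases a : g y x
      · have : ¬ h x y := by rw [hgh, not_not]; exact hs _ _ a
        simp [a, this]
      · have : h x y := by rw [hgh]; exact fun b => a (hs _ _ b)
        simp [a, this]
    simp [this]
  have hEE : ∑ y ∈ Kᶜ, ρ y + ∑ x ∈ K, σ x = K.card * Kᶜ.card := by
    simp only [hρ']
    rw [sum_comm]
    simp only [compl1, sum_sub_distrib, sum_const, nsmul_eq_mul]
    ring
  have hR : ∑ y ∈ Kᶜ, ρ y ^ 2 ≤ ∑ x ∈ K, ∑ x' ∈ K, ((Kᶜ.card : ℝ) - max (σ x) (σ x')) := by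
    have : ∑ y ∈ Kᶜ, ρ y ^ 2 = ∑ x ∈ K, ∑ x' ∈ K, ∑ y ∈ Kᶜ,
        (if g y x then (1 : ℝ) else 0) * (if g y x' then (1 : ℝ) else 0) := by
      simp only [hρ', sq, sum_mul_sum]
      rw [sum_comm]
      exact sum_congr rfl fun x _ => sum_comm
    rw [this]
    refine sum_le_sum fun x _ => sum_le_sum fun x' _ => ?_
    rcases le_total (σ x) (σ x') with a | a
    · rw [max_eq_right a, ← compl1]
      refine sum_le_sum fun y _ => ?_
      split_ifs <;> norm_num
    · rw [max_eq_left a, ← compl1]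
      refine sum_le_sum fun y _ => ?_
      split_ifs <;> norm_num
  have hlim := limit_ineq γ hγ K σ (Kᶜ.card) (∑ y ∈ Kᶜ, ρ y ^ 2) (by linarith) hab'
    (fun x _ => hσ0 x) (fun x _ => hσ1 x) hR
  rw [← hcard]
  refine slack (K.card) (Kᶜ.card) (∑ y ∈ Kᶜ, ρ y) (∑ x ∈ K, σ x) (∑ y ∈ Kᶜ, ρ y ^ 2)
    (∑ x ∈ K, σ x ^ 2) _ _ γ hb1 hab' (by rw [hcard]; exact_mod_cast hn)
    (sum_nonneg fun y _ => hρ0 y) (sum_nonneg fun y _ => hσ0 y) hEE
    (sum_nonneg fun y _ => sq_nonneg _) (sum_nonneg fun y _ => sq_nonneg _) ?_ ?_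
    (by positivity) (by positivity) b1 b2 hlim
  · rw [mul_sum]
    exact sum_le_sum fun y _ => by nlinarith [hρ0 y, hρ1 y]
  · rw [mul_sum]
    exact sum_le_sum fun y _ => by nlinarith [hσ0 y, hσ1 y]

end

lemma graph_main (γ : ℝ) (hγ : ∀ x, 0 ≤ x → x ≤ 1 → ff x ≤ γ) (n : ℕ) (hn : 12 ≤ n)
    (g : Fin n → Fin n → Prop) (hs : ∀ x y, g x y → g y x) :
    ((triSet g).card : ℝ) * (triSet fun x y => ¬ g x y).card ≤
      γ * ((n : ℝ) * (n - 1) * (n - 2)) ^ 2 := by
  classical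
  refine reduce _ ?_ g hs
  intro g K hs hK hI
  rcases le_total Kᶜ.card K.card with h | h
  · have := split_main γ hγ (by simpa using hn) g (fun x y => ¬ g x y) (fun _ _ => Iff.rfl) K hs hK hI h
    simpa using this
  · have := split_main γ hγ (by simpa using hn) (fun x y => ¬ g x y) g (fun _ _ => not_not.symm) Kᶜ
      (fun x y a b => a (hs _ _ b))
      (fun x hx y hy hxy => hI x (mem_compl.mp hx) y (mem_compl.mp hy) hxy)
      (fun x hx y hy hxy => by
        rw [mem_compl, not_not] at hx hy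
        exact not_not.mpr (hK x hx y hy hxy))
      (by rwa [compl_compl])
    rw [mul_comm]
    simpa using this

/-- a family of triangles has at most a sixth of the ordered triangles -/
lemma six_mul_le {V : Type*} [Fintype V] [DecidableEq V] (g : V → V → Prop) (A : Finset (Finset V))
    (hA : ∀ a ∈ A, a.card = 3) (hg : ∀ a ∈ A, ∀ x ∈ a, ∀ y ∈ a, x ≠ y → g x y) :
    6 * A.card ≤ (triSet g).card := by
  classical
  let f : V × V × V → Finset V := fun t => {t.1, t.2.1, t.2.2}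
  refine le_trans (mul_card_image_le_card_of_maps_to (f := f)
    (s := (triSet g).filter fun t => f t ∈ A) (t := A) (fun t ht => (mem_filter.mp ht).2) 6 ?_)
    (card_filter_le _ _)
  intro a ha
  obtain ⟨x, y, z, hxy, hxz, hyz, rfl⟩ := card_eq_three.mp (hA a ha)
  have hx : x ∈ ({x, y, z} : Finset V) := by simp
  have hy : y ∈ ({x, y, z} : Finset V) := by simp
  have hz : z ∈ ({x, y, z} : Finset V) := by simp
  have key : ∀ p q r : V, p ≠ q → q ≠ r → p ≠ r → ({p, q, r} : Finset V) = {x, y, z} →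
      (p, q, r) ∈ ((triSet g).filter fun t => f t ∈ A).filter fun t => f t = {x, y, z} := by
    intro p q r h1 h2 h3 h4
    have hp : p ∈ ({x, y, z} : Finset V) := by rw [← h4]; simp
    have hq : q ∈ ({x, y, z} : Finset V) := by rw [← h4]; simp
    have hr : r ∈ ({x, y, z} : Finset V) := by rw [← h4]; simp
    simp only [mem_filter, triSet, mem_univ, true_and, f, h4, ha, and_true]
    exact ⟨h1, h2, h3, hg _ ha _ hp _ hq h1, hg _ ha _ hq _ hr h2, hg _ ha _ hp _ hr h3⟩
  have hsub : ({(x, y, z), (x, z, y), (y, x, z), (y, z, x), (z, x, y), (z, y, x)} : Finset (V × V × V))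
      ⊆ ((triSet g).filter fun t => f t ∈ A).filter fun t => f t = {x, y, z} := by
    intro t ht
    simp only [mem_insert, mem_singleton] at ht
    rcases ht with rfl | rfl | rfl | rfl | rfl | rfl
    · exact key _ _ _ hxy hyz hxz rfl
    · exact key _ _ _ hxz hyz.symm hxy (by ext; simp; tauto)
    · exact key _ _ _ hxy.symm hxz hyz (by ext; simp; tauto)
    · exact key _ _ _ hyz hxz.symm hxy.symm (by ext; simp; tauto)
    · exact key _ _ _ hxz.symm hxy hyz.symm (by ext; simp; tauto)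
    · exact key _ _ _ hyz.symm hxy.symm hxz.symm (by ext; simp; tauto)
  refine le_trans (le_of_eq ?_) (card_le_card hsub)
  simp [card_insert_of_notMem, hxy, hxz, hyz, hxy.symm, hxz.symm, hyz.symm]

theorem main (γ : ℝ) (hγ : ∀ x, 0 ≤ x → x ≤ 1 → ff x ≤ γ) (n : ℕ) (hn : 12 ≤ n)
    (A B : Finset (Finset (Fin n))) (hA : ∀ a ∈ A, a.card = 3) (hB : ∀ b ∈ B, b.card = 3)
    (hAB : ∀ a ∈ A, ∀ b ∈ B, (a ∩ b).card ≤ 1) :
    ((A.card * B.card : ℕ) : ℝ) ≤ γ * ((n.choose 3 : ℕ) : ℝ) ^ 2 := by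
  let g : Fin n → Fin n → Prop := fun x y => ∃ a ∈ A, x ∈ a ∧ y ∈ a
  have hs : ∀ x y, g x y → g y x := fun x y ⟨a, ha, h1, h2⟩ => ⟨a, ha, h2, h1⟩
  have h1 := six_mul_le g A hA fun a ha x hx y hy _ => ⟨a, ha, hx, hy⟩
  have h2 := six_mul_le (fun x y => ¬ g x y) B hB fun b hb x hx y hy hxy ⟨a, ha, hx', hy'⟩ =>
    hxy (card_le_one.mp (hAB a ha b hb) x (mem_inter.mpr ⟨hx', hx⟩) y (mem_inter.mpr ⟨hy', hy⟩))
  have h3 := graph_main γ hγ n hn g hs
  have h1' : 6 * (A.card : ℝ) ≤ (triSet g).card := by exact_mod_cast h1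
  have h2' : 6 * (B.card : ℝ) ≤ (triSet fun x y => ¬ g x y).card := by exact_mod_cast h2
  have hc : ((n.choose 3 : ℕ) : ℝ) = (n : ℝ) * (n - 1) * (n - 2) / 6 := by
    rw [Nat.cast_choose_eq_descPochhammer_div]
    simp [descPochhammer_succ_right, Nat.factorial]
  have h4 : (6 * (A.card : ℝ)) * (6 * (B.card : ℝ)) ≤
      ((triSet g).card : ℝ) * (triSet fun x y => ¬ g x y).card :=
    mul_le_mul h1' h2' (by positivity) (by positivity)
  rw [hc]
  push_cast
  nlinarith

end Pool.Agent.H472Z.Cross
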