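import Mathlib

set_option autoImplicit false

namespace Pool.Agent.H472Z.Cross

/-- the extremal function -/
noncomputable def ff (x : ℝ) : ℝ := x ^ 3 * (1 - x) ^ 3 + 3 * x ^ 4 * (1 - x) ^ 2

lemma b1 (a t : ℝ) (h1 : (1/2 : ℝ) ≤ a) (h2 : a ≤ (3/4 : ℝ)) (h3 : (0 : ℝ) ≤ t) (h4 : t ≤ (9/32 : ℝ)) :
    0 ≤ ff (16/25) - a^2*(1-a)^2*(a+3*(1-a)*(1-2*t+32/27*t^2))*((1-a)+3*a*t) := by
  have key : ∀ x x' y y' : ℝ, 0 ≤ x → 0 ≤ x' → 0 ≤ y → 0 ≤ y' → 0 ≤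
      (490222592720896/177978515625 : ℝ) * x ^ 0 * x' ^ 6 * y ^ 0 * y' ^ 3
      + (202222592720896/59326171875 : ℝ) * x ^ 0 * x' ^ 6 * y ^ 1 * y' ^ 2
      + (109222592720896/59326171875 : ℝ) * x ^ 0 * x' ^ 6 * y ^ 2 * y' ^ 1
      + (89722592720896/177978515625 : ℝ) * x ^ 0 * x' ^ 6 * y ^ 3 * y' ^ 0
      + (1492445185441792/59326171875 : ℝ) * x ^ 1 * x' ^ 5 * y ^ 0 * y' ^ 3
      + (772445185441792/19775390625 : ℝ) * x ^ 1 * x' ^ 5 * y ^ 1 * y' ^ 2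
      + (458445185441792/19775390625 : ℝ) * x ^ 1 * x' ^ 5 * y ^ 2 * y' ^ 1
      + (307445185441792/59326171875 : ℝ) * x ^ 1 * x' ^ 5 * y ^ 3 * y' ^ 0
      + (1053422592720896/11865234375 : ℝ) * x ^ 2 * x' ^ 4 * y ^ 0 * y' ^ 3
      + (640622592720896/3955078125 : ℝ) * x ^ 2 * x' ^ 4 * y ^ 1 * y' ^ 2
      + (427472592720896/3955078125 : ℝ) * x ^ 2 * x' ^ 4 * y ^ 2 * y' ^ 1
      + (298547592720896/11865234375 : ℝ) * x ^ 2 * x' ^ 4 * y ^ 3 * y' ^ 0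
      + (5493690370883584/35595703125 : ℝ) * x ^ 3 * x' ^ 3 * y ^ 0 * y' ^ 3
      + (3751290370883584/11865234375 : ℝ) * x ^ 3 * x' ^ 3 * y ^ 1 * y' ^ 2
      + (2743890370883584/11865234375 : ℝ) * x ^ 3 * x' ^ 3 * y ^ 2 * y' ^ 1
      + (2058390370883584/35595703125 : ℝ) * x ^ 3 * x' ^ 3 * y ^ 3 * y' ^ 0
      + (1667822592720896/11865234375 : ℝ) * x ^ 4 * x' ^ 2 * y ^ 0 * y' ^ 3
      + (1244222592720896/3955078125 : ℝ) * x ^ 4 * x' ^ 2 * y ^ 1 * y' ^ 2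
      + (12073581391616/48828125 : ℝ) * x ^ 4 * x' ^ 2 * y ^ 2 * y' ^ 1
      + (782466342720896/11865234375 : ℝ) * x ^ 4 * x' ^ 2 * y ^ 3 * y' ^ 0
      + (1276148395147264/19775390625 : ℝ) * x ^ 5 * x' ^ 1 * y ^ 0 * y' ^ 3
      + (1021148395147264/6591796875 : ℝ) * x ^ 5 * x' ^ 1 * y ^ 1 * y' ^ 2
      + (283424465049088/2197265625 : ℝ) * x ^ 5 * x' ^ 1 * y ^ 2 * y' ^ 1
      + (717960895147264/19775390625 : ℝ) * x ^ 5 * x' ^ 1 * y ^ 3 * y' ^ 0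
      + (78008244174848/6591796875 : ℝ) * x ^ 6 * x' ^ 0 * y ^ 0 * y' ^ 3
      + (66008244174848/2197265625 : ℝ) * x ^ 6 * x' ^ 0 * y ^ 1 * y' ^ 2
      + (57555119174848/2197265625 : ℝ) * x ^ 6 * x' ^ 0 * y ^ 2 * y' ^ 1
      + (50750431674848/6591796875 : ℝ) * x ^ 6 * x' ^ 0 * y ^ 3 * y' ^ 0 := by
    intro x x' y y' _ _ _ _
    positivity
  have h := key (a - (1/2 : ℝ)) ((3/4 : ℝ) - a) (t - (0 : ℝ)) ((9/32 : ℝ) - t) (by linarith) (by linarith) (by linarith) (by linarith)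
  refine le_of_le_of_eq h ?_
  simp only [ff]
  ring

lemma b2 (a t : ℝ) (h1 : (1/2 : ℝ) ≤ a) (h2 : a ≤ (3/4 : ℝ)) (h3 : (9/32 : ℝ) ≤ t) (h4 : t ≤ (9/16 : ℝ)) :
    0 ≤ ff (16/25) - a^2*(1-a)^2*(a+3*(1-a)*(1-2*t+32/27*t^2))*((1-a)+3*a*t) := by
  have key : ∀ x x' y y' : ℝ, 0 ≤ x → 0 ≤ x' → 0 ≤ y → 0 ≤ y' → 0 ≤
      (89722592720896/177978515625 : ℝ) * x ^ 0 * x' ^ 6 * y ^ 0 * y' ^ 3
      + (70222592720896/59326171875 : ℝ) * x ^ 0 * x' ^ 6 * y ^ 1 * y' ^ 2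
      + (124222592720896/59326171875 : ℝ) * x ^ 0 * x' ^ 6 * y ^ 2 * y' ^ 1
      + (130222592720896/177978515625 : ℝ) * x ^ 0 * x' ^ 6 * y ^ 3 * y' ^ 0
      + (307445185441792/59326171875 : ℝ) * x ^ 1 * x' ^ 5 * y ^ 0 * y' ^ 3
      + (52148395147264/6591796875 : ℝ) * x ^ 1 * x' ^ 5 * y ^ 1 * y' ^ 2
      + (56148395147264/6591796875 : ℝ) * x ^ 1 * x' ^ 5 * y ^ 2 * y' ^ 1
      + (100445185441792/59326171875 : ℝ) * x ^ 1 * x' ^ 5 * y ^ 3 * y' ^ 0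
      + (298547592720896/11865234375 : ℝ) * x ^ 2 * x' ^ 4 * y ^ 0 * y' ^ 3
      + (169622592720896/3955078125 : ℝ) * x ^ 2 * x' ^ 4 * y ^ 1 * y' ^ 2
      + (124922592720896/3955078125 : ℝ) * x ^ 2 * x' ^ 4 * y ^ 2 * y' ^ 1
      + (49022592720896/11865234375 : ℝ) * x ^ 2 * x' ^ 4 * y ^ 3 * y' ^ 0
      + (2058390370883584/35595703125 : ℝ) * x ^ 3 * x' ^ 3 * y ^ 0 * y' ^ 3
      + (1372890370883584/11865234375 : ℝ) * x ^ 3 * x' ^ 3 * y ^ 1 * y' ^ 2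
      + (1009290370883584/11865234375 : ℝ) * x ^ 3 * x' ^ 3 * y ^ 2 * y' ^ 1
      + (554490370883584/35595703125 : ℝ) * x ^ 3 * x' ^ 3 * y ^ 3 * y' ^ 0
      + (782466342720896/11865234375 : ℝ) * x ^ 4 * x' ^ 2 * y ^ 0 * y' ^ 3
      + (586972592720896/3955078125 : ℝ) * x ^ 4 * x' ^ 2 * y ^ 1 * y' ^ 2
      + (462247592720896/3955078125 : ℝ) * x ^ 4 * x' ^ 2 * y ^ 2 * y' ^ 1
      + (321722592720896/11865234375 : ℝ) * x ^ 4 * x' ^ 2 * y ^ 3 * y' ^ 0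
      + (717960895147264/19775390625 : ℝ) * x ^ 5 * x' ^ 1 * y ^ 0 * y' ^ 3
      + (585648395147264/6591796875 : ℝ) * x ^ 5 * x' ^ 1 * y ^ 1 * y' ^ 2
      + (491898395147264/6591796875 : ℝ) * x ^ 5 * x' ^ 1 * y ^ 2 * y' ^ 1
      + (391148395147264/19775390625 : ℝ) * x ^ 5 * x' ^ 1 * y ^ 3 * y' ^ 0
      + (50750431674848/6591796875 : ℝ) * x ^ 6 * x' ^ 0 * y ^ 0 * y' ^ 3
      + (4882860463872/244140625 : ℝ) * x ^ 6 * x' ^ 0 * y ^ 1 * y' ^ 2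
      + (12929831391616/732421875 : ℝ) * x ^ 6 * x' ^ 0 * y ^ 2 * y' ^ 1
      + (33383244174848/6591796875 : ℝ) * x ^ 6 * x' ^ 0 * y ^ 3 * y' ^ 0 := by
    intro x x' y y' _ _ _ _
    positivity
  have h := key (a - (1/2 : ℝ)) ((3/4 : ℝ) - a) (t - (9/32 : ℝ)) ((9/16 : ℝ) - t) (by linarith) (by linarith) (by linarith) (by linarith)
  refine le_of_le_of_eq h ?_
  simp only [ff]
  ring

lemma b3 (a t : ℝ) (h1 : (3/4 : ℝ) ≤ a) (h2 : a ≤ (1 : ℝ)) (h3 : (0 : ℝ) ≤ t) (h4 : t ≤ (9/16 : ℝ)) :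
    0 ≤ ff (16/25) - a^2*(1-a)^2*(a+3*(1-a)*(1-2*t+32/27*t^2))*((1-a)+3*a*t) := by
  have key : ∀ x x' y y' : ℝ, 0 ≤ x → 0 ≤ x' → 0 ≤ y → 0 ≤ y' → 0 ≤
      (9751030521856/6591796875 : ℝ) * x ^ 0 * x' ^ 6 * y ^ 0 * y' ^ 3
      + (6751030521856/2197265625 : ℝ) * x ^ 0 * x' ^ 6 * y ^ 1 * y' ^ 2
      + (5524468021856/2197265625 : ℝ) * x ^ 0 * x' ^ 6 * y ^ 2 * y' ^ 1
      + (4172905521856/6591796875 : ℝ) * x ^ 0 * x' ^ 6 * y ^ 3 * y' ^ 0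
      + (191518549393408/19775390625 : ℝ) * x ^ 1 * x' ^ 5 * y ^ 0 * y' ^ 3
      + (147268549393408/6591796875 : ℝ) * x ^ 1 * x' ^ 5 * y ^ 1 * y' ^ 2
      + (41599933131136/2197265625 : ℝ) * x ^ 1 * x' ^ 5 * y ^ 2 * y' ^ 1
      + (101331049393408/19775390625 : ℝ) * x ^ 1 * x' ^ 5 * y ^ 3 * y' ^ 0
      + (304477824090112/11865234375 : ℝ) * x ^ 2 * x' ^ 4 * y ^ 0 * y' ^ 3
      + (257077824090112/3955078125 : ℝ) * x ^ 2 * x' ^ 4 * y ^ 1 * y' ^ 2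
      + (8426030521856/146484375 : ℝ) * x ^ 2 * x' ^ 4 * y ^ 2 * y' ^ 1
      + (197527824090112/11865234375 : ℝ) * x ^ 2 * x' ^ 4 * y ^ 3 * y' ^ 0
      + (1256311296360448/35595703125 : ℝ) * x ^ 3 * x' ^ 3 * y ^ 0 * y' ^ 3
      + (1148311296360448/11865234375 : ℝ) * x ^ 3 * x' ^ 3 * y ^ 1 * y' ^ 2
      + (1064611296360448/11865234375 : ℝ) * x ^ 3 * x' ^ 3 * y ^ 2 * y' ^ 1
      + (980911296360448/35595703125 : ℝ) * x ^ 3 * x' ^ 3 * y ^ 3 * y' ^ 0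
      + (1305670057984/48828125 : ℝ) * x ^ 4 * x' ^ 2 * y ^ 0 * y' ^ 3
      + (102559274696704/1318359375 : ℝ) * x ^ 4 * x' ^ 2 * y ^ 1 * y' ^ 2
      + (99359274696704/1318359375 : ℝ) * x ^ 4 * x' ^ 2 * y ^ 2 * y' ^ 1
      + (32053091565568/1318359375 : ℝ) * x ^ 4 * x' ^ 2 * y ^ 3 * y' ^ 0
      + (2611340115968/244140625 : ℝ) * x ^ 5 * x' ^ 1 * y ^ 0 * y' ^ 3
      + (7834020347904/244140625 : ℝ) * x ^ 5 * x' ^ 1 * y ^ 1 * y' ^ 2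
      + (7834020347904/244140625 : ℝ) * x ^ 5 * x' ^ 1 * y ^ 2 * y' ^ 1
      + (2611340115968/244140625 : ℝ) * x ^ 5 * x' ^ 1 * y ^ 3 * y' ^ 0
      + (1305670057984/732421875 : ℝ) * x ^ 6 * x' ^ 0 * y ^ 0 * y' ^ 3
      + (1305670057984/244140625 : ℝ) * x ^ 6 * x' ^ 0 * y ^ 1 * y' ^ 2
      + (1305670057984/244140625 : ℝ) * x ^ 6 * x' ^ 0 * y ^ 2 * y' ^ 1
      + (1305670057984/732421875 : ℝ) * x ^ 6 * x' ^ 0 * y ^ 3 * y' ^ 0 := by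
    intro x x' y y' _ _ _ _
    positivity
  have h := key (a - (3/4 : ℝ)) ((1 : ℝ) - a) (t - (0 : ℝ)) ((9/16 : ℝ) - t) (by linarith) (by linarith) (by linarith) (by linarith)
  refine le_of_le_of_eq h ?_
  simp only [ff]
  ring

lemma b4 (a t : ℝ) (h1 : (2/3 : ℝ) ≤ a) (h2 : a ≤ (1 : ℝ)) (h3 : (0 : ℝ) ≤ t) (h4 : t ≤ (1/4 : ℝ)) :
    0 ≤ ff (16/25) - a^2*(1-a)^2*(a+3*(1-a)*t)*((1-a)+3*a*(1-t)^2) := by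
  have key : ∀ x x' y y' : ℝ, 0 ≤ x → 0 ≤ x' → 0 ≤ y → 0 ≤ y' → 0 ≤
      (7322440192/244140625 : ℝ) * x ^ 0 * x' ^ 6 * y ^ 0 * y' ^ 3
      + (68842320576/244140625 : ℝ) * x ^ 0 * x' ^ 6 * y ^ 1 * y' ^ 2
      + (209467320576/244140625 : ℝ) * x ^ 0 * x' ^ 6 * y ^ 2 * y' ^ 1
      + (130369315192/244140625 : ℝ) * x ^ 0 * x' ^ 6 * y ^ 3 * y' ^ 0
      + (231434641152/244140625 : ℝ) * x ^ 1 * x' ^ 5 * y ^ 0 * y' ^ 3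
      + (1538053923456/244140625 : ℝ) * x ^ 1 * x' ^ 5 * y ^ 1 * y' ^ 2
      + (2733366423456/244140625 : ℝ) * x ^ 1 * x' ^ 5 * y ^ 2 * y' ^ 1
      + (1347645578652/244140625 : ℝ) * x ^ 1 * x' ^ 5 * y ^ 3 * y' ^ 0
      + (453217320576/48828125 : ℝ) * x ^ 2 * x' ^ 4 * y ^ 0 * y' ^ 3
      + (1971370711728/48828125 : ℝ) * x ^ 2 * x' ^ 4 * y ^ 1 * y' ^ 2
      + (2646370711728/48828125 : ℝ) * x ^ 2 * x' ^ 4 * y ^ 2 * y' ^ 1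
      + (1104486851826/48828125 : ℝ) * x ^ 2 * x' ^ 4 * y ^ 3 * y' ^ 0
      + (1419914760768/48828125 : ℝ) * x ^ 3 * x' ^ 3 * y ^ 0 * y' ^ 3
      + (5082400532304/48828125 : ℝ) * x ^ 3 * x' ^ 3 * y ^ 1 * y' ^ 2
      + (5873416157304/48828125 : ℝ) * x ^ 3 * x' ^ 3 * y ^ 2 * y' ^ 1
      + (2199065151393/48828125 : ℝ) * x ^ 3 * x' ^ 3 * y ^ 3 * y' ^ 0
      + (1887592320576/48828125 : ℝ) * x ^ 4 * x' ^ 2 * y ^ 0 * y' ^ 3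
      + (6042464461728/48828125 : ℝ) * x ^ 4 * x' ^ 2 * y ^ 1 * y' ^ 2
      + (6374691024228/48828125 : ℝ) * x ^ 4 * x' ^ 2 * y ^ 2 * y' ^ 1
      + (2219818883076/48828125 : ℝ) * x ^ 4 * x' ^ 2 * y ^ 3 * y' ^ 0
      + (5293934641152/244140625 : ℝ) * x ^ 5 * x' ^ 1 * y ^ 0 * y' ^ 3
      + (15881803923456/244140625 : ℝ) * x ^ 5 * x' ^ 1 * y ^ 1 * y' ^ 2
      + (15881803923456/244140625 : ℝ) * x ^ 5 * x' ^ 1 * y ^ 2 * y' ^ 1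
      + (5293934641152/244140625 : ℝ) * x ^ 5 * x' ^ 1 * y ^ 3 * y' ^ 0
      + (882322440192/244140625 : ℝ) * x ^ 6 * x' ^ 0 * y ^ 0 * y' ^ 3
      + (2646967320576/244140625 : ℝ) * x ^ 6 * x' ^ 0 * y ^ 1 * y' ^ 2
      + (2646967320576/244140625 : ℝ) * x ^ 6 * x' ^ 0 * y ^ 2 * y' ^ 1
      + (882322440192/244140625 : ℝ) * x ^ 6 * x' ^ 0 * y ^ 3 * y' ^ 0 := by
    intro x x' y y' _ _ _ _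
    positivity
  have h := key (a - (2/3 : ℝ)) ((1 : ℝ) - a) (t - (0 : ℝ)) ((1/4 : ℝ) - t) (by linarith) (by linarith) (by linarith) (by linarith)
  refine le_of_le_of_eq h ?_
  simp only [ff]
  ring

lemma b5 (a t : ℝ) (h1 : (1/2 : ℝ) ≤ a) (h2 : a ≤ (2/3 : ℝ)) (h3 : (1/5 : ℝ) ≤ t) (h4 : t ≤ (1/4 : ℝ)) :
    0 ≤ ff (16/25) - a^2*(1-a)^2*(a+3*(1-a)*t)*((1-a)+3*a*(1-t)^2) := by
  have key : ∀ x x' y y' : ℝ, 0 ≤ x → 0 ≤ x' → 0 ≤ y → 0 ≤ y' → 0 ≤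
      (3251636172288/1953125 : ℝ) * x ^ 0 * x' ^ 6 * y ^ 0 * y' ^ 3
      + (9139814766864/1953125 : ℝ) * x ^ 0 * x' ^ 6 * y ^ 1 * y' ^ 2
      + (8798096016864/1953125 : ℝ) * x ^ 0 * x' ^ 6 * y ^ 2 * y' ^ 1
      + (2897102969163/1953125 : ℝ) * x ^ 0 * x' ^ 6 * y ^ 3 * y' ^ 0
      + (9486067033728/1953125 : ℝ) * x ^ 1 * x' ^ 5 * y ^ 0 * y' ^ 3
      + (27729201101184/1953125 : ℝ) * x ^ 1 * x' ^ 5 * y ^ 1 * y' ^ 2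
      + (28583497976184/1953125 : ℝ) * x ^ 1 * x' ^ 5 * y ^ 2 * y' ^ 1
      + (10263477189978/1953125 : ℝ) * x ^ 1 * x' ^ 5 * y ^ 3 * y' ^ 0
      + (2003208516864/390625 : ℝ) * x ^ 2 * x' ^ 4 * y ^ 0 * y' ^ 3
      + (7212475550592/390625 : ℝ) * x ^ 2 * x' ^ 4 * y ^ 1 * y' ^ 2
      + (9156475550592/390625 : ℝ) * x ^ 2 * x' ^ 4 * y ^ 2 * y' ^ 1
      + (3909619454364/390625 : ℝ) * x ^ 2 * x' ^ 4 * y ^ 3 * y' ^ 0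
      + (2492744689152/390625 : ℝ) * x ^ 3 * x' ^ 3 * y ^ 0 * y' ^ 3
      + (11155634067456/390625 : ℝ) * x ^ 3 * x' ^ 3 * y ^ 1 * y' ^ 2
      + (15727071567456/390625 : ℝ) * x ^ 3 * x' ^ 3 * y ^ 2 * y' ^ 1
      + (7016341564152/390625 : ℝ) * x ^ 3 * x' ^ 3 * y ^ 3 * y' ^ 0
      + (4565508516864/390625 : ℝ) * x ^ 4 * x' ^ 2 * y ^ 0 * y' ^ 3
      + (17884225550592/390625 : ℝ) * x ^ 4 * x' ^ 2 * y ^ 1 * y' ^ 2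
      + (22656475550592/390625 : ℝ) * x ^ 4 * x' ^ 2 * y ^ 2 * y' ^ 1
      + (9304346016864/390625 : ℝ) * x ^ 4 * x' ^ 2 * y ^ 3 * y' ^ 0
      + (20283817033728/1953125 : ℝ) * x ^ 5 * x' ^ 1 * y ^ 0 * y' ^ 3
      + (71615451101184/1953125 : ℝ) * x ^ 5 * x' ^ 1 * y ^ 1 * y' ^ 2
      + (83360451101184/1953125 : ℝ) * x ^ 5 * x' ^ 1 * y ^ 2 * y' ^ 1
      + (31968067033728/1953125 : ℝ) * x ^ 5 * x' ^ 1 * y ^ 3 * y' ^ 0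
      + (6132636172288/1953125 : ℝ) * x ^ 6 * x' ^ 0 * y ^ 0 * y' ^ 3
      + (20485908516864/1953125 : ℝ) * x ^ 6 * x' ^ 0 * y ^ 1 * y' ^ 2
      + (22705908516864/1953125 : ℝ) * x ^ 6 * x' ^ 0 * y ^ 2 * y' ^ 1
      + (8343636172288/1953125 : ℝ) * x ^ 6 * x' ^ 0 * y ^ 3 * y' ^ 0 := by
    intro x x' y y' _ _ _ _
    positivity
  have h := key (a - (1/2 : ℝ)) ((2/3 : ℝ) - a) (t - (1/5 : ℝ)) ((1/4 : ℝ) - t) (by linarith) (by linarith) (by linarith) (by linarith)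
  refine le_of_le_of_eq h ?_
  simp only [ff]
  ring

lemma b6 (a t : ℝ) (h1 : (1/2 : ℝ) ≤ a) (h2 : a ≤ (2/3 : ℝ)) (h3 : (0 : ℝ) ≤ t) (h4 : t ≤ (1/5 : ℝ)) :
    0 ≤ (1 : ℝ) * a ^ 0 * t ^ 1 + (-3 : ℝ) * a ^ 0 * t ^ 3 + (2 : ℝ) * a ^ 0 * t ^ 4 + (3 : ℝ) * a ^ 1 * t ^ 0 + (-3 : ℝ) * a ^ 1 * t ^ 1 + (-15 : ℝ) * a ^ 1 * t ^ 2 + (27 : ℝ) * a ^ 1 * t ^ 3 + (-12 : ℝ) * a ^ 1 * t ^ 4 + (-6 : ℝ) * a ^ 2 * t ^ 0 + (-27 : ℝ) * a ^ 2 * t ^ 1 + (90 : ℝ) * a ^ 2 * t ^ 2 + (-90 : ℝ) * a ^ 2 * t ^ 3 + (30 : ℝ) * a ^ 2 * t ^ 4 + (-9 : ℝ) * a ^ 3 * t ^ 0 + (120 : ℝ) * a ^ 3 * t ^ 1 + (-210 : ℝ) * a ^ 3 * t ^ 2 + (150 : ℝ) * a ^ 3 * t ^ 3 + (-40 : ℝ) * a ^ 3 * t ^ 4 + (33 : ℝ) * a ^ 4 * t ^ 0 + (-183 : ℝ) * a ^ 4 * t ^ 1 + (240 : ℝ) * a ^ 4 * t ^ 2 + (-135 : ℝ) * a ^ 4 * t ^ 3 + (30 : ℝ) *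 a ^ 4 * t ^ 4 + (-30 : ℝ) * a ^ 5 * t ^ 0 + (123 : ℝ) * a ^ 5 * t ^ 1 + (-135 : ℝ) * a ^ 5 * t ^ 2 + (63 : ℝ) * a ^ 5 * t ^ 3 + (-12 : ℝ) * a ^ 5 * t ^ 4 + (9 : ℝ) * a ^ 6 * t ^ 0 + (-31 : ℝ) * a ^ 6 * t ^ 1 + (30 : ℝ) * a ^ 6 * t ^ 2 + (-12 : ℝ) * a ^ 6 * t ^ 3 + (2 : ℝ) * a ^ 6 * t ^ 4 := by
  have key : ∀ x x' y y' : ℝ, 0 ≤ x → 0 ≤ x' → 0 ≤ y → 0 ≤ y' → 0 ≤
      (4100625 : ℝ) * x ^ 0 * x' ^ 6 * y ^ 0 * y' ^ 4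
      + (14488875 : ℝ) * x ^ 0 * x' ^ 6 * y ^ 1 * y' ^ 3
      + (18862875 : ℝ) * x ^ 0 * x' ^ 6 * y ^ 2 * y' ^ 2
      + (10683495 : ℝ) * x ^ 0 * x' ^ 6 * y ^ 3 * y' ^ 1
      + (2210328 : ℝ) * x ^ 0 * x' ^ 6 * y ^ 4 * y' ^ 0
      + (20047500 : ℝ) * x ^ 1 * x' ^ 5 * y ^ 0 * y' ^ 4
      + (69801750 : ℝ) * x ^ 1 * x' ^ 5 * y ^ 1 * y' ^ 3
      + (89302500 : ℝ) * x ^ 1 * x' ^ 5 * y ^ 2 * y' ^ 2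
      + (49499100 : ℝ) * x ^ 1 * x' ^ 5 * y ^ 3 * y' ^ 1
      + (9956682 : ℝ) * x ^ 1 * x' ^ 5 * y ^ 4 * y' ^ 0
      + (39487500 : ℝ) * x ^ 2 * x' ^ 4 * y ^ 0 * y' ^ 4
      + (135229500 : ℝ) * x ^ 2 * x' ^ 4 * y ^ 1 * y' ^ 3
      + (169492500 : ℝ) * x ^ 2 * x' ^ 4 * y ^ 2 * y' ^ 2
      + (91465200 : ℝ) * x ^ 2 * x' ^ 4 * y ^ 3 * y' ^ 1
      + (17724420 : ℝ) * x ^ 2 * x' ^ 4 * y ^ 4 * y' ^ 0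
      + (40095000 : ℝ) * x ^ 3 * x' ^ 3 * y ^ 0 * y' ^ 4
      + (134676000 : ℝ) * x ^ 3 * x' ^ 3 * y ^ 1 * y' ^ 3
      + (164592000 : ℝ) * x ^ 3 * x' ^ 3 * y ^ 2 * y' ^ 2
      + (85762800 : ℝ) * x ^ 3 * x' ^ 3 * y ^ 3 * y' ^ 1
      + (15760440 : ℝ) * x ^ 3 * x' ^ 3 * y ^ 4 * y' ^ 0
      + (22140000 : ℝ) * x ^ 4 * x' ^ 2 * y ^ 0 * y' ^ 4
      + (72630000 : ℝ) * x ^ 4 * x' ^ 2 * y ^ 1 * y' ^ 3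
      + (85914000 : ℝ) * x ^ 4 * x' ^ 2 * y ^ 2 * y' ^ 2
      + (42627600 : ℝ) * x ^ 4 * x' ^ 2 * y ^ 3 * y' ^ 1
      + (7207920 : ℝ) * x ^ 4 * x' ^ 2 * y ^ 4 * y' ^ 0
      + (6300000 : ℝ) * x ^ 5 * x' ^ 1 * y ^ 0 * y' ^ 4
      + (20052000 : ℝ) * x ^ 5 * x' ^ 1 * y ^ 1 * y' ^ 3
      + (22680000 : ℝ) * x ^ 5 * x' ^ 1 * y ^ 2 * y' ^ 2
      + (10442880 : ℝ) * x ^ 5 * x' ^ 1 * y ^ 3 * y' ^ 1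
      + (1516032 : ℝ) * x ^ 5 * x' ^ 1 * y ^ 4 * y' ^ 0
      + (720000 : ℝ) * x ^ 6 * x' ^ 0 * y ^ 0 * y' ^ 4
      + (2200000 : ℝ) * x ^ 6 * x' ^ 0 * y ^ 1 * y' ^ 3
      + (2328000 : ℝ) * x ^ 6 * x' ^ 0 * y ^ 2 * y' ^ 2
      + (940800 : ℝ) * x ^ 6 * x' ^ 0 * y ^ 3 * y' ^ 1
      + (92928 : ℝ) * x ^ 6 * x' ^ 0 * y ^ 4 * y' ^ 0 := by
    intro x x' y y' _ _ _ _
    positivity
  have h := key (a - (1/2 : ℝ)) ((2/3 : ℝ) - a) (t - (0 : ℝ)) ((1/5 : ℝ) - t) (by linarith) (by linarith) (by linarith) (by linarith)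
  refine le_of_le_of_eq h ?_
  ring

lemma b7 (a t : ℝ) (h1 : (1/2 : ℝ) ≤ a) (h2 : a ≤ (2/3 : ℝ)) (h3 : (0 : ℝ) ≤ t) (h4 : t ≤ (1/5 : ℝ)) :
    a^2*(1-a)^2*(a+3*(1-a)*t)*((1-a)+3*a*(1-t)^2) ≤ ff (a + (1-a)*t) := by
  have h := mul_nonneg (sq_nonneg t) (b6 a t h1 h2 h3 h4)
  have e : ff (a + (1-a)*t) - a^2*(1-a)^2*(a+3*(1-a)*t)*((1-a)+3*a*(1-t)^2) = t^2 * ((1 : ℝ) * a ^ 0 * t ^ 1 + (-3 : ℝ) * a ^ 0 * t ^ 3 + (2 : ℝ) * a ^ 0 * t ^ 4 + (3 : ℝ) * a ^ 1 * t ^ 0 + (-3 : ℝ) * a ^ 1 * t ^ 1 + (-15 : ℝ) * a ^ 1 * t ^ 2 + (27 : ℝ) * a ^ 1 * t ^ 3 + (-12 : ℝ) * a ^ 1 * t ^ 4 + (-6 : ℝ) * a ^ 2 * t ^ 0 + (-27 : ℝ) * a ^ 2 * t ^ 1 + (90 : ℝ) * a ^ 2 * t ^ 2 + (-90 : ℝ) * a ^ 2 * t ^ 3 + (30 : ℝ) * a ^ 2 * t ^ 4 + (-9 : ℝ) * a ^ 3 * t ^ 0 + (120 : ℝ) * a ^ 3 * t ^ 1 + (-210 : ℝ) * a ^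 3 * t ^ 2 + (150 : ℝ) * a ^ 3 * t ^ 3 + (-40 : ℝ) * a ^ 3 * t ^ 4 + (33 : ℝ) * a ^ 4 * t ^ 0 + (-183 : ℝ) * a ^ 4 * t ^ 1 + (240 : ℝ) * a ^ 4 * t ^ 2 + (-135 : ℝ) * a ^ 4 * t ^ 3 + (30 : ℝ) * a ^ 4 * t ^ 4 + (-30 : ℝ) * a ^ 5 * t ^ 0 + (123 : ℝ) * a ^ 5 * t ^ 1 + (-135 : ℝ) * a ^ 5 * t ^ 2 + (63 : ℝ) * a ^ 5 * t ^ 3 + (-12 : ℝ) * a ^ 5 * t ^ 4 + (9 : ℝ) * a ^ 6 * t ^ 0 + (-31 : ℝ) * a ^ 6 * t ^ 1 + (30 : ℝ) * a ^ 6 * t ^ 2 + (-12 : ℝ) * a ^ 6 * t ^ 3 + (2 : ℝ) * a ^ 6 * t ^ 4) := by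
    simp only [ff]
    ring
  linarith

lemma case1 (γ : ℝ) (hγ : ∀ x, 0 ≤ x → x ≤ 1 → ff x ≤ γ) (a m : ℝ) (h1 : 1/2 ≤ a) (h2 : a ≤ 1)
    (h3 : 0 ≤ m) (h4 : m ≤ 9/16) :
    a^2*(1-a)^2*(a+3*(1-a)*(1-2*m+32/27*m^2))*((1-a)+3*a*m) ≤ γ := by
  have h0 := hγ (16/25) (by norm_num) (by norm_num)
  rcases le_total a (3/4) with h | h
  · rcases le_total m (9/32) with h' | h'
    · have := b1 a m h1 h h3 h'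
      linarith
    · have := b2 a m h1 h h' h4
      linarith
  · have := b3 a m h h2 h3 h4
    linarith

lemma case2 (γ : ℝ) (hγ : ∀ x, 0 ≤ x → x ≤ 1 → ff x ≤ γ) (a t : ℝ) (h1 : 1/2 ≤ a) (h2 : a ≤ 1)
    (h3 : 0 ≤ t) (h4 : t ≤ 1/4) :
    a^2*(1-a)^2*(a+3*(1-a)*t)*((1-a)+3*a*(1-t)^2) ≤ γ := by
  have h0 := hγ (16/25) (by norm_num) (by norm_num)
  rcases le_total a (2/3) with h | h
  · rcases le_total t (1/5) with h' | h'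
    · have := b7 a t h1 h h3 h'
      have h5 := hγ (a + (1-a)*t) (by nlinarith) (by nlinarith)
      linarith
    · have := b5 a t h1 h h' h4
      linarith
  · have := b4 a t h h2 h3 h4
    linarith

end Pool.Agent.H472Z.Cross
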