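import Mathlib

set_option autoImplicit false

namespace Pool.Agent.H472Z.Cub

open Filter Topology

/-- value of the cubic form with coefficients `α, β, c` -/
def ev (α β : ℂ) (c : Fin 8 → ℂ) (x y z : ℂ) : ℂ :=
  α * x ^ 3 + β * y ^ 3 + c 0 * z ^ 3 + c 1 * (x * z ^ 2) + c 2 * (y * z ^ 2) + c 3 * (x ^ 2 * z) +
    c 4 * (x * y * z) + c 5 * (y ^ 2 * z) + c 6 * (x ^ 2 * y) + c 7 * (x * y ^ 2)

def D1 (α β : ℂ) (c : Fin 8 → ℂ) (x y : ℂ) : ℂ :=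
  3 * α * x ^ 2 + 6 * β * y ^ 2 + c 1 + 2 * c 2 + 2 * c 3 * x + c 4 * (y + 2 * x) + 4 * c 5 * y +
    c 6 * (2 * x * y + 2 * x ^ 2) + c 7 * (y ^ 2 + 4 * x * y)

def D2 (α β : ℂ) (c : Fin 8 → ℂ) (x y : ℂ) : ℂ :=
  3 * α * x + 12 * β * y + c 3 + 2 * c 4 + 4 * c 5 + c 6 * (y + 4 * x) + c 7 * (4 * y + 4 * x)

def D3 (α β : ℂ) (c : Fin 8 → ℂ) : ℂ := α + 8 * β + 2 * c 6 + 4 * c 7

theorem ev_line (α β : ℂ) (c : Fin 8 → ℂ) (x y s : ℂ) :
    ev α β c (x + s) (y + 2 * s) 1 =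
      ev α β c x y 1 + D1 α β c x y * s + D2 α β c x y * s ^ 2 + D3 α β c * s ^ 3 := by
  unfold ev D1 D2 D3
  ring

abbrev W : Type := (Fin 11 → ℂ × ℂ) × (Fin 8 → ℂ) × (Fin 8 → ℂ) × (ℂ × ℂ)

def u0 : Fin 11 → ℂ × ℂ :=
  ![(1, 0), (-1, 0), (0, 1), (0, -1), (1, 1), (1, -1), (-1, 1), (-1, -1), (2, 0), (0, 2), (2, 2)]
def a0 : Fin 8 → ℂ := ![0, -1, 0, 0, 0, 0, 0, 0]
def b0 : Fin 8 → ℂ := ![0, 0, -1, 0, 0, 0, 0, 0]
def w0 : W := (u0, a0, b0, (0, 0))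

def ip (i : Fin 8) : Fin 11 := Fin.castAdd 3 i
def iq (j : Fin 3) : Fin 11 := Fin.natAdd 8 j

def Theta (w : W) : W :=
  (w.1, fun i => ev 1 0 w.2.1 (w.1 (ip i)).1 (w.1 (ip i)).2 1,
    fun i => ev 0 1 w.2.2.1 (w.1 (ip i)).1 (w.1 (ip i)).2 1,
    (ev 1 0 w.2.1 w.2.2.2.1 w.2.2.2.2 1, ev 0 1 w.2.2.1 w.2.2.2.1 w.2.2.2.2 1))

theorem Theta_contDiff : ContDiff ℂ 1 Theta := by
  unfold Theta ev
  fun_prop

theorem Theta_w0 : Theta w0 = (u0, 0, 0, (0, 0)) := by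
  unfold Theta
  refine Prod.ext rfl (Prod.ext ?_ (Prod.ext ?_ (Prod.ext ?_ ?_)))
  · funext i
    fin_cases i <;> simp [w0, u0, a0, ev, ip, Fin.castAdd, Fin.castLE] <;> norm_num
  · funext i
    fin_cases i <;> simp [w0, u0, b0, ev, ip, Fin.castAdd, Fin.castLE] <;> norm_num
  · simp [w0, a0, ev]
  · simp [w0, b0, ev]

theorem lin_zero {g : ℂ → ℂ} {c L R : ℂ} (h : ∀ t, g t = c + L * t + R * t ^ 3)
    (hg : HasDerivAt g 0 0) : L = 0 := by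
  have h1 : HasDerivAt (fun t : ℂ => c + L * t + R * t ^ 3) (0 + L * 1 + R * (3 * 0 ^ 2)) 0 := by
    apply HasDerivAt.add
    · exact (hasDerivAt_const _ _).add ((hasDerivAt_id (0 : ℂ)).const_mul L)
    · exact (hasDerivAt_pow 3 (0 : ℂ)).const_mul R
  have h2 : g = fun t => c + L * t + R * t ^ 3 := funext h
  rw [h2] at hg
  have := hg.unique h1
  simpa using this.symm

theorem low_zero (c : Fin 8 → ℂ)
    (h : ∀ i : Fin 8, ev 0 0 c (u0 (ip i)).1 (u0 (ip i)).2 1 = 0) : c = 0 := by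
  have h0 := h 0
  have h1 := h 1
  have h2 := h 2
  have h3 := h 3
  have h4 := h 4
  have h5 := h 5
  have h6 := h 6
  have h7 := h 7
  simp [u0, ev, ip, Fin.castAdd, Fin.castLE] at h0 h1 h2 h3 h4 h5 h6 h7
  have e1 : c 1 = 0 := by linear_combination (h0 - h1) / 2
  have e2 : c 2 = 0 := by linear_combination (h2 - h3) / 2
  have e4 : c 4 = 0 := by linear_combination (h4 - h5 - h6 + h7) / 4
  have e0 : c 0 = 0 := by
    linear_combination (h0 + h1) / 2 + (h2 + h3) / 2 - (h4 + h5 + h6 + h7) / 4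
  have e3 : c 3 = 0 := by linear_combination (h0 + h1) / 2 - e0
  have e5 : c 5 = 0 := by linear_combination (h2 + h3) / 2 - e0
  have e6 : c 6 = 0 := by linear_combination (h4 - h5 + h6 - h7) / 4 - e2
  have e7 : c 7 = 0 := by linear_combination (h4 + h5 - h6 - h7) / 4 - e1
  funext i
  fin_cases i <;> simp [e0, e1, e2, e3, e4, e5, e6, e7]

theorem Theta_inj (v : W) (hv : HasDerivAt (fun t : ℂ => Theta (w0 + t • v)) 0 0) : v = 0 := by
  obtain ⟨vu, va, vb, vx, vy⟩ := v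
  have hu : vu = 0 := by
    funext i
    have h1 : HasDerivAt (fun t : ℂ => ((Theta (w0 + t • (vu, va, vb, vx, vy))).1 i).1) 0 0 := by
      have := (((ContinuousLinearMap.fst ℂ ℂ ℂ).comp ((ContinuousLinearMap.proj i).comp
        (ContinuousLinearMap.fst ℂ (Fin 11 → ℂ × ℂ) _))).hasFDerivAt).comp_hasDerivAt (0 : ℂ) hv
      exact this
    have h2 : HasDerivAt (fun t : ℂ => ((Theta (w0 + t • (vu, va, vb, vx, vy))).1 i).2) 0 0 := by
      have := (((ContinuousLinearMap.snd ℂ ℂ ℂ).comp ((ContinuousLinearMap.proj i).comp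
        (ContinuousLinearMap.fst ℂ (Fin 11 → ℂ × ℂ) _))).hasFDerivAt).comp_hasDerivAt (0 : ℂ) hv
      exact this
    have e1 : (vu i).1 = 0 :=
      lin_zero (c := (u0 i).1) (R := 0) (fun t => by simp [Theta, w0]; ring) h1
    have e2 : (vu i).2 = 0 :=
      lin_zero (c := (u0 i).2) (R := 0) (fun t => by simp [Theta, w0]; ring) h2
    exact Prod.ext e1 e2
  subst hu
  have ha : va = 0 := by
    apply low_zero
    intro i
    have h1 : HasDerivAt (fun t : ℂ => ((Theta (w0 + t • (0, va, vb, vx, vy))).2.1 i)) 0 0 := by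
      have := (((ContinuousLinearMap.proj i).comp ((ContinuousLinearMap.fst ℂ (Fin 8 → ℂ) _).comp
        (ContinuousLinearMap.snd ℂ (Fin 11 → ℂ × ℂ) _))).hasFDerivAt).comp_hasDerivAt (0 : ℂ) hv
      exact this
    exact lin_zero (c := ev 1 0 a0 (u0 (ip i)).1 (u0 (ip i)).2 1) (R := 0)
      (fun t => by simp [Theta, w0, ev]; ring) h1
  have hb : vb = 0 := by
    apply low_zero
    intro i
    have h1 : HasDerivAt (fun t : ℂ => ((Theta (w0 + t • (0, va, vb, vx, vy))).2.2.1 i)) 0 0 := by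
      have := (((ContinuousLinearMap.proj i).comp ((ContinuousLinearMap.fst ℂ (Fin 8 → ℂ) _).comp
        ((ContinuousLinearMap.snd ℂ (Fin 8 → ℂ) _).comp
        (ContinuousLinearMap.snd ℂ (Fin 11 → ℂ × ℂ) _)))).hasFDerivAt).comp_hasDerivAt (0 : ℂ) hv
      exact this
    exact lin_zero (c := ev 0 1 b0 (u0 (ip i)).1 (u0 (ip i)).2 1) (R := 0)
      (fun t => by simp [Theta, w0, ev]; ring) h1
  subst ha
  subst hb
  have hx : -vx = 0 := by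
    have h1 : HasDerivAt (fun t : ℂ => ((Theta (w0 + t • (0, 0, 0, vx, vy))).2.2.2.1)) 0 0 := by
      have := (((ContinuousLinearMap.fst ℂ ℂ ℂ).comp ((ContinuousLinearMap.snd ℂ (Fin 8 → ℂ) _).comp
        ((ContinuousLinearMap.snd ℂ (Fin 8 → ℂ) _).comp
        (ContinuousLinearMap.snd ℂ (Fin 11 → ℂ × ℂ) _)))).hasFDerivAt).comp_hasDerivAt (0 : ℂ) hv
      exact this
    exact lin_zero (c := 0) (R := vx ^ 3) (fun t => by simp [Theta, w0, ev, a0]; ring) h1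
  have hy : -vy = 0 := by
    have h1 : HasDerivAt (fun t : ℂ => ((Theta (w0 + t • (0, 0, 0, vx, vy))).2.2.2.2)) 0 0 := by
      have := (((ContinuousLinearMap.snd ℂ ℂ ℂ).comp ((ContinuousLinearMap.snd ℂ (Fin 8 → ℂ) _).comp
        ((ContinuousLinearMap.snd ℂ (Fin 8 → ℂ) _).comp
        (ContinuousLinearMap.snd ℂ (Fin 11 → ℂ × ℂ) _)))).hasFDerivAt).comp_hasDerivAt (0 : ℂ) hv
      exact this
    exact lin_zero (c := 0) (R := vy ^ 3) (fun t => by simp [Theta, w0, ev, b0]; ring) h1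
  rw [neg_eq_zero] at hx hy
  subst hx
  subst hy
  rfl

theorem Theta_map : map Theta (𝓝 w0) = 𝓝 (Theta w0) := by
  have hs : HasStrictFDerivAt Theta (fderiv ℂ Theta w0) w0 :=
    Theta_contDiff.contDiffAt.hasStrictFDerivAt (by norm_num)
  apply hs.map_nhds_eq_of_surj
  have hinj : Function.Injective (fderiv ℂ Theta w0).toLinearMap := by
    rw [← LinearMap.ker_eq_bot, LinearMap.ker_eq_bot']
    intro v hv
    apply Theta_inj v
    have h1 : HasDerivAt (fun t : ℂ => w0 + t • v) v 0 := by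
      simpa using ((hasDerivAt_id (0 : ℂ)).smul_const v).const_add w0
    have h2 : HasFDerivAt Theta (fderiv ℂ Theta w0) (w0 + (0 : ℂ) • v) := by
      simpa using hs.hasFDerivAt
    have h3 := h2.comp_hasDerivAt (0 : ℂ) h1
    have hv' : fderiv ℂ Theta w0 v = 0 := hv
    rw [hv'] at h3
    exact h3
  exact LinearMap.range_eq_top.2 (LinearMap.injective_iff_surjective.1 hinj)

/-- solutions with any property that holds near the base solution exist near the base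
configuration -/
theorem solve {P : W → Prop} (hP : ∀ᶠ w in 𝓝 w0, P w) :
    ∀ᶠ u in 𝓝 u0, ∃ w : W, P w ∧ Theta w = (u, 0, 0, (0, 0)) := by
  have h1 : ∀ᶠ z in 𝓝 (Theta w0), ∃ w : W, P w ∧ Theta w = z := by
    rw [← Theta_map, Filter.eventually_map]
    exact hP.mono fun w hw => ⟨w, hw, rfl⟩
  rw [Theta_w0] at h1
  have h2 : ContinuousAt (fun u : Fin 11 → ℂ × ℂ => ((u, 0, 0, (0, 0)) : W)) u0 := by fun_prop
  exact h2.eventually h1

theorem root_bound {k0 k1 k2 k3 s : ℂ} {M : ℝ} (h : k0 + k1 * s + k2 * s ^ 2 + k3 * s ^ 3 = 0)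
    (h3 : k3 ≠ 0) (hM : ‖k0‖ + ‖k1‖ + ‖k2‖ ≤ M * ‖k3‖) : ‖s‖ ≤ max 1 M := by
  by_contra hcon
  rw [not_le, max_lt_iff] at hcon
  obtain ⟨h1, h2⟩ := hcon
  have e : k3 * s ^ 3 = -(k0 + k1 * s + k2 * s ^ 2) := by linear_combination h
  have n3 : 0 < ‖k3‖ := norm_pos_iff.2 h3
  have e2 : ‖k3‖ * ‖s‖ ^ 3 ≤ ‖k0‖ + ‖k1‖ * ‖s‖ + ‖k2‖ * ‖s‖ ^ 2 := by
    rw [← norm_pow, ← norm_mul, e, norm_neg]
    refine (norm_add_le _ _).trans (add_le_add ((norm_add_le _ _).trans ?_) ?_)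
    · rw [norm_mul]
    · rw [norm_mul, norm_pow]
  have s2 : 1 ≤ ‖s‖ ^ 2 := by nlinarith
  have s3 : ‖s‖ ≤ ‖s‖ ^ 2 := by nlinarith
  have e3 : ‖k0‖ + ‖k1‖ * ‖s‖ + ‖k2‖ * ‖s‖ ^ 2 ≤ (‖k0‖ + ‖k1‖ + ‖k2‖) * ‖s‖ ^ 2 := by
    have := norm_nonneg k0
    have := norm_nonneg k1
    nlinarith
  have e4 : (‖k0‖ + ‖k1‖ + ‖k2‖) * ‖s‖ ^ 2 ≤ M * ‖k3‖ * ‖s‖ ^ 2 := by gcongr
  have e5 : M * ‖k3‖ * ‖s‖ ^ 2 < ‖s‖ * ‖k3‖ * ‖s‖ ^ 2 := by gcongr
  nlinarith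

theorem no_common {X : Type} [TopologicalSpace X] (k0 k1 k2 k3 : X → ℂ) (g : X × ℂ → ℂ) (x0 : X)
    (c0 : Continuous k0) (c1 : Continuous k1) (c2 : Continuous k2) (c3 : Continuous k3)
    (cg : Continuous g) (h3 : k3 x0 ≠ 0)
    (h : ∀ s, k0 x0 + k1 x0 * s + k2 x0 * s ^ 2 + k3 x0 * s ^ 3 = 0 → g (x0, s) ≠ 0) :
    ∀ᶠ x in 𝓝 x0, ∀ s, k0 x + k1 x * s + k2 x * s ^ 2 + k3 x * s ^ 3 = 0 → g (x, s) ≠ 0 := by
  have n3 : 0 < ‖k3 x0‖ := norm_pos_iff.2 h3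
  set M : ℝ := (‖k0 x0‖ + ‖k1 x0‖ + ‖k2 x0‖ + 1) / ‖k3 x0‖ with hM
  have e1 : ∀ᶠ x in 𝓝 x0, k3 x ≠ 0 := c3.continuousAt.eventually_ne h3
  have e2 : ∀ᶠ x in 𝓝 x0, ‖k0 x‖ + ‖k1 x‖ + ‖k2 x‖ < M * ‖k3 x‖ := by
    apply ContinuousAt.eventually_lt (by fun_prop) (by fun_prop)
    rw [hM, div_mul_cancel₀ _ n3.ne']
    linarith
  have e3 : ∀ᶠ x in 𝓝 x0, ∀ s ∈ Metric.closedBall (0 : ℂ) (max 1 M),
      (k0 x + k1 x * s + k2 x * s ^ 2 + k3 x * s ^ 3 = 0 → g (x, s) ≠ 0) := by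
    apply (isCompact_closedBall (0 : ℂ) (max 1 M)).eventually_forall_of_forall_eventually
    intro s _
    by_cases hs : k0 x0 + k1 x0 * s + k2 x0 * s ^ 2 + k3 x0 * s ^ 3 = 0
    · have := (cg.continuousAt (x := (x0, s))).eventually_ne (h s hs)
      exact this.mono fun z hz _ => hz
    · have hc : Continuous
          (fun z : X × ℂ => k0 z.1 + k1 z.1 * z.2 + k2 z.1 * z.2 ^ 2 + k3 z.1 * z.2 ^ 3) := by
        fun_prop
      have := (hc.continuousAt (x := (x0, s))).eventually_ne hs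
      exact this.mono fun z hz h' => (hz h').elim
  filter_upwards [e1, e2, e3] with x a1 a2 a3 s hs
  exact a3 s (by simpa using root_bound hs a1 a2.le) hs

end Pool.Agent.H472Z.Cub
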