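import Mathlib

set_option autoImplicit false

namespace Pool.Agent.H472Z.Cub

open MvPolynomial

/-- the complex projective plane -/
abbrev P2 : Type := Projectivization ℂ (Fin 3 → ℂ)

/-- the homogeneous ideal `I(p)` of a point `p` of the plane: the polynomials in three variables
vanishing on the line of `ℂ^3` that `p` represents -/
noncomputable def pointIdeal (p : P2) : Ideal (MvPolynomial (Fin 3) ℂ) :=
  vanishingIdeal ℂ (p.submodule : Set (Fin 3 → ℂ))

/-- the form `F` has multiplicity exactly `t` at `p`: it lies in `I(p)^t` but not in `I(p)^(t+1)` -/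
def HasMult (F : MvPolynomial (Fin 3) ℂ) (p : P2) (t : ℕ) : Prop :=
  F ∈ pointIdeal p ^ t ∧ F ∉ pointIdeal p ^ (t + 1)

/-- `g` is homogeneous in each of the `r` blocks of three variables -/
def IsMultiHomogeneous {r : ℕ} (g : MvPolynomial (Fin r × Fin 3) ℂ) : Prop :=
  ∃ n : Fin r → ℕ, ∀ d ∈ g.support, ∀ i, ∑ k, d (i, k) = n i

/-- Zariski-closed subsets of the `r`-fold product of the plane: common zero sets of families of
multihomogeneous polynomials -/
def IsZariskiClosed {r : ℕ} (Z : Set (Fin r → P2)) : Prop :=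
  ∃ S : Set (MvPolynomial (Fin r × Fin 3) ℂ), (∀ g ∈ S, IsMultiHomogeneous g) ∧
    Z = {p | ∀ g ∈ S, eval (fun ik : Fin r × Fin 3 => (p ik.1).rep ik.2) g = 0}

end Pool.Agent.H472Z.Cub
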