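import Mathlib
import Pool.Agent.H472Z.CubDefs
import Pool.Agent.H472Z.CubAn

set_option autoImplicit false

namespace Pool.Agent.H472Z.Cub

open MvPolynomial

/-- the cubic form with coefficients `α, β, c` -/
noncomputable def cub (α β : ℂ) (c : Fin 8 → ℂ) : MvPolynomial (Fin 3) ℂ :=
  C α * X 0 ^ 3 + C β * X 1 ^ 3 + C (c 0) * X 2 ^ 3 + C (c 1) * (X 0 * X 2 ^ 2) +
    C (c 2) * (X 1 * X 2 ^ 2) + C (c 3) * (X 0 ^ 2 * X 2) + C (c 4) * (X 0 * X 1 * X 2) +
    C (c 5) * (X 1 ^ 2 * X 2) + C (c 6) * (X 0 ^ 2 * X 1) + C (c 7) * (X 0 * X 1 ^ 2)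

theorem aeval_cub (α β : ℂ) (c : Fin 8 → ℂ) (v : Fin 3 → ℂ) :
    aeval v (cub α β c) = ev α β c (v 0) (v 1) (v 2) := by
  simp [cub, ev]

theorem cub_hom (α β : ℂ) (c : Fin 8 → ℂ) : (cub α β c).IsHomogeneous 3 := by
  have h0 := isHomogeneous_X ℂ (0 : Fin 3)
  have h1 := isHomogeneous_X ℂ (1 : Fin 3)
  have h2 := isHomogeneous_X ℂ (2 : Fin 3)
  unfold cub
  repeat' apply IsHomogeneous.add
  · exact (h0.pow 3).C_mul _
  · exact (h1.pow 3).C_mul _
  · exact (h2.pow 3).C_mul _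
  · exact (h0.mul (h2.pow 2)).C_mul _
  · exact (h1.mul (h2.pow 2)).C_mul _
  · exact ((h0.pow 2).mul h2).C_mul _
  · exact ((h0.mul h1).mul h2).C_mul _
  · exact ((h1.pow 2).mul h2).C_mul _
  · exact ((h0.pow 2).mul h1).C_mul _
  · exact (h0.mul (h1.pow 2)).C_mul _

/-- restriction to the line through `(x, y, 1)` in the direction `(1, 2, 0)` -/
noncomputable def psi (x y : ℂ) : MvPolynomial (Fin 3) ℂ →ₐ[ℂ] Polynomial ℂ :=
  aeval ![Polynomial.C x + Polynomial.X, Polynomial.C y + Polynomial.C 2 * Polynomial.X, 1]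

theorem eval_psi (x y s : ℂ) (P : MvPolynomial (Fin 3) ℂ) :
    (psi x y P).eval s = aeval ![x + s, y + 2 * s, 1] P := by
  have : (Polynomial.aeval s).comp (psi x y) = aeval ![x + s, y + 2 * s, 1] := by
    ext i
    fin_cases i <;> simp [psi]
  rw [← this]
  simp [Polynomial.coe_aeval_eq_eval]

/-- the polynomial `k0 + k1 s + k2 s^2 + k3 s^3` -/
noncomputable def cp (k0 k1 k2 k3 : ℂ) : Polynomial ℂ :=
  Polynomial.C k0 + Polynomial.C k1 * Polynomial.X + Polynomial.C k2 * Polynomial.X ^ 2 +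
    Polynomial.C k3 * Polynomial.X ^ 3

theorem eval_cp (k0 k1 k2 k3 s : ℂ) :
    (cp k0 k1 k2 k3).eval s = k0 + k1 * s + k2 * s ^ 2 + k3 * s ^ 3 := by
  simp [cp]

theorem eval_deriv_cp (k0 k1 k2 k3 s : ℂ) :
    (cp k0 k1 k2 k3).derivative.eval s = k1 + 2 * k2 * s + 3 * k3 * s ^ 2 := by
  simp [cp]
  ring

theorem natDegree_cp (k0 k1 k2 k3 : ℂ) (h : k3 ≠ 0) : (cp k0 k1 k2 k3).natDegree = 3 := by
  unfold cp
  compute_degree!

theorem psi_cub (α β : ℂ) (c : Fin 8 → ℂ) (x y : ℂ) :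
    psi x y (cub α β c) = cp (ev α β c x y 1) (D1 α β c x y) (D2 α β c x y) (D3 α β c) := by
  apply Polynomial.funext
  intro s
  rw [eval_psi, aeval_cub, eval_cp]
  exact ev_line α β c x y s

theorem ne0 (x y : ℂ) : (![x, y, 1] : Fin 3 → ℂ) ≠ 0 := by
  intro h
  have := congrFun h 2
  simp at this

/-- the point `(x : y : 1)` -/
noncomputable def pt (x y : ℂ) : P2 := Projectivization.mk ℂ ![x, y, 1] (ne0 x y)

theorem pt_inj {x y x' y' : ℂ} (h : pt x y = pt x' y') : (x, y) = (x', y') := by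
  obtain ⟨a, ha⟩ := (Projectivization.mk_eq_mk_iff' ℂ _ _ _ _).1 h
  have h0 := congrFun ha 0
  have h1 := congrFun ha 1
  have h2 := congrFun ha 2
  simp at h0 h1 h2
  subst h2
  simp at h0 h1
  rw [h0, h1]

theorem cub_mem {α β : ℂ} {c : Fin 8 → ℂ} {x y : ℂ} (h : ev α β c x y 1 = 0) :
    cub α β c ∈ pointIdeal (pt x y) := by
  unfold pointIdeal pt
  rw [mem_vanishingIdeal_iff]
  intro v hv
  rw [Projectivization.submodule_mk] at hv
  obtain ⟨a, rfl⟩ := Submodule.mem_span_singleton.1 hv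
  rw [aeval_cub]
  simp only [Pi.smul_apply, smul_eq_mul, Matrix.cons_val_zero, Matrix.cons_val_one,
    Matrix.cons_val]
  unfold ev at h ⊢
  linear_combination a ^ 3 * h

theorem X_pow_dvd {x y : ℂ} {n : ℕ} {P : MvPolynomial (Fin 3) ℂ}
    (h : P ∈ pointIdeal (pt x y) ^ n) : Polynomial.X ^ n ∣ psi x y P := by
  have h1 : Ideal.map (psi x y) (pointIdeal (pt x y)) ≤ Ideal.span {Polynomial.X} := by
    rw [Ideal.map_le_iff_le_comap]
    intro Q hQ
    rw [Ideal.mem_comap, Ideal.mem_span_singleton, Polynomial.X_dvd_iff,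
      Polynomial.coeff_zero_eq_eval_zero, eval_psi]
    unfold pointIdeal pt at hQ
    rw [mem_vanishingIdeal_iff] at hQ
    have := hQ ![x, y, 1] (by
      rw [Projectivization.submodule_mk]
      exact Submodule.mem_span_singleton_self _)
    simpa using this
  have h2 : psi x y P ∈ Ideal.map (psi x y) (pointIdeal (pt x y) ^ n) := Ideal.mem_map_of_mem _ h
  rw [Ideal.map_pow] at h2
  have h3 := Ideal.pow_right_mono h1 n h2
  rwa [Ideal.span_singleton_pow, Ideal.mem_span_singleton] at h3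

theorem not_dvd {n : ℕ} {u : Polynomial ℂ} (hu : u.eval 0 ≠ 0) :
    ¬ Polynomial.X ^ (n + 1) ∣ Polynomial.X ^ n * u := by
  intro h
  rw [pow_succ, mul_dvd_mul_iff_left (pow_ne_zero _ Polynomial.X_ne_zero), Polynomial.X_dvd_iff,
    Polynomial.coeff_zero_eq_eval_zero] at h
  exact hu h

theorem cp_zero (k1 k2 k3 : ℂ) : cp 0 k1 k2 k3 = Polynomial.X * cp k1 k2 k3 0 := by
  simp [cp]
  ring

theorem mult3 {α1 β1 α2 β2 α3 β3 : ℂ} {c1 c2 c3 : Fin 8 → ℂ} {x y : ℂ}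
    (e1 : ev α1 β1 c1 x y 1 = 0) (e2 : ev α2 β2 c2 x y 1 = 0) (e3 : ev α3 β3 c3 x y 1 = 0)
    (d1 : D1 α1 β1 c1 x y ≠ 0) (d2 : D1 α2 β2 c2 x y ≠ 0) (d3 : D1 α3 β3 c3 x y ≠ 0) :
    HasMult (cub α1 β1 c1 * cub α2 β2 c2 * cub α3 β3 c3) (pt x y) 3 := by
  constructor
  · rw [pow_succ, pow_two]
    exact Ideal.mul_mem_mul (Ideal.mul_mem_mul (cub_mem e1) (cub_mem e2)) (cub_mem e3)
  · intro h
    have h1 := X_pow_dvd h
    rw [map_mul, map_mul, psi_cub, psi_cub, psi_cub, e1, e2, e3, cp_zero, cp_zero, cp_zero] at h1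
    refine not_dvd (n := 3) (u := cp (D1 α1 β1 c1 x y) (D2 α1 β1 c1 x y) (D3 α1 β1 c1) 0 *
      cp (D1 α2 β2 c2 x y) (D2 α2 β2 c2 x y) (D3 α2 β2 c2) 0 *
      cp (D1 α3 β3 c3 x y) (D2 α3 β3 c3 x y) (D3 α3 β3 c3) 0) ?_ ?_
    · simp [eval_cp, d1, d2, d3]
    · convert h1 using 1
      ring

theorem mult1 {α1 β1 α2 β2 α3 β3 : ℂ} {c1 c2 c3 : Fin 8 → ℂ} {x y : ℂ}
    (e1 : ev α1 β1 c1 x y 1 = 0) (e2 : ev α2 β2 c2 x y 1 ≠ 0) (e3 : ev α3 β3 c3 x y 1 ≠ 0)
    (d1 : D1 α1 β1 c1 x y ≠ 0) :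
    HasMult (cub α1 β1 c1 * cub α2 β2 c2 * cub α3 β3 c3) (pt x y) 1 := by
  constructor
  · rw [pow_one]
    exact Ideal.mul_mem_right _ _ (Ideal.mul_mem_right _ _ (cub_mem e1))
  · intro h
    have h1 := X_pow_dvd h
    rw [map_mul, map_mul, psi_cub, psi_cub, psi_cub, e1, cp_zero] at h1
    refine not_dvd (n := 1) (u := cp (D1 α1 β1 c1 x y) (D2 α1 β1 c1 x y) (D3 α1 β1 c1) 0 *
      cp (ev α2 β2 c2 x y 1) (D1 α2 β2 c2 x y) (D2 α2 β2 c2 x y) (D3 α2 β2 c2) *
      cp (ev α3 β3 c3 x y 1) (D1 α3 β3 c3 x y) (D2 α3 β3 c3 x y) (D3 α3 β3 c3)) ?_ ?_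
    · simp [eval_cp, d1, e2, e3]
    · convert h1 using 1
      ring

theorem natDegree_psi_le (x y : ℂ) (P : MvPolynomial (Fin 3) ℂ) :
    (psi x y P).natDegree ≤ P.totalDegree := by
  have := MvPolynomial.aeval_natDegree_le (n := 1) P le_rfl
    ![Polynomial.C x + Polynomial.X, Polynomial.C y + Polynomial.C 2 * Polynomial.X, 1] (by
      intro i
      fin_cases i
      · simp only [Fin.zero_eta, Matrix.cons_val_zero]; compute_degree
      · simp only [Fin.mk_one, Matrix.cons_val_one, Matrix.cons_val_zero]; compute_degree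
      · simp)
  simpa [psi] using this

theorem sqfree {F : MvPolynomial (Fin 3) ℂ} {x y : ℂ} {n : ℕ} (hF : F.totalDegree ≤ n)
    (h0 : psi x y F ≠ 0) (hd : (psi x y F).natDegree = n)
    (hs : ∀ s, (psi x y F).eval s = 0 → (psi x y F).derivative.eval s ≠ 0) : Squarefree F := by
  intro G hG
  obtain ⟨H, rfl⟩ := hG
  have hF0 : G * G * H ≠ 0 := by
    intro h
    rw [h, map_zero] at h0
    exact h0 rfl
  have hG0 : G ≠ 0 := by
    rintro rfl
    simp at hF0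
  have hH0 : H ≠ 0 := by
    rintro rfl
    simp at hF0
  rw [totalDegree_mul_of_isDomain (mul_ne_zero hG0 hG0) hH0,
    totalDegree_mul_of_isDomain hG0 hG0] at hF
  rw [map_mul, map_mul] at h0 hd hs
  have g0 : psi x y G ≠ 0 := by
    intro h
    simp [h] at h0
  have k0 : psi x y H ≠ 0 := by
    intro h
    simp [h] at h0
  rw [Polynomial.natDegree_mul (mul_ne_zero g0 g0) k0, Polynomial.natDegree_mul g0 g0] at hd
  have l1 := natDegree_psi_le x y G
  have l2 := natDegree_psi_le x y H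
  by_cases hdeg : (psi x y G).natDegree = 0
  · have : G.totalDegree = 0 := by omega
    rw [totalDegree_eq_zero_iff_eq_C] at this
    rw [this]
    apply IsUnit.map C
    rw [isUnit_iff_ne_zero]
    intro h
    rw [h, map_zero] at this
    exact hG0 this
  · exfalso
    obtain ⟨r, hr⟩ := IsAlgClosed.exists_root (psi x y G)
      (by
        intro h
        exact hdeg (Polynomial.natDegree_eq_zero_iff_degree_le_zero.2 h.le))
    have hr' : (psi x y G).eval r = 0 := hr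
    apply hs r
    · simp [hr']
    · simp [hr']

theorem eval_scale {r : ℕ} {g : MvPolynomial (Fin r × Fin 3) ℂ} (hg : IsMultiHomogeneous g)
    (c : Fin r → ℂ) (v : Fin r × Fin 3 → ℂ) (hc : ∀ i, c i ≠ 0)
    (h : eval (fun ik : Fin r × Fin 3 => c ik.1 * v ik) g = 0) : eval v g = 0 := by
  obtain ⟨n, hn⟩ := hg
  have : eval (fun ik : Fin r × Fin 3 => c ik.1 * v ik) g = (∏ i, c i ^ n i) * eval v g := by
    rw [eval_eq', eval_eq', Finset.mul_sum]
    apply Finset.sum_congr rfl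
    intro d hd
    simp only [mul_pow, Finset.prod_mul_distrib]
    have : ∏ ik : Fin r × Fin 3, c ik.1 ^ d ik = ∏ i, c i ^ n i := by
      rw [Fintype.prod_prod_type]
      apply Finset.prod_congr rfl
      intro i _
      rw [← hn d hd i, ← Finset.prod_pow_eq_pow_sum]
    rw [this]
    ring
  rw [this] at h
  exact (mul_eq_zero.1 h).resolve_left (Finset.prod_ne_zero_iff.2 fun i _ => pow_ne_zero _ (hc i))

open Filter Topology in
theorem baire {σ : Type} [Fintype σ] (g : ℕ → MvPolynomial σ ℂ) (hg : ∀ k, g k ≠ 0)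
    (v0 : σ → ℂ) {P : (σ → ℂ) → Prop} (hP : ∀ᶠ v in 𝓝 v0, P v) :
    ∃ v, P v ∧ ∀ k, eval v (g k) ≠ 0 := by
  have hd : Dense (⋂ k, {v : σ → ℂ | eval v (g k) ≠ 0}) := by
    apply dense_iInter_of_isOpen
    · intro k
      exact isOpen_ne_fun (MvPolynomial.continuous_eval (g k)) continuous_const
    · intro k
      rw [dense_iff_inter_open]
      intro U hU ⟨v, hv⟩
      by_contra hcon
      apply hg k
      obtain ⟨s, hs, hsU⟩ := isOpen_pi_iff'.1 hU v hv
      apply MvPolynomial.funext_set s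
      · intro i
        exact infinite_of_mem_nhds (v i) ((hs i).1.mem_nhds (hs i).2)
      · intro x hx
        by_contra h
        exact hcon ⟨x, hsU hx, by simpa using h⟩
  obtain ⟨v, hv1, hv2⟩ := hd.inter_nhds_nonempty hP
  exact ⟨v, hv2, fun k => Set.mem_iInter.1 hv1 k⟩

end Pool.Agent.H472Z.Cub
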