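import Mathlib
import Pool.Agent.H472Z.CubAlg

set_option autoImplicit false

namespace Pool.Agent.H472Z.Cub

open MvPolynomial Filter Topology

def al (w : W) (j : Fin 3) : ℂ := ev 0 1 w.2.2.1 (w.1 (iq j)).1 (w.1 (iq j)).2 1
def be (w : W) (j : Fin 3) : ℂ := -ev 1 0 w.2.1 (w.1 (iq j)).1 (w.1 (iq j)).2 1
def co (w : W) (j : Fin 3) : Fin 8 → ℂ := fun i => al w j * w.2.1 i + be w j * w.2.2.1 i

theorem ev_co (w : W) (j : Fin 3) (x y z : ℂ) :
    ev (al w j) (be w j) (co w j) x y z =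
      al w j * ev 1 0 w.2.1 x y z + be w j * ev 0 1 w.2.2.1 x y z := by
  simp only [ev, co]
  ring

def K0 (j : Fin 3) (w : W) : ℂ := ev (al w j) (be w j) (co w j) 0 4 1
def K1 (j : Fin 3) (w : W) : ℂ := D1 (al w j) (be w j) (co w j) 0 4
def K2 (j : Fin 3) (w : W) : ℂ := D2 (al w j) (be w j) (co w j) 0 4
def K3 (j : Fin 3) (w : W) : ℂ := D3 (al w j) (be w j) (co w j)
def cc (j : Fin 3) (w : W) (s : ℂ) : ℂ := K0 j w + K1 j w * s + K2 j w * s ^ 2 + K3 j w * s ^ 3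
def dd (j : Fin 3) (w : W) (s : ℂ) : ℂ := K1 j w + 2 * K2 j w * s + 3 * K3 j w * s ^ 2
def GG (z : W × ℂ) : ℂ :=
  (dd 0 z.1 z.2 * cc 1 z.1 z.2 + cc 0 z.1 z.2 * dd 1 z.1 z.2) * cc 2 z.1 z.2 +
    cc 0 z.1 z.2 * cc 1 z.1 z.2 * dd 2 z.1 z.2

@[fun_prop] theorem cont_al (j : Fin 3) : Continuous (fun w => al w j) := by
  unfold al ev; fun_prop
@[fun_prop] theorem cont_be (j : Fin 3) : Continuous (fun w => be w j) := by
  unfold be ev; fun_prop
@[fun_prop] theorem cont_co (j : Fin 3) (i : Fin 8) : Continuous (fun w => co w j i) := by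
  unfold co; fun_prop
@[fun_prop] theorem cont_K0 (j : Fin 3) : Continuous (K0 j) := by
  unfold K0 ev; fun_prop
@[fun_prop] theorem cont_K1 (j : Fin 3) : Continuous (K1 j) := by
  unfold K1 D1; fun_prop
@[fun_prop] theorem cont_K2 (j : Fin 3) : Continuous (K2 j) := by
  unfold K2 D2; fun_prop
@[fun_prop] theorem cont_K3 (j : Fin 3) : Continuous (K3 j) := by
  unfold K3 D3; fun_prop
theorem cont_GG : Continuous GG := by
  unfold GG cc dd; fun_prop

theorem al0 (j : Fin 3) : al w0 j = ![0, 6, 6] j := by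
  fin_cases j <;> simp [al, w0, u0, b0, ev, iq, Fin.natAdd] <;> norm_num
theorem be0 (j : Fin 3) : be w0 j = ![-6, 0, -6] j := by
  fin_cases j <;> simp [be, w0, u0, a0, ev, iq, Fin.natAdd] <;> norm_num
theorem co0 (j : Fin 3) : co w0 j = ![0, -![0, 6, 6] j, -![-6, 0, -6] j, 0, 0, 0, 0, 0] := by
  funext i
  unfold co
  rw [al0, be0]
  fin_cases i <;> simp [w0, a0, b0]

theorem ev0 (j : Fin 3) (x y : ℂ) : ev (al w0 j) (be w0 j) (co w0 j) x y 1 =
    ![0, 6, 6] j * (x ^ 3 - x) + ![-6, 0, -6] j * (y ^ 3 - y) := by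
  rw [al0, be0, co0]
  simp [ev]
  ring

theorem D10 (j : Fin 3) (x y : ℂ) : D1 (al w0 j) (be w0 j) (co w0 j) x y =
    ![0, 6, 6] j * (3 * x ^ 2 - 1) + ![-6, 0, -6] j * (6 * y ^ 2 - 2) := by
  rw [al0, be0, co0]
  simp [D1]
  ring

theorem K00 (j : Fin 3) : K0 j w0 = ![-360, 0, -360] j := by
  unfold K0; rw [ev0]; fin_cases j <;> simp <;> norm_num
theorem K10 (j : Fin 3) : K1 j w0 = ![-564, -6, -570] j := by
  unfold K1; rw [D10]; fin_cases j <;> simp <;> norm_num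
theorem K20 (j : Fin 3) : K2 j w0 = ![-288, 0, -288] j := by
  unfold K2; rw [al0, be0, co0]; fin_cases j <;> simp [D2] <;> norm_num
theorem K30 (j : Fin 3) : K3 j w0 = ![-48, 6, -42] j := by
  unfold K3; rw [al0, be0, co0]; fin_cases j <;> simp [D3] <;> norm_num

theorem base_sep (j : Fin 3) (s : ℂ)
    (h : K0 j w0 + K1 j w0 * s + K2 j w0 * s ^ 2 + K3 j w0 * s ^ 3 = 0) : GG (w0, s) ≠ 0 := by
  intro h'
  simp only [GG, cc, dd, K00, K10, K20, K30] at h h'
  have one : (1 : ℂ) = 0 := by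
    fin_cases j
    · simp only [Fin.zero_eta, Matrix.cons_val_zero, Matrix.cons_val_one, Matrix.cons_val] at h h'
      linear_combination ((54559/5880) * s^0 + (1857869/35280) * s^1 + (64703/1225) * s^2 + (-517708/11025) * s^3 + (-1095757/9800) * s^4 + (-1438021/19600) * s^5 + (-50467/2450) * s^6 + (-59/28) * s^7) * h + ((-81863/19051200) * s^0 + (-229/56700) * s^1 + (-59/63504) * s^2) * h'
    · simp only [Fin.mk_one, Matrix.cons_val_zero, Matrix.cons_val_one, Matrix.cons_val] at h h'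
      linear_combination ((5109/980) * s^0 + (165337/7056) * s^1 + (59219/3675) * s^2 + (-2250299/88200) * s^3 + (-636283/14700) * s^4 + (-486791/19600) * s^5 + (-7786/1225) * s^6 + (-17/28) * s^7) * h + ((-1/777600) * s^0 + (-17/529200) * s^1 + (17/508032) * s^2) * h'
    · simp only [Fin.reduceFinMk, Matrix.cons_val_zero, Matrix.cons_val_one, Matrix.cons_val] at h h'
      linear_combination ((-1016824/1623615) * s^0 + (-51098329/15586704) * s^1 + (-73744207/32472300) * s^2 + (737695631/194833800) * s^3 + (188081189/32472300) * s^4 + (25619663/8659280) * s^5 + (1800744/2706025) * s^6 + (86309/1546300) * s^7) * h + ((4859107/16833640320) * s^0 + (34696/219188025) * s^1 + (86309/4008009600) * s^2) * h'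
  exact one_ne_zero one

/-- the open conditions -/
structure Good (w : W) : Prop where
  g1 : ∀ j i, D1 (al w j) (be w j) (co w j) (w.1 (ip i)).1 (w.1 (ip i)).2 ≠ 0
  g2 : ∀ j, D1 (al w j) (be w j) (co w j) w.2.2.2.1 w.2.2.2.2 ≠ 0
  g3 : ∀ j, D1 (al w j) (be w j) (co w j) (w.1 (iq j)).1 (w.1 (iq j)).2 ≠ 0
  g4 : ∀ j k, j ≠ k → ev (al w k) (be w k) (co w k) (w.1 (iq j)).1 (w.1 (iq j)).2 1 ≠ 0
  g5 : ∀ i, w.2.2.2 ≠ w.1 i
  g6 : ∀ i i', i ≠ i' → w.1 i ≠ w.1 i'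
  g7 : ∀ j, K3 j w ≠ 0
  g8 : ∀ j s, K0 j w + K1 j w * s + K2 j w * s ^ 2 + K3 j w * s ^ 3 = 0 → GG (w, s) ≠ 0

theorem u0_inj : ∀ i i' : Fin 11, i ≠ i' → u0 i ≠ u0 i' := by
  have h : ∀ i, u0 i = (((![1, -1, 0, 0, 1, 1, -1, -1, 2, 0, 2] i : ℤ) : ℂ),
      ((![0, 0, 1, -1, 1, -1, 1, -1, 0, 2, 2] i : ℤ) : ℂ)) := by
    intro i
    fin_cases i <;> simp [u0]
  intro i i' hne e
  rw [h, h, Prod.mk.injEq, Int.cast_inj, Int.cast_inj] at e
  apply hne
  revert i i'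
  decide

theorem good_near : ∀ᶠ w in 𝓝 w0, Good w := by
  have e1 : ∀ᶠ w in 𝓝 w0, ∀ j i,
      D1 (al w j) (be w j) (co w j) (w.1 (ip i)).1 (w.1 (ip i)).2 ≠ 0 := by
    simp only [eventually_all]
    intro j i
    apply ContinuousAt.eventually_ne
    · unfold D1; fun_prop
    · rw [D10]
      fin_cases j <;> fin_cases i <;> simp [w0, u0, ip, Fin.castAdd, Fin.castLE] <;> norm_num
  have e2 : ∀ᶠ w in 𝓝 w0, ∀ j, D1 (al w j) (be w j) (co w j) w.2.2.2.1 w.2.2.2.2 ≠ 0 := by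
    simp only [eventually_all]
    intro j
    apply ContinuousAt.eventually_ne
    · unfold D1; fun_prop
    · rw [D10]
      fin_cases j <;> simp [w0] <;> norm_num
  have e3 : ∀ᶠ w in 𝓝 w0, ∀ j,
      D1 (al w j) (be w j) (co w j) (w.1 (iq j)).1 (w.1 (iq j)).2 ≠ 0 := by
    simp only [eventually_all]
    intro j
    apply ContinuousAt.eventually_ne
    · unfold D1; fun_prop
    · rw [D10]
      fin_cases j <;> simp [w0, u0, iq, Fin.natAdd] <;> norm_num
  have e4 : ∀ᶠ w in 𝓝 w0, ∀ j k, j ≠ k →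
      ev (al w k) (be w k) (co w k) (w.1 (iq j)).1 (w.1 (iq j)).2 1 ≠ 0 := by
    simp only [eventually_all]
    intro j k hjk
    apply ContinuousAt.eventually_ne
    · unfold ev; fun_prop
    · rw [ev0]
      fin_cases j <;> fin_cases k <;> simp [w0, u0, iq, Fin.natAdd] at hjk ⊢ <;> norm_num
  have e5 : ∀ᶠ w in 𝓝 w0, ∀ i, w.2.2.2 ≠ w.1 i := by
    simp only [eventually_all]
    intro i
    have : ∀ᶠ w in 𝓝 w0, w.2.2.2 - w.1 i ≠ 0 := by
      apply ContinuousAt.eventually_ne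
      · fun_prop
      · fin_cases i <;> simp [w0, u0]
    exact this.mono fun w hw => sub_ne_zero.1 hw
  have e6 : ∀ᶠ w in 𝓝 w0, ∀ i i', i ≠ i' → w.1 i ≠ w.1 i' := by
    simp only [eventually_all]
    intro i i' h
    have : ∀ᶠ w in 𝓝 w0, w.1 i - w.1 i' ≠ 0 := by
      apply ContinuousAt.eventually_ne
      · fun_prop
      · exact sub_ne_zero.2 (u0_inj i i' h)
    exact this.mono fun w hw => sub_ne_zero.1 hw
  have k3 : ∀ j, K3 j w0 ≠ 0 := by
    intro j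
    rw [K30]
    fin_cases j <;> simp
  have e7 : ∀ᶠ w in 𝓝 w0, ∀ j, K3 j w ≠ 0 := by
    simp only [eventually_all]
    intro j
    exact (cont_K3 j).continuousAt.eventually_ne (k3 j)
  have e8 : ∀ᶠ w in 𝓝 w0, ∀ j s,
      K0 j w + K1 j w * s + K2 j w * s ^ 2 + K3 j w * s ^ 3 = 0 → GG (w, s) ≠ 0 := by
    rw [eventually_all]
    intro j
    exact no_common _ _ _ _ GG w0 (cont_K0 j) (cont_K1 j) (cont_K2 j) (cont_K3 j) cont_GG (k3 j)
      (base_sep j)
  filter_upwards [e1, e2, e3, e4, e5, e6, e7, e8] with w a1 a2 a3 a4 a5 a6 a7 a8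
  exact ⟨a1, a2, a3, a4, a5, a6, a7, a8⟩

/-- the multiplicities -/
def mm (i : Fin 11) : ℕ := if i.val < 8 then 3 else 1

theorem config {u : Fin 11 → ℂ × ℂ} {w : W} (hw : Good w) (hT : Theta w = (u, 0, 0, (0, 0))) :
    Function.Injective (fun i => pt (u i).1 (u i).2) ∧
    ∃ F : MvPolynomial (Fin 3) ℂ, F.IsHomogeneous 9 ∧ F ≠ 0 ∧ Squarefree F ∧
      (∀ i, HasMult F (pt (u i).1 (u i).2) (mm i)) ∧
      ∃ x : P2, (∀ i, x ≠ pt (u i).1 (u i).2) ∧ HasMult F x 3 := by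
  have hu : w.1 = u := congrArg Prod.fst hT
  subst hu
  have hA : ∀ i, ev 1 0 w.2.1 (w.1 (ip i)).1 (w.1 (ip i)).2 1 = 0 :=
    fun i => congrFun (congrArg (fun z : W => z.2.1) hT) i
  have hB : ∀ i, ev 0 1 w.2.2.1 (w.1 (ip i)).1 (w.1 (ip i)).2 1 = 0 :=
    fun i => congrFun (congrArg (fun z : W => z.2.2.1) hT) i
  have hAx : ev 1 0 w.2.1 w.2.2.2.1 w.2.2.2.2 1 = 0 := congrArg (fun z : W => z.2.2.2.1) hT
  have hBx : ev 0 1 w.2.2.1 w.2.2.2.1 w.2.2.2.2 1 = 0 := congrArg (fun z : W => z.2.2.2.2) hT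
  have vp : ∀ j i, ev (al w j) (be w j) (co w j) (w.1 (ip i)).1 (w.1 (ip i)).2 1 = 0 := by
    intro j i
    rw [ev_co, hA, hB]; ring
  have vx : ∀ j, ev (al w j) (be w j) (co w j) w.2.2.2.1 w.2.2.2.2 1 = 0 := by
    intro j
    rw [ev_co, hAx, hBx]; ring
  have vq : ∀ j, ev (al w j) (be w j) (co w j) (w.1 (iq j)).1 (w.1 (iq j)).2 1 = 0 := by
    intro j
    rw [ev_co]
    simp only [al, be]
    ring
  have hsq : Squarefree (cub (al w 0) (be w 0) (co w 0) * cub (al w 1) (be w 1) (co w 1) *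
      cub (al w 2) (be w 2) (co w 2)) := by
    have hp : psi 0 4 (cub (al w 0) (be w 0) (co w 0) * cub (al w 1) (be w 1) (co w 1) *
      cub (al w 2) (be w 2) (co w 2)) = cp (K0 0 w) (K1 0 w) (K2 0 w) (K3 0 w) *
        cp (K0 1 w) (K1 1 w) (K2 1 w) (K3 1 w) * cp (K0 2 w) (K1 2 w) (K2 2 w) (K3 2 w) := by
      rw [map_mul, map_mul, psi_cub, psi_cub, psi_cub]
      rfl
    have nd : ∀ j, (cp (K0 j w) (K1 j w) (K2 j w) (K3 j w)).natDegree = 3 :=
      fun j => natDegree_cp _ _ _ _ (hw.g7 j)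
    have n0 : ∀ j, cp (K0 j w) (K1 j w) (K2 j w) (K3 j w) ≠ 0 := by
      intro j h
      have := nd j
      rw [h] at this
      simp at this
    apply sqfree (x := 0) (y := 4) (n := 9)
    · exact (((cub_hom _ _ _).mul (cub_hom _ _ _)).mul (cub_hom _ _ _)).totalDegree_le
    · rw [hp]
      exact mul_ne_zero (mul_ne_zero (n0 0) (n0 1)) (n0 2)
    · rw [hp, Polynomial.natDegree_mul (mul_ne_zero (n0 0) (n0 1)) (n0 2),
        Polynomial.natDegree_mul (n0 0) (n0 1), nd, nd, nd]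
    · intro s hs
      rw [hp] at hs ⊢
      simp only [Polynomial.eval_mul, eval_cp, mul_eq_zero] at hs
      simp only [Polynomial.derivative_mul, Polynomial.eval_mul, Polynomial.eval_add, eval_cp,
        eval_deriv_cp]
      rcases hs with (hs | hs) | hs
      · exact hw.g8 0 s hs
      · exact hw.g8 1 s hs
      · exact hw.g8 2 s hs
  refine ⟨?_, cub (al w 0) (be w 0) (co w 0) * cub (al w 1) (be w 1) (co w 1) *
      cub (al w 2) (be w 2) (co w 2), ((cub_hom _ _ _).mul (cub_hom _ _ _)).mul (cub_hom _ _ _),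
      hsq.ne_zero, hsq, ?_, pt w.2.2.2.1 w.2.2.2.2, ?_, ?_⟩
  · intro i i' h
    by_contra hne
    exact hw.g6 i i' hne (pt_inj h)
  · intro i
    refine Fin.addCases (m := 8) (n := 3) (fun i => ?_) (fun j => ?_) i
    · have : mm (Fin.castAdd 3 i) = 3 := by simp [mm]
      rw [this]
      exact mult3 (vp 0 i) (vp 1 i) (vp 2 i) (hw.g1 0 i) (hw.g1 1 i) (hw.g1 2 i)
    · have : mm (Fin.natAdd 8 j) = 1 := by simp [mm]
      rw [this]
      fin_cases j
      · exact mult1 (vq 0) (hw.g4 0 1 (by decide)) (hw.g4 0 2 (by decide)) (hw.g3 0)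
      · have := mult1 (vq 1) (hw.g4 1 0 (by decide)) (hw.g4 1 2 (by decide)) (hw.g3 1)
        rw [mul_comm (cub (al w 1) (be w 1) (co w 1))] at this
        exact this
      · have := mult1 (vq 2) (hw.g4 2 0 (by decide)) (hw.g4 2 1 (by decide)) (hw.g3 2)
        rw [mul_assoc, mul_comm (cub (al w 2) (be w 2) (co w 2))] at this
        exact this
  · intro i h
    exact hw.g5 i (pt_inj h)
  · exact mult3 (vx 0) (vx 1) (vx 2) (hw.g2 0) (hw.g2 1) (hw.g2 2)

theorem main (Z : ℕ → Set (Fin 11 → P2)) (hZ : ∀ k, IsZariskiClosed (Z k) ∧ Z k ≠ Set.univ) :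
    ∃ p : Fin 11 → P2, (∀ k, p ∉ Z k) ∧ Function.Injective p ∧
      ∃ F : MvPolynomial (Fin 3) ℂ, F.IsHomogeneous 9 ∧ F ≠ 0 ∧ Squarefree F ∧
        (∀ i, HasMult F (p i) (mm i)) ∧ ∃ x : P2, (∀ i, x ≠ p i) ∧ HasMult F x 3 := by
  have hg : ∀ k, ∃ g : MvPolynomial (Fin 11 × Fin 3) ℂ, g ≠ 0 ∧ IsMultiHomogeneous g ∧
      ∀ p ∈ Z k, eval (fun ik : Fin 11 × Fin 3 => (p ik.1).rep ik.2) g = 0 := by
    intro k
    obtain ⟨⟨S, hS, hZS⟩, hne⟩ := hZ k
    by_contra hcon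
    apply hne
    rw [hZS, Set.eq_univ_iff_forall]
    intro p g hgS
    by_cases h0 : g = 0
    · rw [h0, map_zero]
    · exact (hcon ⟨g, h0, hS g hgS, fun q hq => by rw [hZS] at hq; exact hq g hgS⟩).elim
  choose g g0 gh gZ using hg
  let v0 : Fin 11 × Fin 3 → ℂ := fun ik => ![(u0 ik.1).1, (u0 ik.1).2, 1] ik.2
  let aff : (Fin 11 × Fin 3 → ℂ) → (Fin 11 → ℂ × ℂ) :=
    fun v i => (v (i, 0) / v (i, 2), v (i, 1) / v (i, 2))
  have haff : aff v0 = u0 := by
    funext i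
    simp [aff, v0]
  have hc : ContinuousAt aff v0 := by
    rw [continuousAt_pi]
    intro i
    apply ContinuousAt.prodMk
    · exact ContinuousAt.div (continuous_apply _).continuousAt (continuous_apply _).continuousAt
        (by simp [v0])
    · exact ContinuousAt.div (continuous_apply _).continuousAt (continuous_apply _).continuousAt
        (by simp [v0])
  have e1 : ∀ᶠ v in 𝓝 v0, ∃ w : W, Good w ∧ Theta w = (aff v, 0, 0, (0, 0)) := by
    have := solve good_near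
    rw [← haff] at this
    exact hc.eventually this
  have e2 : ∀ᶠ v in 𝓝 v0, ∀ i, v (i, 2) ≠ 0 := by
    rw [eventually_all]
    intro i
    apply ContinuousAt.eventually_ne
    · exact (continuous_apply _).continuousAt
    · simp [v0]
  obtain ⟨v, ⟨⟨w, hw, hT⟩, hv2⟩, hv⟩ := baire g g0 v0 (e1.and e2)
  refine ⟨fun i => pt (aff v i).1 (aff v i).2, ?_, config hw hT⟩
  intro k hk
  apply hv k
  have h1 := gZ k _ hk
  have h2 : ∀ i, ∃ c : ℂ, c ≠ 0 ∧ ∀ l, (pt (aff v i).1 (aff v i).2).rep l = c * v (i, l) := by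
    intro i
    obtain ⟨a, ha⟩ := Projectivization.exists_smul_eq_mk_rep ℂ ![(aff v i).1, (aff v i).2, 1]
      (ne0 _ _)
    refine ⟨a / v (i, 2), div_ne_zero a.ne_zero (hv2 i), fun l => ?_⟩
    unfold pt
    rw [← ha]
    have := hv2 i
    fin_cases l <;> simp [aff, Units.smul_def] <;> field_simp
  choose c c0 hc using h2
  apply eval_scale (gh k) c v c0
  convert h1 using 3
  funext ik
  exact (hc ik.1 ik.2).symm

end Pool.Agent.H472Z.Cub
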