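import Mathlib

set_option autoImplicit false

namespace Pool.Agent.H472Z.Flex

open Set Filter Topology MeasureTheory intervalIntegral
open scoped ContDiff

/-- bounded measurable real functions -/
def BM (f : ℝ → ℝ) : Prop := Measurable f ∧ ∃ C, ∀ x, |f x| ≤ C

lemma BM.ii {f : ℝ → ℝ} (h : BM f) (a b : ℝ) : IntervalIntegrable f volume a b := by
  obtain ⟨hm, C, hC⟩ := h
  refine (intervalIntegrable_const (c := C)).mono_fun' hm.aestronglyMeasurable ?_
  exact Eventually.of_forall fun x => by simpa using hC x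

lemma BM.mul {f g : ℝ → ℝ} (hf : BM f) (hg : BM g) : BM fun x => f x * g x := by
  obtain ⟨hm, C, hC⟩ := hf
  obtain ⟨hm', D, hD⟩ := hg
  refine ⟨hm.mul hm', C * D, fun x => ?_⟩
  rw [abs_mul]
  exact mul_le_mul (hC x) (hD x) (abs_nonneg _) ((abs_nonneg _).trans (hC x))

lemma BM.add {f g : ℝ → ℝ} (hf : BM f) (hg : BM g) : BM fun x => f x + g x := by
  obtain ⟨hm, C, hC⟩ := hf
  obtain ⟨hm', D, hD⟩ := hg
  exact ⟨hm.add hm', C + D, fun x => (abs_add_le _ _).trans (add_le_add (hC x) (hD x))⟩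

lemma BM.sub {f g : ℝ → ℝ} (hf : BM f) (hg : BM g) : BM fun x => f x - g x := by
  obtain ⟨hm, C, hC⟩ := hf
  obtain ⟨hm', D, hD⟩ := hg
  exact ⟨hm.sub hm', C + D, fun x => (abs_sub _ _).trans (add_le_add (hC x) (hD x))⟩

lemma BM.const (c : ℝ) : BM fun _ => c := ⟨measurable_const, |c|, fun _ => le_rfl⟩

lemma BM.comp {f g : ℝ → ℝ} (hf : BM f) (hg : Measurable g) : BM fun x => f (g x) := by
  obtain ⟨hm, C, hC⟩ := hf
  exact ⟨hm.comp hg, C, fun x => hC _⟩

lemma BM.sum {ι : Type*} (s : Finset ι) {f : ι → ℝ → ℝ} (hf : ∀ i ∈ s, BM (f i)) :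
    BM fun x => ∑ i ∈ s, f i x := by
  classical
  induction s using Finset.induction_on with
  | empty => simpa using BM.const 0
  | insert i s hi ih =>
    simp only [Finset.sum_insert hi]
    exact (hf i (Finset.mem_insert_self _ _)).add (ih fun j hj => hf j (Finset.mem_insert_of_mem hj))

lemma per_bdd {f : ℝ → ℝ} (hf : Continuous f) {T : ℝ} (hT : 0 < T) (hp : Function.Periodic f T) :
    ∃ lo hi : ℝ, ∀ x, f lo ≤ f x ∧ f x ≤ f hi := by
  obtain ⟨lo, -, hlo⟩ := isCompact_Icc.exists_isMinOn (nonempty_Icc.mpr hT.le) hf.continuousOn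
  obtain ⟨hi, -, hhi⟩ := isCompact_Icc.exists_isMaxOn (nonempty_Icc.mpr hT.le) hf.continuousOn
  refine ⟨lo, hi, fun x => ?_⟩
  obtain ⟨y, hy, e⟩ := hp.exists_mem_Ico₀ hT x
  rw [e]
  exact ⟨hlo (Ico_subset_Icc_self hy), hhi (Ico_subset_Icc_self hy)⟩

lemma BM.of_per {f : ℝ → ℝ} (hf : Continuous f) {T : ℝ} (hT : 0 < T) (hp : Function.Periodic f T) :
    BM f := by
  obtain ⟨lo, hi, h⟩ := per_bdd hf hT hp
  exact ⟨hf.measurable, max |f lo| |f hi|, fun x => abs_le_max_abs_abs (h x).1 (h x).2⟩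

lemma primitive_smooth {f : ℝ → ℝ} (hf : ContDiff ℝ ∞ f) :
    ContDiff ℝ ∞ fun z => ∫ t in (0 : ℝ)..z, f t := by
  rw [contDiff_infty_iff_deriv]
  have h : ∀ z, HasDerivAt (fun z => ∫ t in (0 : ℝ)..z, f t) (f z) z :=
    fun z => (hf.continuous.integral_hasStrictDerivAt 0 z).hasDerivAt
  refine ⟨fun z => (h z).differentiableAt, ?_⟩
  have : deriv (fun z => ∫ t in (0 : ℝ)..z, f t) = f := funext fun z => (h z).deriv
  rwa [this]

/-- data of a Lebesgue preserving expanding circle map of degree `k` -/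
structure Base where
  k : ℕ
  s : ℝ → ℝ
  hk : 3 ≤ k
  smooth : ContDiff ℝ ∞ s
  mono : StrictMono s
  per : ∀ z, s (z + k) = s z + 1

namespace Base

variable (B : Base)

/-- derivative of the inverse lift -/
def a (z : ℝ) : ℝ := B.s (z + 1) - B.s z

/-- the inverse lift -/
noncomputable def Ψ (z : ℝ) : ℝ := ∫ t in (0 : ℝ)..z, B.a t

lemma kpos : (0 : ℝ) < B.k := by
  have := B.hk
  exact_mod_cast (by omega : 0 < B.k)

lemma a_pos (z : ℝ) : 0 < B.a z := sub_pos.mpr (B.mono (by linarith))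

lemma a_lt (z : ℝ) : B.a z < 1 := by
  have h : (3 : ℝ) ≤ B.k := by exact_mod_cast B.hk
  have := B.mono (show z + 1 < z + B.k by linarith)
  rw [B.per] at this
  unfold a; linarith

lemma a_smooth : ContDiff ℝ ∞ B.a :=
  (B.smooth.comp (contDiff_id.add contDiff_const)).sub B.smooth

lemma a_cont : Continuous B.a := B.a_smooth.continuous

lemma a_per : Function.Periodic B.a B.k := by
  intro z
  unfold a
  rw [show z + B.k + 1 = z + 1 + B.k by ring, B.per, B.per]; ring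

lemma a_sum (z : ℝ) : ∑ j ∈ Finset.range B.k, B.a (z + j) = 1 := by
  have := Finset.sum_range_sub (fun j : ℕ => B.s (z + j)) B.k
  simp only [Nat.cast_add, Nat.cast_one, Nat.cast_zero, add_zero, B.per] at this
  simp only [a, add_assoc]
  linarith

lemma a_BM : BM B.a := BM.of_per B.a_cont B.kpos B.a_per

lemma Ψ_deriv (z : ℝ) : HasDerivAt B.Ψ (B.a z) z :=
  (B.a_cont.integral_hasStrictDerivAt 0 z).hasDerivAt

lemma Ψ_smooth : ContDiff ℝ ∞ B.Ψ := primitive_smooth B.a_smooth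

lemma Ψ_cont : Continuous B.Ψ := B.Ψ_smooth.continuous

lemma Ψ_zero : B.Ψ 0 = 0 := by simp [Ψ]

lemma Ψ_mono : StrictMono B.Ψ :=
  strictMono_of_deriv_pos fun z => by rw [(B.Ψ_deriv z).deriv]; exact B.a_pos z

lemma sum_int (W : ℝ → ℝ) (hW : BM W) (n : ℕ) :
    ∫ z in (0 : ℝ)..n, W z = ∫ z in (0 : ℝ)..1, ∑ j ∈ Finset.range n, W (z + j) := by
  rw [integral_finsetSum fun j _ => (hW.comp (measurable_add_const _)).ii _ _]
  have := sum_integral_adjacent_intervals (f := W) (μ := volume) (a := fun j : ℕ => (j : ℝ)) (n := n)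
    fun j _ => hW.ii _ _
  simp only [Nat.cast_zero] at this
  rw [← this]
  refine Finset.sum_congr rfl fun j _ => ?_
  rw [integral_comp_add_right]
  simp [add_comm]

lemma Ψ_per (z : ℝ) : B.Ψ (z + B.k) = B.Ψ z + 1 := by
  have h1 : B.Ψ (z + B.k) - B.Ψ z = ∫ t in z..z + B.k, B.a t :=
    integral_interval_sub_left (B.a_BM.ii _ _) (B.a_BM.ii _ _)
  rw [B.a_per.intervalIntegral_add_eq z 0, zero_add, sum_int _ B.a_BM] at h1
  simp only [B.a_sum] at h1
  simp at h1
  linarith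

lemma Ψ_per_int (z : ℝ) (n : ℤ) : B.Ψ (z + n * B.k) = B.Ψ z + n := by
  induction n using Int.induction_on with
  | zero => simp
  | succ n ih => push_cast at ih ⊢; rw [add_mul, one_mul, ← add_assoc, B.Ψ_per, ih]; ring
  | pred n ih =>
    push_cast at ih ⊢
    have := B.Ψ_per (z + (-(n : ℝ) - 1) * B.k)
    rw [show z + (-(n : ℝ) - 1) * B.k + B.k = z + -(n : ℝ) * B.k by ring, ih] at this
    linarith

lemma Ψ_surj : Function.Surjective B.Ψ := by
  intro x
  have h1 := B.Ψ_per_int 0 ⌊x⌋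
  have h2 := B.Ψ_per_int 0 (⌊x⌋ + 1)
  rw [B.Ψ_zero, zero_add, zero_add] at h1 h2
  have := intermediate_value_univ (⌊x⌋ * B.k : ℝ) (((⌊x⌋ + 1 : ℤ) : ℝ) * B.k) B.Ψ_cont
  apply this
  rw [h1, h2]
  push_cast
  exact ⟨Int.floor_le x, (Int.lt_floor_add_one x).le⟩

/-- the inverse lift as a homeomorphism -/
noncomputable def homeo : ℝ ≃ₜ ℝ := (B.Ψ_mono.orderIsoOfSurjective B.Ψ B.Ψ_surj).toHomeomorph

/-- the lift of the expanding map -/
noncomputable def G : ℝ → ℝ := B.homeo.symm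

lemma homeo_coe : (B.homeo : ℝ → ℝ) = B.Ψ := rfl

lemma Ψ_G (x : ℝ) : B.Ψ (B.G x) = x := B.homeo.apply_symm_apply x

lemma G_Ψ (z : ℝ) : B.G (B.Ψ z) = z := B.homeo.symm_apply_apply z

lemma G_smooth : ContDiff ℝ ∞ B.G :=
  B.homeo.contDiff_symm_deriv (fun z => (B.a_pos z).ne') B.Ψ_deriv B.Ψ_smooth

lemma G_cont : Continuous B.G := B.G_smooth.continuous

lemma G_deriv (x : ℝ) : HasDerivAt B.G (B.a (B.G x))⁻¹ x :=
  HasDerivAt.of_local_left_inverse B.G_cont.continuousAt (B.Ψ_deriv _) (B.a_pos _).ne'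
    (Eventually.of_forall B.Ψ_G)

lemma G_per (x : ℝ) : B.G (x + 1) = B.G x + B.k := by
  apply B.Ψ_mono.injective
  rw [B.Ψ_per, B.Ψ_G, B.Ψ_G]

lemma per_comp_G {m : ℝ → ℝ} (hm : Function.Periodic m 1) : Function.Periodic (fun x => m (B.G x)) 1 := by
  intro x
  simp only [B.G_per]
  have := hm.nat_mul B.k (B.G x)
  simpa using this

lemma per_comp_iter {m : ℝ → ℝ} (hm : Function.Periodic m 1) (n : ℕ) :
    Function.Periodic (fun x => m (B.G^[n] x)) 1 := by
  induction n with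
  | zero => exact hm
  | succ n ih => exact B.per_comp_G ih

lemma cv0 (W : ℝ → ℝ) : ∫ x in (0 : ℝ)..1, W (B.G x) = ∫ z in (0 : ℝ)..B.k, B.a z * W z := by
  have := integral_comp_mul_deriv_of_deriv_nonneg (a := 0) (b := B.k) (f := B.Ψ) (f' := B.a)
    (g := fun x => W (B.G x)) B.Ψ_cont.continuousOn (fun z _ => B.Ψ_deriv z) (fun z _ => (B.a_pos z).le)
  have e := B.Ψ_per 0
  rw [zero_add, B.Ψ_zero, zero_add] at e
  rw [B.Ψ_zero, e] at this
  rw [← this]
  refine integral_congr fun z _ => ?_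
  simp [B.G_Ψ, mul_comm]

/-- change of variables along the expanding map -/
lemma cv (W : ℝ → ℝ) (hW : BM W) : ∫ x in (0 : ℝ)..1, W (B.G x)
    = ∫ z in (0 : ℝ)..1, ∑ j ∈ Finset.range B.k, B.a (z + j) * W (z + j) := by
  rw [B.cv0, sum_int _ (B.a_BM.mul hW)]

lemma mp {m : ℝ → ℝ} (hm : BM m) (hp : Function.Periodic m 1) :
    ∫ x in (0 : ℝ)..1, m (B.G x) = ∫ x in (0 : ℝ)..1, m x := by
  rw [B.cv m hm]
  refine integral_congr fun z _ => ?_
  have : ∀ j : ℕ, m (z + j) = m z := fun j => by simpa using hp.nat_mul j z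
  simp only [this, ← Finset.sum_mul, B.a_sum, one_mul]

lemma mp_iter {m : ℝ → ℝ} (hm : BM m) (hp : Function.Periodic m 1) (n : ℕ) :
    ∫ x in (0 : ℝ)..1, m (B.G^[n] x) = ∫ x in (0 : ℝ)..1, m x := by
  induction n with
  | zero => rfl
  | succ n ih =>
    rw [← ih]
    exact B.mp (m := fun x => m (B.G^[n] x)) (hm.comp (B.G_cont.iterate n).measurable)
      (B.per_comp_iter hp n)

/-- the transfer operator -/
noncomputable def L (ψ : ℝ → ℝ) (z : ℝ) : ℝ :=
  ∑ j ∈ Finset.range B.k, B.a (z + j) * ψ (B.Ψ (z + j))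

lemma L_per {ψ : ℝ → ℝ} (hp : Function.Periodic ψ 1) : Function.Periodic (B.L ψ) 1 := by
  intro z
  have h1 := Finset.sum_range_succ (fun j : ℕ => B.a (z + j) * ψ (B.Ψ (z + j))) B.k
  have h2 := Finset.sum_range_succ' (fun j : ℕ => B.a (z + j) * ψ (B.Ψ (z + j))) B.k
  rw [B.a_per, B.Ψ_per, hp] at h1
  simp only [Nat.cast_add, Nat.cast_one, Nat.cast_zero, add_zero] at h2
  unfold L
  have : ∀ j : ℕ, z + 1 + j = z + (j + 1) := fun j => by ring
  simp only [this]
  linarith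

lemma L_BM {ψ : ℝ → ℝ} (h : BM ψ) : BM (B.L ψ) :=
  BM.sum _ fun _ _ => (B.a_BM.comp (measurable_id.add_const _)).mul
    (h.comp (B.Ψ_cont.measurable.comp (measurable_id.add_const _)))

lemma dual {m ψ : ℝ → ℝ} (hm : BM m) (hp : Function.Periodic m 1) (hψ : BM ψ) :
    ∫ x in (0 : ℝ)..1, m (B.G x) * ψ x = ∫ z in (0 : ℝ)..1, m z * B.L ψ z := by
  have := B.cv (fun z => m z * ψ (B.Ψ z)) (hm.mul (hψ.comp B.Ψ_cont.measurable))
  simp only [B.Ψ_G] at this
  rw [this]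
  refine integral_congr fun z _ => ?_
  have e : ∀ j : ℕ, m (z + j) = m z := fun j => by simpa using hp.nat_mul j z
  simp only [e, L, Finset.mul_sum]
  exact Finset.sum_congr rfl fun j _ => by ring

lemma iter_BM {ψ : ℝ → ℝ} (h : BM ψ) (n : ℕ) : BM (B.L^[n] ψ) := by
  induction n with
  | zero => exact h
  | succ n ih => rw [Function.iterate_succ_apply']; exact B.L_BM ih

lemma dual_iter {m ψ : ℝ → ℝ} (hm : BM m) (hp : Function.Periodic m 1) (hψ : BM ψ) (n : ℕ) :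
    ∫ x in (0 : ℝ)..1, m (B.G^[n] x) * ψ x = ∫ z in (0 : ℝ)..1, m z * B.L^[n] ψ z := by
  induction n generalizing ψ with
  | zero => rfl
  | succ n ih =>
    rw [Function.iterate_succ_apply, ← ih (B.L_BM hψ)]
    exact B.dual (m := fun x => m (B.G^[n] x)) (hm.comp (B.G_cont.iterate n).measurable)
      (B.per_comp_iter hp n) hψ

lemma L_le {ψ : ℝ → ℝ} {M : ℝ} (h : ∀ x, ψ x ≤ M) (z : ℝ) : B.L ψ z ≤ M := by
  calc B.L ψ z ≤ ∑ j ∈ Finset.range B.k, B.a (z + j) * M :=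
        Finset.sum_le_sum fun j _ => mul_le_mul_of_nonneg_left (h _) (B.a_pos _).le
    _ = M := by rw [← Finset.sum_mul, B.a_sum, one_mul]

lemma L_ge {ψ : ℝ → ℝ} {M : ℝ} (h : ∀ x, M ≤ ψ x) (z : ℝ) : M ≤ B.L ψ z := by
  calc M = ∑ j ∈ Finset.range B.k, B.a (z + j) * M := by rw [← Finset.sum_mul, B.a_sum, one_mul]
    _ ≤ B.L ψ z := Finset.sum_le_sum fun j _ => mul_le_mul_of_nonneg_left (h _) (B.a_pos _).le

lemma iter_le {ψ : ℝ → ℝ} {M : ℝ} (h : ∀ x, ψ x ≤ M) (n : ℕ) : ∀ z, B.L^[n] ψ z ≤ M := by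
  induction n with
  | zero => exact h
  | succ n ih => rw [Function.iterate_succ_apply']; exact B.L_le ih

lemma iter_ge {ψ : ℝ → ℝ} {M : ℝ} (h : ∀ x, M ≤ ψ x) (n : ℕ) : ∀ z, M ≤ B.L^[n] ψ z := by
  induction n with
  | zero => exact h
  | succ n ih => rw [Function.iterate_succ_apply']; exact B.L_ge ih

lemma iter_per {ψ : ℝ → ℝ} (h : Function.Periodic ψ 1) (n : ℕ) : Function.Periodic (B.L^[n] ψ) 1 := by
  induction n with
  | zero => exact h
  | succ n ih => rw [Function.iterate_succ_apply']; exact B.L_per ih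

lemma a_bounds : ∃ lo hi : ℝ, 0 < lo ∧ hi < 1 ∧ ∀ z, lo ≤ B.a z ∧ B.a z ≤ hi := by
  obtain ⟨lo, hi, h⟩ := per_bdd B.a_cont B.kpos B.a_per
  exact ⟨_, _, B.a_pos lo, B.a_lt hi, h⟩

lemma a_lip : ∃ Λ : ℝ, 0 ≤ Λ ∧ ∀ x y, |B.a x - B.a y| ≤ Λ * |x - y| := by
  have hc : Continuous (deriv B.a) := B.a_smooth.continuous_deriv (by simp)
  have hp : Function.Periodic (deriv B.a) B.k := by
    intro z
    have : B.a = fun x => B.a (x + B.k) := funext fun x => (B.a_per x).symm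
    conv_rhs => rw [this]
    rw [deriv_comp_add_const]
  obtain ⟨-, C, hC⟩ := BM.of_per hc B.kpos hp
  refine ⟨C, (abs_nonneg _).trans (hC 0), fun x y => ?_⟩
  exact Convex.norm_image_sub_le_of_norm_deriv_le (s := univ)
    (fun z _ => B.a_smooth.differentiable (by simp) z) (fun z _ => hC z) convex_univ (mem_univ y) (mem_univ x)

lemma Ψ_lip {hi : ℝ} (h : ∀ z, B.a z ≤ hi) (x y : ℝ) : |B.Ψ x - B.Ψ y| ≤ hi * |x - y| :=
  Convex.norm_image_sub_le_of_norm_deriv_le (s := univ)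
    (fun z _ => (B.Ψ_deriv z).differentiableAt)
    (fun z _ => by rw [(B.Ψ_deriv z).deriv, Real.norm_eq_abs, abs_of_pos (B.a_pos z)]; exact h z)
    convex_univ (mem_univ y) (mem_univ x)

lemma L_lip {hi Λ C K : ℝ} (h : ∀ z, B.a z ≤ hi) (hΛ : ∀ x y, |B.a x - B.a y| ≤ Λ * |x - y|)
    {ψ : ℝ → ℝ} (hC : ∀ x, |ψ x| ≤ C) (hK0 : 0 ≤ K) (hK : ∀ x y, |ψ x - ψ y| ≤ K * |x - y|) (x y : ℝ) :
    |B.L ψ x - B.L ψ y| ≤ (B.k * Λ * C + hi * K) * |x - y| := by
  have e : B.L ψ x - B.L ψ y = ∑ j ∈ Finset.range B.k, ((B.a (x + j) - B.a (y + j)) * ψ (B.Ψ (x + j))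
      + B.a (y + j) * (ψ (B.Ψ (x + j)) - ψ (B.Ψ (y + j)))) := by
    unfold L
    rw [← Finset.sum_sub_distrib]
    exact Finset.sum_congr rfl fun j _ => by ring
  rw [e]
  refine (Finset.abs_sum_le_sum_abs _ _).trans ?_
  have : ∀ j ∈ Finset.range B.k, |(B.a (x + j) - B.a (y + j)) * ψ (B.Ψ (x + j))
      + B.a (y + j) * (ψ (B.Ψ (x + j)) - ψ (B.Ψ (y + j)))|
      ≤ Λ * |x - y| * C + B.a (y + j) * (K * (hi * |x - y|)) := by
    intro j _
    refine (abs_add_le _ _).trans (add_le_add ?_ ?_)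
    · rw [abs_mul]
      have := hΛ (x + j) (y + j)
      rw [add_sub_add_right_eq_sub] at this
      exact mul_le_mul this (hC _) (abs_nonneg _) ((abs_nonneg _).trans this)
    · rw [abs_mul, abs_of_pos (B.a_pos _)]
      refine mul_le_mul_of_nonneg_left ((hK _ _).trans (mul_le_mul_of_nonneg_left ?_ hK0)) (B.a_pos _).le
      have := B.Ψ_lip h (x + j) (y + j)
      rwa [add_sub_add_right_eq_sub] at this
  refine (Finset.sum_le_sum this).trans (le_of_eq ?_)
  rw [Finset.sum_add_distrib, ← Finset.sum_mul _ (fun j : ℕ => B.a (y + j)), B.a_sum]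
  simp
  ring

lemma step {lo hi : ℝ} (hhi : 0 < hi) (h : ∀ z, lo ≤ B.a z ∧ B.a z ≤ hi) {φ : ℝ → ℝ} {M η p d : ℝ}
    (hη : 0 ≤ η) (hM : ∀ x, φ x ≤ M) (hI : ∀ x ∈ Icc p (p + d), φ x ≤ M - η) :
    ∀ z ∈ Icc (B.G p) (B.G p + d / hi), B.L φ z ≤ M - lo * η := by
  intro z hz
  have h0 : B.Ψ z ∈ Icc p (p + d) := by
    constructor
    · have := B.Ψ_mono.monotone hz.1
      rwa [B.Ψ_G] at this
    · have := B.Ψ_lip (fun z => (h z).2) z (B.G p)
      rw [B.Ψ_G, abs_of_nonneg (sub_nonneg.mpr hz.1)] at this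
      have h2 : hi * (z - B.G p) ≤ d := by
        rw [mul_comm, ← le_div_iff₀ hhi]; linarith [hz.2]
      linarith [le_abs_self (B.Ψ z - p)]
  have hk : 0 ∈ Finset.range B.k := Finset.mem_range.mpr (by have := B.hk; omega)
  have : ∑ j ∈ Finset.range B.k, B.a (z + j) * (M - φ (B.Ψ (z + j))) = M - B.L φ z := by
    simp only [mul_sub, Finset.sum_sub_distrib, ← Finset.sum_mul, B.a_sum, one_mul, L]
  have h3 := Finset.single_le_sum (f := fun j : ℕ => B.a (z + j) * (M - φ (B.Ψ (z + j))))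
    (fun j _ => mul_nonneg (B.a_pos _).le (sub_nonneg.mpr (hM _))) hk
  simp only [Nat.cast_zero, add_zero] at h3
  have h4 : lo * η ≤ B.a z * (M - φ (B.Ψ z)) :=
    mul_le_mul (h z).1 (by linarith [hI _ h0]) hη (B.a_pos z).le
  linarith

lemma step_iter {lo hi : ℝ} (hlo : 0 < lo) (hhi : 0 < hi) (h : ∀ z, lo ≤ B.a z ∧ B.a z ≤ hi) {φ : ℝ → ℝ}
    {M η p d : ℝ} (hη : 0 ≤ η) (hM : ∀ x, φ x ≤ M) (hI : ∀ x ∈ Icc p (p + d), φ x ≤ M - η) (n : ℕ) :
    ∃ q, ∀ z ∈ Icc q (q + d / hi ^ n), B.L^[n] φ z ≤ M - lo ^ n * η := by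
  induction n with
  | zero => exact ⟨p, by simpa using hI⟩
  | succ n ih =>
    obtain ⟨q, hq⟩ := ih
    refine ⟨B.G q, ?_⟩
    have := B.step hhi h (by positivity) (B.iter_le hM n) hq
    rw [Function.iterate_succ_apply', pow_succ, pow_succ, ← div_div]
    intro z hz
    have := this z hz
    linarith [mul_comm lo (lo ^ n * η), mul_assoc (lo ^ n) lo η, mul_comm lo η, mul_assoc (lo ^ n) η lo]

/-- iterates of the transfer operator flatten Lipschitz periodic functions -/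
lemma flatten {ψ : ℝ → ℝ} (hp : Function.Periodic ψ 1) {C K : ℝ} (hC : ∀ x, |ψ x| ≤ C)
    (hK : ∀ x y, |ψ x - ψ y| ≤ K * |x - y|) {ε : ℝ} (hε : 0 < ε) :
    ∃ (n : ℕ) (c : ℝ), ∀ z, |B.L^[n] ψ z - c| ≤ ε := by
  obtain ⟨lo, hi, hlo, hhi, h⟩ := B.a_bounds
  obtain ⟨Λ, hΛ0, hΛ⟩ := B.a_lip
  have hhi0 : 0 < hi := lt_of_lt_of_le hlo ((h 0).1.trans (h 0).2)
  have hC0 : 0 ≤ C := (abs_nonneg _).trans (hC 0)
  have hkp := B.kpos
  obtain ⟨K', hK'0, hK1, hK2⟩ : ∃ K' : ℝ, 0 < K' ∧ K ≤ K' ∧ B.k * Λ * C + hi * K' ≤ K' := by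
    refine ⟨max (|K| + 1) (B.k * Λ * C / (1 - hi)), ?_, ?_, ?_⟩
    · exact lt_max_of_lt_left (by positivity)
    · exact le_max_of_le_left (by linarith [le_abs_self K])
    · have := le_max_right (|K| + 1) (B.k * Λ * C / (1 - hi))
      rw [div_le_iff₀ (by linarith)] at this
      linarith
  have hCn : ∀ n x, |B.L^[n] ψ x| ≤ C := fun n x =>
    abs_le.mpr ⟨B.iter_ge (fun x => (abs_le.mp (hC x)).1) n x, B.iter_le (fun x => (abs_le.mp (hC x)).2) n x⟩
  have hKn : ∀ n x y, |B.L^[n] ψ x - B.L^[n] ψ y| ≤ K' * |x - y| := by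
    intro n
    induction n with
    | zero => exact fun x y => (hK x y).trans (mul_le_mul_of_nonneg_right hK1 (abs_nonneg _))
    | succ n ih =>
      intro x y
      rw [Function.iterate_succ_apply']
      exact (B.L_lip (fun z => (h z).2) hΛ (hCn n) hK'0.le ih x y).trans
        (mul_le_mul_of_nonneg_right hK2 (abs_nonneg _))
  obtain ⟨N, hN⟩ := exists_pow_lt_of_lt_one (show 0 < ε / (2 * K') by positivity) hhi
  by_contra hcon
  push Not at hcon
  have key : ∀ t : ℕ, ∃ n : ℕ, ∀ z, B.L^[n] ψ z ≤ C - t * (lo ^ N * (ε / 2)) := by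
    intro t
    induction t with
    | zero => exact ⟨0, fun z => by simpa using (abs_le.mp (hC z)).2⟩
    | succ t ih =>
      obtain ⟨n, hn⟩ := ih
      set M := C - t * (lo ^ N * (ε / 2)) with hM
      obtain ⟨p, hp'⟩ := hcon n M
      have h1 : B.L^[n] ψ p ≤ M - ε := by
        have := hn p
        rw [abs_of_nonpos (by linarith)] at hp'
        linarith
      have h2 : ∀ x ∈ Icc p (p + ε / (2 * K')), B.L^[n] ψ x ≤ M - ε / 2 := by
        intro x hx
        have := hKn n x p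
        rw [abs_of_nonneg (sub_nonneg.mpr hx.1)] at this
        have h3 : K' * (x - p) ≤ K' * (ε / (2 * K')) :=
          mul_le_mul_of_nonneg_left (by linarith [hx.2]) hK'0.le
        have h4 : K' * (ε / (2 * K')) = ε / 2 := by field_simp
        linarith [le_abs_self (B.L^[n] ψ x - B.L^[n] ψ p)]
      obtain ⟨q, hq⟩ := B.step_iter hlo hhi0 h (by positivity) hn h2 N
      refine ⟨N + n, fun z => ?_⟩
      rw [Function.iterate_add_apply]
      obtain ⟨y, hy, e⟩ := (B.iter_per (B.iter_per hp n) N).exists_mem_Ico one_pos z q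
      rw [e]
      have h5 : 1 ≤ ε / (2 * K') / hi ^ N := by
        rw [le_div_iff₀ (by positivity)]; linarith
      have := hq y ⟨hy.1, by linarith [hy.2]⟩
      push_cast
      linarith
  have hδ : 0 < lo ^ N * (ε / 2) := by positivity
  obtain ⟨t, ht⟩ := exists_nat_gt (2 * C / (lo ^ N * (ε / 2)))
  obtain ⟨n, hn⟩ := key t
  rw [div_lt_iff₀ hδ] at ht
  have := (abs_le.mp (hCn n 0)).1
  linarith [hn 0]

lemma test_lip {m : ℝ → ℝ} {c D : ℝ} {mn : ℕ → ℝ → ℝ} (h1 : ∀ n, Measurable (mn n))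
    (h2 : ∀ n x, |mn n x| ≤ D) (h3 : ∀ n, Function.Periodic (mn n) 1)
    (h4 : ∀ n, ∫ x in (0 : ℝ)..1, mn n x = c)
    (h5 : ∀ n, ∀ᵐ x, x ∈ Ioc (0 : ℝ) 1 → m x = mn n (B.G^[n] x))
    {ψ : ℝ → ℝ} (hm : Measurable ψ) (hp : Function.Periodic ψ 1) {C K : ℝ} (hC : ∀ x, |ψ x| ≤ C)
    (hK : ∀ x y, |ψ x - ψ y| ≤ K * |x - y|) :
    ∫ x in (0 : ℝ)..1, m x * ψ x = c * ∫ x in (0 : ℝ)..1, ψ x := by
  have hψ : BM ψ := ⟨hm, C, hC⟩
  have hD : 0 ≤ D := (abs_nonneg _).trans (h2 0 0)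
  rw [← sub_eq_zero, ← abs_nonpos_iff]
  apply le_of_forall_pos_le_add
  intro ε hε
  obtain ⟨n, c0, hn⟩ := B.flatten hp hC hK (show 0 < ε / (D + |c| + 1) by positivity)
  have hmn : BM (mn n) := ⟨h1 n, D, h2 n⟩
  have e1 : ∫ x in (0 : ℝ)..1, m x * ψ x = ∫ z in (0 : ℝ)..1, mn n z * B.L^[n] ψ z := by
    rw [← B.dual_iter hmn (h3 n) hψ n]
    refine integral_congr_ae ?_
    filter_upwards [h5 n] with x hx hx'
    rw [uIoc_of_le zero_le_one] at hx'
    rw [hx hx']
  have e2 : ∫ x in (0 : ℝ)..1, ψ x = ∫ z in (0 : ℝ)..1, B.L^[n] ψ z := by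
    have := B.dual_iter (BM.const 1) (fun _ => rfl) hψ n
    simpa using this
  have hL := B.iter_BM hψ n
  have e3 : ∫ z in (0 : ℝ)..1, (mn n z - c) * (B.L^[n] ψ z - c0)
      = (∫ z in (0 : ℝ)..1, mn n z * B.L^[n] ψ z) - c * ∫ z in (0 : ℝ)..1, B.L^[n] ψ z := by
    have : ∀ z, (mn n z - c) * (B.L^[n] ψ z - c0)
        = mn n z * B.L^[n] ψ z - c * B.L^[n] ψ z - (c0 * mn n z - c0 * c) := fun z => by ring
    simp only [this]
    rw [integral_sub (((hmn.mul hL).sub ((BM.const c).mul hL)).ii _ _)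
      ((((BM.const c0).mul hmn).sub (BM.const _)).ii _ _),
      integral_sub ((hmn.mul hL).ii _ _) (((BM.const c).mul hL).ii _ _),
      integral_sub (((BM.const c0).mul hmn).ii _ _) ((BM.const _).ii _ _),
      intervalIntegral.integral_const_mul, intervalIntegral.integral_const_mul, h4]
    simp
  rw [e1, e2, ← e3, zero_add]
  have := norm_integral_le_of_norm_le_const (a := 0) (b := 1) (C := ε)
    (f := fun z => (mn n z - c) * (B.L^[n] ψ z - c0)) (fun z _ => by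
      rw [Real.norm_eq_abs, abs_mul]
      have a1 : |mn n z - c| ≤ D + |c| + 1 := by linarith [abs_sub (mn n z) c, h2 n z]
      calc _ ≤ (D + |c| + 1) * (ε / (D + |c| + 1)) :=
            mul_le_mul a1 (hn z) (abs_nonneg _) (by positivity)
        _ = ε := by field_simp)
  simpa using this

lemma ae_const {m : ℝ → ℝ} (hm : BM m) {c D : ℝ} {mn : ℕ → ℝ → ℝ} (h1 : ∀ n, Measurable (mn n))
    (h2 : ∀ n x, |mn n x| ≤ D) (h3 : ∀ n, Function.Periodic (mn n) 1)
    (h4 : ∀ n, ∫ x in (0 : ℝ)..1, mn n x = c)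
    (h5 : ∀ n, ∀ᵐ x, x ∈ Ioc (0 : ℝ) 1 → m x = mn n (B.G^[n] x)) :
    ∀ᵐ x, x ∈ Ioo (0 : ℝ) 1 → m x = c := by
  have hf : BM fun x => m x - c := hm.sub (BM.const c)
  have key := (isOpen_Ioo (a := (0 : ℝ)) (b := 1)).ae_eq_zero_of_integral_contDiff_smul_eq_zero
    (μ := volume) (f := fun x => m x - c) ?_ ?_
  · filter_upwards [key] with x hx hx'
    exact sub_eq_zero.mp (hx hx')
  · exact ((hf.ii 0 1).1.mono_set Ioo_subset_Ioc_self).locallyIntegrableOn
  · intro g hg hc hs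
    obtain ⟨K, hK⟩ := hg.lipschitzWith_of_hasCompactSupport hc (by simp)
    obtain ⟨C, hC⟩ := hg.continuous.bounded_above_of_compact_support hc
    have g0 : ∀ x, x ∉ Ioo (0 : ℝ) 1 → g x = 0 := fun x hx =>
      image_eq_zero_of_notMem_tsupport fun h => hx (hs h)
    have hK' : ∀ x y, |g x - g y| ≤ K * |x - y| := fun x y => by
      simpa [Real.dist_eq] using hK.dist_le_mul x y
    have lip1 : ∀ x y, x ≤ y → |g (Int.fract x) - g (Int.fract y)| ≤ K * |x - y| := by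
      intro x y hxy
      rcases (Int.floor_le_floor hxy).eq_or_lt with h | h
      · have := hK' (Int.fract x) (Int.fract y)
        rwa [show Int.fract x - Int.fract y = x - y by unfold Int.fract; rw [h]; ring] at this
      · have a1 := hK' (Int.fract x) 1
        have a2 := hK' 0 (Int.fract y)
        rw [g0 1 (by simp), abs_of_nonpos (by linarith [Int.fract_lt_one x] : Int.fract x - 1 ≤ 0)] at a1
        rw [g0 0 (by simp), abs_of_nonpos (by linarith [Int.fract_nonneg y] : 0 - Int.fract y ≤ 0)] at a2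
        have a3 : ((⌊x⌋ : ℝ) + 1) ≤ ⌊y⌋ := by exact_mod_cast h
        have a4 : -(Int.fract x - 1) + -(0 - Int.fract y) ≤ |x - y| := by
          rw [abs_of_nonpos (by linarith)]
          unfold Int.fract
          linarith
        have a5 := mul_le_mul_of_nonneg_left a4 K.coe_nonneg
        have a6 := abs_sub_le (g (Int.fract x)) 0 (g (Int.fract y))
        linarith
    have lip : ∀ x y, |g (Int.fract x) - g (Int.fract y)| ≤ K * |x - y| := by
      intro x y
      rcases le_total x y with h | h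
      · exact lip1 x y h
      · rw [abs_sub_comm, abs_sub_comm x]; exact lip1 y x h
    have hme : Measurable fun x : ℝ => g (Int.fract x) := hg.continuous.measurable.comp measurable_fract
    have hψ : BM fun x : ℝ => g (Int.fract x) := ⟨hme, C, fun x => hC _⟩
    have t := B.test_lip h1 h2 h3 h4 h5 hme (fun x => by simp) (fun x => hC _) lip
    rw [← integral_eq_integral_of_support_subset (a := 0) (b := 1)]
    · have : ∫ x in (0 : ℝ)..1, g x • (m x - c)
          = ∫ x in (0 : ℝ)..1, (m x * g (Int.fract x) - c * g (Int.fract x)) := by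
        refine integral_congr fun x hx => ?_
        rw [uIcc_of_le zero_le_one] at hx
        rcases hx.2.eq_or_lt with h | h
        · simp [h, g0 1 (by simp), g0 0 (by simp)]
        · simp only [Int.fract_eq_self.mpr ⟨hx.1, h⟩, smul_eq_mul]; ring
      rw [this, integral_sub ((hm.mul hψ).ii _ _) (((BM.const c).mul hψ).ii _ _), t, intervalIntegral.integral_const_mul,
        sub_self]
    · intro x hx
      by_contra h
      apply hx
      simp [g0 x fun h' => h (Ioo_subset_Ioc_self h')]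

lemma exists_of_ae {P : ℝ → Prop} (h : ∀ᵐ x, x ∈ Ioo (0 : ℝ) 1 → P x) : ∃ x, P x := by
  by_contra hc
  push Not at hc
  have : volume (Ioo (0 : ℝ) 1) = 0 := by
    rw [ae_iff] at h
    refine measure_mono_null (fun x hx => ?_) h
    exact fun h' => hc x (h' hx)
  simp at this

/-- exactness of the base in product form -/
lemma prod_key {Y : Type*} (T : Y → Y) (u : ℝ → Y → ℝ) (hm : ∀ y, Measurable fun x => u x y)
    (h01 : ∀ x y, u x y = 0 ∨ u x y = 1) (hp : ∀ x y, u (x + 1) y = u x y)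
    (hinv : ∀ x y, u (B.G x) (T y) = u x y) (y : Y) :
    (∫ x in (0 : ℝ)..1, u x (T y) = ∫ x in (0 : ℝ)..1, u x y) ∧
      (∫ x in (0 : ℝ)..1, u x y = 0 ∨ ∫ x in (0 : ℝ)..1, u x y = 1) := by
  have hb : ∀ x y, |u x y| ≤ 1 := fun x y => by rcases h01 x y with h | h <;> simp [h]
  have hBM : ∀ y, BM fun x => u x y := fun y => ⟨hm y, 1, fun x => hb x y⟩
  have e : ∀ y, ∫ x in (0 : ℝ)..1, u x (T y) = ∫ x in (0 : ℝ)..1, u x y := fun y => by
    rw [← B.mp (hBM (T y)) fun x => hp x _]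
    simp only [hinv]
  refine ⟨e y, ?_⟩
  have e2 : ∀ n : ℕ, ∫ x in (0 : ℝ)..1, u x (T^[n] y) = ∫ x in (0 : ℝ)..1, u x y := by
    intro n
    induction n with
    | zero => rfl
    | succ n ih => rw [Function.iterate_succ_apply', e, ih]
  have e3 : ∀ (n : ℕ) x, u x y = u (B.G^[n] x) (T^[n] y) := by
    intro n x
    induction n with
    | zero => rfl
    | succ n ih => rw [Function.iterate_succ_apply', Function.iterate_succ_apply', hinv, ih]
  obtain ⟨x, hx⟩ := exists_of_ae (B.ae_const (hBM y) (mn := fun n x => u x (T^[n] y)) (fun n => hm _)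
    (fun n x => hb _ _) (fun n x => hp x _) e2 fun n => Eventually.of_forall fun x _ => e3 n x)
  rw [← hx]
  exact h01 x y

/-- a bounded fixed point of the transfer operator is constant -/
lemma fixed_const {m : ℝ → ℝ} (hm : BM m) (hp : Function.Periodic m 1) (hL : ∀ z, B.L m z = m z) :
    ∀ᵐ x, x ∈ Ioo (0 : ℝ) 1 → m x = ∫ x in (0 : ℝ)..1, m x := by
  have hG : BM fun x => m (B.G x) := hm.comp B.G_cont.measurable
  have hW : BM fun x => (m (B.G x) - m x) * (m (B.G x) - m x) := (hG.sub hm).mul (hG.sub hm)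
  have hWp : Function.Periodic (fun x => (m (B.G x) - m x) * (m (B.G x) - m x)) 1 := by
    intro x
    have := B.per_comp_G hp x
    simp only at this ⊢
    rw [this, hp x]
  have e0 : ∫ x in (0 : ℝ)..1, (m (B.G x) - m x) * (m (B.G x) - m x) = 0 := by
    have : ∀ x, (m (B.G x) - m x) * (m (B.G x) - m x)
        = m (B.G x) * m (B.G x) - 2 * (m (B.G x) * m x) + m x * m x := fun x => by ring
    simp only [this]
    rw [integral_add (((hG.mul hG).sub ((BM.const 2).mul (hG.mul hm))).ii _ _) ((hm.mul hm).ii _ _),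
      integral_sub ((hG.mul hG).ii _ _) (((BM.const 2).mul (hG.mul hm)).ii _ _), intervalIntegral.integral_const_mul,
      B.dual hm hp hm, B.mp (m := fun x => m x * m x) (hm.mul hm) (fun x => by simp only [hp x])]
    simp only [hL]
    ring
  have e1 : ∀ n : ℕ, ∀ᵐ x, x ∈ Ioc (0 : ℝ) 1 → m (B.G^[n + 1] x) = m (B.G^[n] x) := by
    intro n
    have a := B.mp_iter hW hWp n
    rw [e0, integral_eq_zero_iff_of_le_of_nonneg_ae zero_le_one
      (Eventually.of_forall fun x => mul_self_nonneg _)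
      ((hW.comp (B.G_cont.iterate n).measurable).ii _ _)] at a
    rw [EventuallyEq, ae_restrict_iff' measurableSet_Ioc] at a
    filter_upwards [a] with x hx hx'
    rw [Function.iterate_succ_apply']
    exact sub_eq_zero.mp (mul_self_eq_zero.mp (hx hx'))
  obtain ⟨hme, D, hD⟩ := hm
  refine B.ae_const ⟨hme, D, hD⟩ (mn := fun _ => m) (fun _ => hme) (fun _ => hD) (fun _ => hp)
    (fun _ => rfl) ?_
  intro n
  induction n with
  | zero => exact Eventually.of_forall fun x _ => rfl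
  | succ n ih =>
    filter_upwards [ih, e1 n] with x a b hx
    rw [b hx, a hx]

end Base

end Pool.Agent.H472Z.Flex
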