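import Mathlib

set_option autoImplicit false

namespace Pool.Agent.H472Z.Flex

open Set Filter Topology Real
open scoped ContDiff

lemma lin_bd {S : ℕ → ℝ} {a : ℝ} (h : Tendsto (fun n : ℕ => (n : ℝ)⁻¹ * S n) atTop (𝓝 a)) {ε : ℝ}
    (hε : 0 < ε) : ∃ K : ℝ, 0 ≤ K ∧ ∀ n : ℕ, |S n - n * a| ≤ ε * n + K := by
  obtain ⟨N, hN⟩ := (Metric.tendsto_atTop.mp h) ε hε
  refine ⟨∑ n ∈ Finset.range (N + 1), |S n - n * a|, Finset.sum_nonneg fun _ _ => abs_nonneg _, fun n => ?_⟩
  have h0 : 0 ≤ ∑ n ∈ Finset.range (N + 1), |S n - n * a| := Finset.sum_nonneg fun _ _ => abs_nonneg _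
  rcases le_or_gt n N with hn | hn
  · have := Finset.single_le_sum (f := fun n : ℕ => |S n - n * a|) (fun _ _ => abs_nonneg _)
      (Finset.mem_range.mpr (Nat.lt_succ_of_le hn))
    have : 0 ≤ ε * n := by positivity
    linarith
  · have h1 := hN n hn.le
    have hn0 : (0 : ℝ) < n := by exact_mod_cast (by omega : 0 < n)
    rw [Real.dist_eq] at h1
    have e : S n - n * a = n * ((n : ℝ)⁻¹ * S n - a) := by field_simp
    rw [e, abs_mul, abs_of_pos hn0]
    nlinarith

lemma tendsto_of_lin {S : ℕ → ℝ} {a : ℝ}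
    (h : ∀ ε : ℝ, 0 < ε → ∃ K : ℝ, ∀ n : ℕ, |S n - n * a| ≤ ε * n + K) :
    Tendsto (fun n : ℕ => (1 / (n : ℝ)) * S n) atTop (𝓝 a) := by
  rw [Metric.tendsto_atTop]
  intro ε hε
  obtain ⟨K, hK⟩ := h (ε / 2) (half_pos hε)
  obtain ⟨N, hN⟩ := exists_nat_gt (|K| / (ε / 2))
  refine ⟨N + 1, fun n hn => ?_⟩
  have hn0 : (0 : ℝ) < n := by exact_mod_cast (by omega : 0 < n)
  have hn1 : (N : ℝ) < n := by exact_mod_cast (by omega : N < n)
  rw [div_lt_iff₀ (half_pos hε)] at hN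
  have e : 1 / (n : ℝ) * S n - a = (S n - n * a) / n := by field_simp
  rw [Real.dist_eq, e, abs_div, abs_of_pos hn0, div_lt_iff₀ hn0]
  have := hK n
  have := le_abs_self K
  nlinarith

/-- growth of a triangular cocycle -/
lemma cocycle {α γ β A Bn C N : ℕ → ℝ} {M a c : ℝ} (hγ : ∀ n, 0 < γ n)
    (hβ : ∀ n, |β n| ≤ M) (hA : ∀ n, A n = exp (∑ k ∈ Finset.range n, log (α k)))
    (hC : ∀ n, C n = exp (∑ k ∈ Finset.range n, log (γ k))) (hB0 : Bn 0 = 0)
    (hB : ∀ n, Bn (n + 1) = β n * A n + γ n * Bn n)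
    (hN1 : ∀ n, A n ≤ N n) (hN2 : ∀ n, C n ≤ N n) (hN3 : ∀ n, N n ≤ A n + |Bn n| + C n)
    (ha : Tendsto (fun n : ℕ => (n : ℝ)⁻¹ * ∑ k ∈ Finset.range n, log (α k)) atTop (𝓝 a))
    (hc : Tendsto (fun n : ℕ => (n : ℝ)⁻¹ * ∑ k ∈ Finset.range n, log (γ k)) atTop (𝓝 c)) :
    Tendsto (fun n : ℕ => (1 / (n : ℝ)) * log (N n)) atTop (𝓝 (max a c)) := by
  have hM : 0 ≤ M := (abs_nonneg _).trans (hβ 0)
  have hA0 : ∀ n, 0 < A n := fun n => by rw [hA]; exact exp_pos _
  have hC0 : ∀ n, 0 < C n := fun n => by rw [hC]; exact exp_pos _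
  have hCs : ∀ n, C (n + 1) = γ n * C n := fun n => by
    rw [hC, hC, Finset.sum_range_succ, exp_add, exp_log (hγ n), mul_comm]
  have hBb : ∀ n, |Bn n| ≤ ∑ k ∈ Finset.range n, M * (A k * C n / C (k + 1)) := by
    intro n
    induction n with
    | zero => simp [hB0]
    | succ n ih =>
      rw [hB, Finset.sum_range_succ, mul_div_assoc, div_self (hC0 _).ne', mul_one, add_comm]
      refine (abs_add_le _ _).trans (add_le_add ?_ ?_)
      · rw [abs_mul, abs_of_pos (hγ n)]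
        refine (mul_le_mul_of_nonneg_left ih (hγ n).le).trans (le_of_eq ?_)
        rw [Finset.mul_sum]
        refine Finset.sum_congr rfl fun k _ => ?_
        rw [hCs n]; ring
      · rw [abs_mul, abs_of_pos (hA0 n)]
        exact mul_le_mul_of_nonneg_right (hβ n) (hA0 n).le
  apply tendsto_of_lin
  intro ε hε
  have hε' : 0 < ε / 4 := by positivity
  obtain ⟨K1, hK10, hK1⟩ := lin_bd ha hε'
  obtain ⟨K2, hK20, hK2⟩ := lin_bd hc hε'
  set μ := max a c with hμ
  have m1 : a ≤ μ := le_max_left _ _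
  have m2 : c ≤ μ := le_max_right _ _
  set δ := ε / 4 with hδ
  refine ⟨K1 + 2 * K2 + |μ| + log (2 + M / δ), fun n => ?_⟩
  have hn : (0 : ℝ) ≤ n := n.cast_nonneg
  have hlog : 0 ≤ log (2 + M / δ) := log_nonneg (by have : 0 ≤ M / δ := by positivity
                                                    linarith)
  have hNpos : 0 < N n := (hA0 n).trans_le (hN1 n)
  have hμ0 := abs_nonneg μ
  have hδn : 0 ≤ δ * n := by positivity
  have hεn : ε * n = 4 * (δ * n) := by rw [hδ]; ring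
  rw [abs_le]
  constructor
  · have l1 : ∑ k ∈ Finset.range n, log (α k) ≤ log (N n) := by
      rw [le_log_iff_exp_le hNpos, ← hA]; exact hN1 n
    have l2 : ∑ k ∈ Finset.range n, log (γ k) ≤ log (N n) := by
      rw [le_log_iff_exp_le hNpos, ← hC]; exact hN2 n
    have a1 := (abs_le.mp (hK1 n)).1
    have a2 := (abs_le.mp (hK2 n)).1
    rcases max_cases a c with h | h
    · have : n * μ = n * a := by rw [hμ, h.1]
      linarith
    · have : n * μ = n * c := by rw [hμ, h.1]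
      linarith
  · set X := n * μ + 3 * δ * n + (K1 + 2 * K2 + |μ|) with hX
    have b1 : A n ≤ exp X := by
      rw [hA, exp_le_exp]
      have := (abs_le.mp (hK1 n)).2
      have := mul_le_mul_of_nonneg_left m1 hn
      linarith
    have b2 : C n ≤ exp X := by
      rw [hC, exp_le_exp]
      have := (abs_le.mp (hK2 n)).2
      have := mul_le_mul_of_nonneg_left m2 hn
      linarith
    have b3 : |Bn n| ≤ n * (M * exp X) := by
      refine (hBb n).trans ?_
      have : ∀ k ∈ Finset.range n, M * (A k * C n / C (k + 1)) ≤ M * exp X := by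
        intro k hk
        refine mul_le_mul_of_nonneg_left ?_ hM
        rw [hA, hC, hC, ← exp_add, ← exp_sub, exp_le_exp]
        have c1 := (abs_le.mp (hK1 k)).2
        have c2 := (abs_le.mp (hK2 n)).2
        have c3 := (abs_le.mp (hK2 (k + 1))).1
        have hk' : (k : ℝ) + 1 ≤ n := by exact_mod_cast Finset.mem_range.mp hk
        have hk0 : (0 : ℝ) ≤ k := k.cast_nonneg
        push_cast at c3
        have c4 := mul_le_mul_of_nonneg_left m1 hk0
        have c5 := mul_le_mul_of_nonneg_left m2 (show 0 ≤ n - (k + 1 : ℝ) by linarith)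
        have c6 := mul_le_mul_of_nonneg_left hk' hε'.le
        have c7 := neg_abs_le μ
        nlinarith
      simpa using Finset.sum_le_card_nsmul _ _ _ this
    have b4 : 2 + n * M ≤ (2 + M / δ) * exp (δ * n) := by
      have := add_one_le_exp (δ * n)
      have e : n * M = M / δ * (δ * n) := by field_simp
      have : 0 ≤ M / δ := by positivity
      nlinarith
    have b5 : N n ≤ exp (X + δ * n + log (2 + M / δ)) := by
      rw [exp_add, exp_add, exp_log (by positivity)]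
      have := mul_le_mul_of_nonneg_right b4 (exp_pos X).le
      nlinarith [hN3 n]
    rw [← log_le_iff_le_exp hNpos] at b5
    linarith

/-- the lift on the plane -/
def lift2 (G : ℝ → ℝ) (h : ℝ × ℝ → ℝ) (v : Fin 2 → ℝ) : Fin 2 → ℝ := ![G (v 0), h (v 0, v 1)]

lemma lift2_smooth {G : ℝ → ℝ} {h : ℝ × ℝ → ℝ} (hG : ContDiff ℝ ∞ G) (hh : ContDiff ℝ ∞ h) :
    ContDiff ℝ ∞ (lift2 G h) := by
  rw [contDiff_pi]
  intro i
  fin_cases i
  · exact hG.comp (contDiff_apply ℝ ℝ 0)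
  · exact hh.comp ((contDiff_apply ℝ ℝ 0).prodMk (contDiff_apply ℝ ℝ 1))

lemma lift2_fderiv {G : ℝ → ℝ} {h : ℝ × ℝ → ℝ} (hG : ContDiff ℝ ∞ G) (hh : ContDiff ℝ ∞ h)
    (v w : Fin 2 → ℝ) : fderiv ℝ (lift2 G h) v w 0 = deriv G (v 0) * w 0 ∧
      fderiv ℝ (lift2 G h) v w 1
        = fderiv ℝ h (v 0, v 1) (1, 0) * w 0 + fderiv ℝ h (v 0, v 1) (0, 1) * w 1 := by
  have hF := ((lift2_smooth hG hh).differentiable (by simp) v).hasFDerivAt
  rw [hasFDerivAt_pi'] at hF
  have p0 : HasFDerivAt (fun v : Fin 2 → ℝ => v 0) (ContinuousLinearMap.proj (R := ℝ) 0) v :=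
    hasFDerivAt_apply 0 v
  have p1 : HasFDerivAt (fun v : Fin 2 → ℝ => v 1) (ContinuousLinearMap.proj (R := ℝ) 1) v :=
    hasFDerivAt_apply 1 v
  have d0 := (hG.differentiable (by simp) (v 0)).hasDerivAt.comp_hasFDerivAt v p0
  have d1 := (hh.differentiable (by simp) (v 0, v 1)).hasFDerivAt.comp v (p0.prodMk p1)
  constructor
  · have := DFunLike.congr_fun ((hF 0).unique d0) w
    simpa using this
  · have := DFunLike.congr_fun ((hF 1).unique d1) w
    have e : ((w 0, w 1) : ℝ × ℝ) = w 0 • ((1 : ℝ), (0 : ℝ)) + w 1 • ((0 : ℝ), (1 : ℝ)) := by simp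
    simp only [ContinuousLinearMap.comp_apply, ContinuousLinearMap.proj_apply,
      ContinuousLinearMap.prod_apply] at this
    rw [this, e, map_add, map_smul, map_smul, smul_eq_mul, smul_eq_mul, mul_comm (w 0), mul_comm (w 1)]

/-- exponents along one orbit -/
lemma orbit_exp {F : (Fin 2 → ℝ) → (Fin 2 → ℝ)} (hF : Differentiable ℝ F) {α β γ : (Fin 2 → ℝ) → ℝ}
    (hD : ∀ v w, fderiv ℝ F v w 0 = α v * w 0 ∧ fderiv ℝ F v w 1 = β v * w 0 + γ v * w 1)
    (hα : ∀ v, 0 < α v) (hγ : ∀ v, 0 < γ v) {M : ℝ} (hβ : ∀ v, |β v| ≤ M) (v : Fin 2 → ℝ) {a σ : ℝ}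
    (ha : Tendsto (fun n : ℕ => (n : ℝ)⁻¹ * ∑ k ∈ Finset.range n, log (α (F^[k] v))) atTop (𝓝 a))
    (hσ : Tendsto (fun n : ℕ => (n : ℝ)⁻¹ * ∑ k ∈ Finset.range n, log (α (F^[k] v) * γ (F^[k] v)))
      atTop (𝓝 σ)) :
    Tendsto (fun n : ℕ => (1 / (n : ℝ)) * log ‖fderiv ℝ (F^[n]) v‖) atTop (𝓝 (max a (σ - a))) ∧
      Tendsto (fun n : ℕ => (1 / (n : ℝ)) * log |(fderiv ℝ (F^[n]) v).det|) atTop (𝓝 σ) := by
  let A : ℕ → ℝ := fun n => exp (∑ k ∈ Finset.range n, log (α (F^[k] v)))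
  let C : ℕ → ℝ := fun n => exp (∑ k ∈ Finset.range n, log (γ (F^[k] v)))
  let Bn : ℕ → ℝ := fun n => fderiv ℝ (F^[n]) v ![1, 0] 1
  have hs : ∀ n w, fderiv ℝ (F^[n + 1]) v w = fderiv ℝ F (F^[n] v) (fderiv ℝ (F^[n]) v w) := by
    intro n w
    rw [Function.iterate_succ', fderiv_comp v (hF _) (hF.iterate n v)]
    rfl
  have key : ∀ n, ∃ b : ℝ, ∀ w, fderiv ℝ (F^[n]) v w 0 = A n * w 0 ∧
      fderiv ℝ (F^[n]) v w 1 = b * w 0 + C n * w 1 := by
    intro n
    induction n with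
    | zero => exact ⟨0, fun w => by simp [A, C]⟩
    | succ n ih =>
      obtain ⟨b, hb⟩ := ih
      refine ⟨β (F^[n] v) * A n + γ (F^[n] v) * b, fun w => ?_⟩
      rw [hs, (hD _ _).1, (hD _ _).2, (hb w).1, (hb w).2]
      simp only [A, C, Finset.sum_range_succ, exp_add, exp_log (hα _), exp_log (hγ _)]
      constructor <;> ring
  have key2 : ∀ n w, fderiv ℝ (F^[n]) v w 0 = A n * w 0 ∧
      fderiv ℝ (F^[n]) v w 1 = Bn n * w 0 + C n * w 1 := by
    intro n w
    obtain ⟨b, hb⟩ := key n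
    have : Bn n = b := by simp [Bn, (hb _).2]
    rw [this]
    exact hb w
  have hA0 : ∀ n, 0 < A n := fun n => exp_pos _
  have hC0 : ∀ n, 0 < C n := fun n => exp_pos _
  have hc : Tendsto (fun n : ℕ => (n : ℝ)⁻¹ * ∑ k ∈ Finset.range n, log (γ (F^[k] v))) atTop
      (𝓝 (σ - a)) := by
    refine (hσ.sub ha).congr fun n => ?_
    simp only [log_mul (hα _).ne' (hγ _).ne', Finset.sum_add_distrib]
    ring
  have low : ∀ n (i : Fin 2), |fderiv ℝ (F^[n]) v (Pi.single i 1) i| ≤ ‖fderiv ℝ (F^[n]) v‖ := by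
    intro n i
    have a := (fderiv ℝ (F^[n]) v).le_opNorm (Pi.single i 1)
    rw [Pi.norm_single, norm_one, mul_one] at a
    exact (norm_le_pi_norm _ i).trans a
  constructor
  · refine cocycle (α := fun k => α (F^[k] v)) (γ := fun k => γ (F^[k] v)) (β := fun k => β (F^[k] v))
      (A := A) (Bn := Bn) (C := C) (fun _ => hγ _) (fun _ => hβ _) (fun _ => rfl)
      (fun _ => rfl) (by simp [Bn]) ?_ ?_ ?_ ?_ ha hc
    · intro n
      simp only [Bn]
      rw [hs, (hD _ _).2, (key2 n _).1]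
      simp
    · intro n
      have := low n 0
      rw [(key2 n _).1] at this
      simpa [abs_of_pos (hA0 n)] using this
    · intro n
      have := low n 1
      rw [(key2 n _).2] at this
      simpa [abs_of_pos (hC0 n)] using this
    · intro n
      have a := hA0 n
      have b := hC0 n
      have c := abs_nonneg (Bn n)
      refine ContinuousLinearMap.opNorm_le_bound _ (by positivity) fun w => ?_
      have w0 : |w 0| ≤ ‖w‖ := norm_le_pi_norm w 0
      have w1 : |w 1| ≤ ‖w‖ := norm_le_pi_norm w 1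
      have hw := norm_nonneg w
      rw [pi_norm_le_iff_of_nonneg (by positivity), Fin.forall_fin_two, (key2 n w).1, (key2 n w).2,
        Real.norm_eq_abs, Real.norm_eq_abs, abs_mul, abs_of_pos a]
      constructor
      · nlinarith
      · refine (abs_add_le _ _).trans ?_
        rw [abs_mul, abs_mul, abs_of_pos b]
        nlinarith
  · refine hσ.congr fun n => ?_
    have : (fderiv ℝ (F^[n]) v).det = A n * C n := by
      rw [ContinuousLinearMap.det, ← LinearMap.det_toMatrix', Matrix.det_fin_two]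
      simp [LinearMap.toMatrix'_apply, (key2 n _).1, (key2 n _).2]
    rw [this, abs_of_pos (mul_pos (hA0 n) (hC0 n)), ← exp_add, log_exp, one_div]
    simp only [log_mul (hα _).ne' (hγ _).ne', Finset.sum_add_distrib]

end Pool.Agent.H472Z.Flex
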