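import Pool.Agent.H472Z.FlexPois
import Pool.Agent.H472Z.FlexCoc
import Pool.Agent.H472Z.FlexBirk

set_option autoImplicit false

namespace Pool.Agent.H472Z.Flex

open Set Filter Topology MeasureTheory intervalIntegral Real
open scoped ContDiff

/-- a measurable section of the projection to the circle -/
noncomputable def rep (t : UnitAddCircle) : ℝ := (AddCircle.measurableEquivIoc 1 0 t : ℝ)

lemma rep_meas : Measurable rep :=
  measurable_subtype_coe.comp (AddCircle.measurableEquivIoc 1 0).measurable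

lemma coe_rep (t : UnitAddCircle) : ((rep t : ℝ) : UnitAddCircle) = t := AddCircle.coe_equivIoc

lemma coe_add_int (x : ℝ) (n : ℤ) : ((x + n : ℝ) : UnitAddCircle) = x := by
  rw [AddCircle.coe_add, (AddCircle.coe_eq_zero_iff 1 (x := (n : ℝ))).mpr ⟨n, by simp⟩, add_zero]

lemma coe_add_one (x : ℝ) : ((x + 1 : ℝ) : UnitAddCircle) = x := by simp

lemma rep_coe (x : ℝ) : ∃ n : ℤ, rep x = x + n := by
  have : ((rep x - x : ℝ) : UnitAddCircle) = 0 := by rw [AddCircle.coe_sub, coe_rep, sub_self]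
  obtain ⟨n, hn⟩ := (AddCircle.coe_eq_zero_iff 1).mp this
  exact ⟨n, by rw [zsmul_eq_mul, mul_one] at hn; linarith⟩

lemma add_int {g : ℝ → ℝ} {c : ℝ} (h : ∀ x, g (x + 1) = g x + c) (x : ℝ) (n : ℤ) :
    g (x + n) = g x + n * c := by
  have : Function.Periodic (fun x => g x - x * c) 1 := fun x => by simp only [h]; ring
  have := this.int_mul n x
  simp only [mul_one] at this
  linarith

lemma per_rep {α : Type*} {g : ℝ → α} (h : ∀ x, g (x + 1) = g x) (x : ℝ) : g (rep x) = g x := by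
  obtain ⟨n, hn⟩ := rep_coe x
  rw [hn]
  simpa using Function.Periodic.int_mul (f := g) h n x

lemma per2_rep {α : Type*} {g : ℝ → ℝ → α} (h1 : ∀ x y, g (x + 1) y = g x y) (h2 : ∀ x y, g x (y + 1) = g x y)
    (x y : ℝ) : g (rep x) (rep y) = g x y := by
  rw [per_rep (h2 _), per_rep (g := fun x => g x y) fun x => h1 x y]

lemma per2_bdd {g : ℝ → ℝ → ℝ} (hc : Continuous (Function.uncurry g)) (h1 : ∀ x y, g (x + 1) y = g x y)
    (h2 : ∀ x y, g x (y + 1) = g x y) : BM2 g := by
  obtain ⟨C, hC⟩ := ((isCompact_Icc (a := (0 : ℝ)) (b := 0 + 1)).prod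
    (isCompact_Icc (a := (0 : ℝ)) (b := 0 + 1))).exists_bound_of_continuousOn hc.continuousOn
  refine ⟨hc.measurable, C, fun x y => ?_⟩
  rw [← per2_rep h1 h2]
  exact hC (rep x, rep y) ⟨Ioc_subset_Icc_self (AddCircle.measurableEquivIoc 1 0 (x : UnitAddCircle)).2,
    Ioc_subset_Icc_self (AddCircle.measurableEquivIoc 1 0 (y : UnitAddCircle)).2⟩

instance : IsProbabilityMeasure (volume : Measure UnitAddCircle) := ⟨UnitAddCircle.measure_univ⟩

instance : IsProbabilityMeasure (volume : Measure (Fin 2 → UnitAddCircle)) :=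
  inferInstanceAs (IsProbabilityMeasure (Measure.pi fun _ => volume))

lemma circle_int (φ : UnitAddCircle → ℝ) : ∫ t, φ t = ∫ x in (0 : ℝ)..1, φ x := by
  rw [← UnitAddCircle.intervalIntegral_preimage 0, zero_add]

lemma torus_int {φ : (Fin 2 → UnitAddCircle) → ℝ} (hm : Measurable φ) {C : ℝ} (hb : ∀ t, |φ t| ≤ C) :
    ∫ t, φ t = ∫ x in (0 : ℝ)..1, ∫ y in (0 : ℝ)..1, φ ![(x : UnitAddCircle), (y : UnitAddCircle)] := by
  have h := (volume_preserving_finTwoArrow UnitAddCircle).symm
  rw [← h.integral_comp' φ, Measure.volume_eq_prod, integral_prod, circle_int]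
  · refine intervalIntegral.integral_congr fun x _ => ?_
    rw [circle_int]
    rfl
  · exact (integrable_const C).mono' (hm.comp h.measurable).aestronglyMeasurable
      (Eventually.of_forall fun p => hb _)

lemma ae_lift {P : (Fin 2 → UnitAddCircle) → Prop} (h : ∀ᵐ t, P t) :
    ∀ᵐ v : Fin 2 → ℝ, P fun i => (v i : UnitAddCircle) := by
  have e : (univ : Set (Fin 2 → ℝ)) = ⋃ z : Fin 2 → ℤ, univ.pi fun i => Ioc (z i : ℝ) (z i + 1) := by
    symm
    rw [eq_univ_iff_forall]
    intro v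
    refine mem_iUnion.mpr ⟨fun i => ⌈v i⌉ - 1, fun i _ => ?_⟩
    push_cast
    exact ⟨by linarith [Int.ceil_lt_add_one (v i)], by linarith [Int.le_ceil (v i)]⟩
  rw [← Measure.restrict_univ (μ := (volume : Measure (Fin 2 → ℝ))), e, ae_restrict_iUnion_iff]
  intro z
  rw [volume_pi, Measure.restrict_pi_pi]
  exact (measurePreserving_pi _ (fun _ => volume)
    fun i => UnitAddCircle.measurePreserving_mk (z i)).quasiMeasurePreserving.ae h

lemma BM2.swap {u : ℝ → ℝ → ℝ} (hu : BM2 u) :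
    ∫ x in (0 : ℝ)..1, ∫ y in (0 : ℝ)..1, u x y = ∫ y in (0 : ℝ)..1, ∫ x in (0 : ℝ)..1, u x y := by
  simp only [integral_of_le zero_le_one]
  obtain ⟨C, hC⟩ := hu.2
  exact integral_integral_swap ((integrable_const C).mono' hu.1.aestronglyMeasurable
    (Eventually.of_forall fun p => hC _ _))

/-- the conclusion of the problem for given top exponent and sum -/
def Concl (m σ : ℝ) : Prop :=
  ∃ (f : (Fin 2 → UnitAddCircle) → (Fin 2 → UnitAddCircle))
      (F : (Fin 2 → ℝ) → (Fin 2 → ℝ)),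
      ContDiff ℝ (⊤ : ℕ∞) F ∧
      (∀ x : Fin 2 → ℝ,
        f (fun i => ((x i : ℝ) : UnitAddCircle)) = fun i => ((F x i : ℝ) : UnitAddCircle)) ∧
      MeasureTheory.MeasurePreserving f MeasureTheory.volume MeasureTheory.volume ∧
      Ergodic f MeasureTheory.volume ∧
      ∀ᵐ x ∂(MeasureTheory.volume : MeasureTheory.Measure (Fin 2 → ℝ)),
        Filter.Tendsto (fun n : ℕ => (1 / (n : ℝ)) * Real.log ‖fderiv ℝ (F^[n]) x‖)
          Filter.atTop (nhds m) ∧
        Filter.Tendsto (fun n : ℕ => (1 / (n : ℝ)) * Real.log |(fderiv ℝ (F^[n]) x).det|)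
          Filter.atTop (nhds σ)

theorem assemble (G : ℝ → ℝ) (h : ℝ × ℝ → ℝ) (hG : ContDiff ℝ ∞ G) (hh : ContDiff ℝ ∞ h) (k1 k2 : ℤ)
    (Gper : ∀ x, G (x + 1) = G x + k1) (hp1 : ∀ x y, h (x + 1, y) = h (x, y))
    (hp2 : ∀ x y, h (x, y + 1) = h (x, y) + k2) (hα : ∀ x, 0 < deriv G x)
    (hγ : ∀ x y, 0 < fderiv ℝ h (x, y) (0, 1))
    (mp : ∀ u : ℝ → ℝ → ℝ, BM2 u → (∀ x y, u (x + 1) y = u x y) → (∀ x y, u x (y + 1) = u x y) →
      ∫ x in (0 : ℝ)..1, ∫ y in (0 : ℝ)..1, u (G x) (h (x, y))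
        = ∫ x in (0 : ℝ)..1, ∫ y in (0 : ℝ)..1, u x y)
    (erg : ∀ u : ℝ → ℝ → ℝ, Measurable (Function.uncurry u) → (∀ x y, u x y = 0 ∨ u x y = 1) →
      (∀ x y, u (x + 1) y = u x y) → (∀ x y, u x (y + 1) = u x y) → (∀ x y, u (G x) (h (x, y)) = u x y) →
      ∫ x in (0 : ℝ)..1, ∫ y in (0 : ℝ)..1, u x y = 0 ∨ ∫ x in (0 : ℝ)..1, ∫ y in (0 : ℝ)..1, u x y = 1)
    {a σ : ℝ} (ha : ∫ x in (0 : ℝ)..1, log (deriv G x) = a)
    (hσ : ∫ x in (0 : ℝ)..1, ∫ y in (0 : ℝ)..1, log (deriv G x * fderiv ℝ h (x, y) (0, 1)) = σ) :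
    Concl (max a (σ - a)) σ := by
  let f : (Fin 2 → UnitAddCircle) → (Fin 2 → UnitAddCircle) := fun t =>
    ![(G (rep (t 0)) : UnitAddCircle), (h (rep (t 0), rep (t 1)) : UnitAddCircle)]
  have hf : ∀ x y : ℝ, f ![(x : UnitAddCircle), (y : UnitAddCircle)]
      = ![(G x : UnitAddCircle), (h (x, y) : UnitAddCircle)] := fun x y =>
    per2_rep (g := fun x y => ![(G x : UnitAddCircle), (h (x, y) : UnitAddCircle)])
      (fun x y => by simp only [Gper, hp1, coe_add_int]) (fun x y => by simp only [hp2, coe_add_int]) x y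
  have e2 : ∀ v : Fin 2 → ℝ, (fun i => ((v i : ℝ) : UnitAddCircle))
      = ![(v 0 : UnitAddCircle), (v 1 : UnitAddCircle)] := fun v => by
    funext i; fin_cases i <;> rfl
  have hfF : ∀ v : Fin 2 → ℝ, f (fun i => ((v i : ℝ) : UnitAddCircle))
      = fun i => ((lift2 G h v i : ℝ) : UnitAddCircle) := fun v => by
    rw [e2, e2, hf]; rfl
  have r0 : Measurable fun t : Fin 2 → UnitAddCircle => rep (t 0) := rep_meas.comp (measurable_pi_apply 0)
  have r1 : Measurable fun t : Fin 2 → UnitAddCircle => rep (t 1) := rep_meas.comp (measurable_pi_apply 1)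
  have hfm : Measurable f := by
    rw [measurable_pi_iff, Fin.forall_fin_two]
    exact ⟨AddCircle.measurable_mk'.comp (hG.continuous.measurable.comp r0),
      AddCircle.measurable_mk'.comp (hh.continuous.measurable.comp (r0.prodMk r1))⟩
  have hπ : Measurable fun p : ℝ × ℝ => ![(p.1 : UnitAddCircle), (p.2 : UnitAddCircle)] := by
    rw [measurable_pi_iff, Fin.forall_fin_two]
    exact ⟨AddCircle.measurable_mk'.comp measurable_fst, AddCircle.measurable_mk'.comp measurable_snd⟩
  have ind01 : ∀ (S : Set (Fin 2 → UnitAddCircle)) t, S.indicator (1 : (Fin 2 → UnitAddCircle) → ℝ) t = 0 ∨ S.indicator (1 : (Fin 2 → UnitAddCircle) → ℝ) t = 1 := by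
    intro S t
    by_cases ht : t ∈ S <;> simp [ht]
  have indb : ∀ (S : Set (Fin 2 → UnitAddCircle)) t, |S.indicator (1 : (Fin 2 → UnitAddCircle) → ℝ) t| ≤ 1 := by
    intro S t
    rcases ind01 S t with e | e <;> simp [e]
  have vol : ∀ S : Set (Fin 2 → UnitAddCircle), MeasurableSet S → volume.real S = ∫ x in (0 : ℝ)..1,
      ∫ y in (0 : ℝ)..1, S.indicator (1 : (Fin 2 → UnitAddCircle) → ℝ) ![(x : UnitAddCircle), (y : UnitAddCircle)] := by
    intro S hS
    rw [← integral_indicator_one hS, torus_int (measurable_one.indicator hS) (indb S)]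
  have pre : ∀ (S : Set (Fin 2 → UnitAddCircle)) (x y : ℝ),
      (f ⁻¹' S).indicator (1 : (Fin 2 → UnitAddCircle) → ℝ) ![(x : UnitAddCircle), (y : UnitAddCircle)]
      = S.indicator (1 : (Fin 2 → UnitAddCircle) → ℝ) ![(G x : UnitAddCircle), (h (x, y) : UnitAddCircle)] := by
    intro S x y
    rw [← hf]
    rfl
  have hmp : MeasurePreserving f volume volume := by
    refine ⟨hfm, Measure.ext fun S hS => ?_⟩
    rw [Measure.map_apply hfm hS, ← measureReal_eq_measureReal_iff, vol _ (hfm hS), vol _ hS]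
    simp only [pre]
    exact mp (fun x y => S.indicator (1 : (Fin 2 → UnitAddCircle) → ℝ) ![(x : UnitAddCircle), (y : UnitAddCircle)])
      ⟨(measurable_one.indicator hS).comp hπ, 1, fun x y => indb S _⟩
      (fun x y => by simp only [coe_add_one]) (fun x y => by simp only [coe_add_one])
  have herg : Ergodic f volume := by
    refine ⟨hmp, ⟨fun S hS hinv => ?_⟩⟩
    have := erg (fun x y => S.indicator (1 : (Fin 2 → UnitAddCircle) → ℝ) ![(x : UnitAddCircle), (y : UnitAddCircle)])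
      ((measurable_one.indicator hS).comp hπ) (fun x y => ind01 S _)
      (fun x y => by simp only [coe_add_one]) (fun x y => by simp only [coe_add_one])
      (fun x y => by simp only [← pre, hinv])
    rw [← vol S hS] at this
    rw [eventuallyConst_set', ae_eq_empty, ae_eq_univ, prob_compl_eq_zero_iff hS]
    rcases this with e | e
    · left; exact (measureReal_eq_zero_iff (measure_ne_top _ _)).mp e
    · right; exact (ENNReal.toReal_eq_one_iff _).mp e
  have dG : Continuous (deriv G) := hG.continuous_deriv (by simp)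
  have dh : Continuous (fderiv ℝ h) := hh.continuous_fderiv (by simp)
  have pG : ∀ x, deriv G (x + 1) = deriv G x := fun x => by
    rw [← deriv_comp_add_const]
    simp only [Gper, deriv_add_const]
  have ph1 : ∀ x y, fderiv ℝ h (x + 1, y) = fderiv ℝ h (x, y) := fun x y => by
    have := fderiv_comp_add_right (𝕜 := ℝ) (f := h) (x := (x, y)) ((1 : ℝ), (0 : ℝ))
    rw [Prod.mk_add_mk, add_zero] at this
    rw [← this]
    congr 1
    funext p
    rw [show p + ((1 : ℝ), (0 : ℝ)) = (p.1 + 1, p.2) from Prod.ext rfl (add_zero _), hp1]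
  have ph2 : ∀ x y, fderiv ℝ h (x, y + 1) = fderiv ℝ h (x, y) := fun x y => by
    have := fderiv_comp_add_right (𝕜 := ℝ) (f := h) (x := (x, y)) ((0 : ℝ), (1 : ℝ))
    rw [Prod.mk_add_mk, add_zero] at this
    rw [← this, ← fderiv_add_const (f := h) (k2 : ℝ)]
    congr 1
    funext p
    rw [show p + ((0 : ℝ), (1 : ℝ)) = (p.1, p.2 + 1) from Prod.ext (add_zero _) rfl, hp2]
  have birk : ∀ φ : ℝ → ℝ → ℝ, Continuous (Function.uncurry φ) → (∀ x y, φ (x + 1) y = φ x y) →
      (∀ x y, φ x (y + 1) = φ x y) → ∀ᵐ v : Fin 2 → ℝ, Tendsto (fun n : ℕ => (n : ℝ)⁻¹ *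
        ∑ k ∈ Finset.range n, φ ((lift2 G h)^[k] v 0) ((lift2 G h)^[k] v 1)) atTop
        (𝓝 (∫ x in (0 : ℝ)..1, ∫ y in (0 : ℝ)..1, φ x y)) := by
    intro φ hc h1 h2
    obtain ⟨hm, C, hC⟩ := per2_bdd hc h1 h2
    have hm' : Measurable fun t : Fin 2 → UnitAddCircle => φ (rep (t 0)) (rep (t 1)) :=
      hm.comp (r0.prodMk r1)
    have := birkhoff herg _ hm' ⟨C, fun t => hC _ _⟩
    rw [torus_int hm' fun t => hC _ _] at this
    simp only [Matrix.cons_val_zero, Matrix.cons_val_one, per2_rep h1 h2] at this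
    filter_upwards [ae_lift this] with v hv
    have it : ∀ k : ℕ, f^[k] (fun i => ((v i : ℝ) : UnitAddCircle))
        = fun i => (((lift2 G h)^[k] v i : ℝ) : UnitAddCircle) := by
      intro k
      induction k with
      | zero => rfl
      | succ k ih => rw [Function.iterate_succ_apply', Function.iterate_succ_apply', ih, hfF]
    simpa only [it, per2_rep h1 h2] using hv
  refine ⟨f, lift2 G h, lift2_smooth hG hh, hfF, hmp, herg, ?_⟩
  have c1 : Continuous fun p : ℝ × ℝ => deriv G p.1 := dG.comp continuous_fst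
  have c2 : Continuous fun p : ℝ × ℝ => fderiv ℝ h p (0, 1) := dh.clm_apply continuous_const
  have c3 : Continuous fun p : ℝ × ℝ => fderiv ℝ h p (1, 0) := dh.clm_apply continuous_const
  obtain ⟨-, M, hM⟩ := per2_bdd (g := fun x y => fderiv ℝ h (x, y) (1, 0)) c3
    (fun x y => by simp only [ph1]) (fun x y => by simp only [ph2])
  have b1 := birk (fun x _ => log (deriv G x)) (c1.log fun p => (hα _).ne')
    (fun x y => by simp only [pG]) (fun _ _ => rfl)
  have b2 := birk (fun x y => log (deriv G x * fderiv ℝ h (x, y) (0, 1)))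
    ((c1.mul c2).log fun p => (mul_pos (hα _) (hγ _ _)).ne')
    (fun x y => by simp only [pG, ph1]) (fun x y => by simp only [ph2])
  simp only [intervalIntegral.integral_const, sub_zero, one_smul, ha] at b1
  rw [hσ] at b2
  filter_upwards [b1, b2] with v h1 h2
  exact orbit_exp ((lift2_smooth hG hh).differentiable (by simp)) (α := fun v => deriv G (v 0))
    (β := fun v => fderiv ℝ h (v 0, v 1) (1, 0)) (γ := fun v => fderiv ℝ h (v 0, v 1) (0, 1))
    (lift2_fderiv hG hh) (fun v => hα _) (fun v => hγ _ _) (fun v => hM _ _) v h1 h2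

lemma Base.exponent (B : Base) :
    ∫ x in (0 : ℝ)..1, log (deriv B.G x) = ∫ z in (0 : ℝ)..B.k, negMulLog (B.a z) := by
  simp only [(B.G_deriv _).deriv]
  rw [B.cv0 fun z => log (B.a z)⁻¹]
  simp only [log_inv, negMulLog, mul_neg, neg_mul]

lemma Base.dpos (B : Base) (x : ℝ) : 0 < deriv B.G x := by
  rw [(B.G_deriv x).deriv]; exact inv_pos.mpr (B.a_pos _)

theorem skew_case (B : Base) (Q : Kern) {a σ : ℝ} (ha : ∫ z in (0 : ℝ)..B.k, negMulLog (B.a z) = a)
    (hσ : ∫ z in (0 : ℝ)..B.k, ∫ y in (0 : ℝ)..1, negMulLog (J B Q z y) = σ) :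
    Concl (max a (σ - a)) σ := by
  have e : ∀ x y, fderiv ℝ (hh B Q) (x, y) (0, 1) = (J B Q (B.G x) (hh B Q (x, y)) / B.a (B.G x))⁻¹ :=
    fun x y => (fderiv_snd ((hh_smooth B Q).differentiable (by simp)) x y).unique (hh_deriv B Q x y)
  refine assemble B.G (hh B Q) B.G_smooth (hh_smooth B Q) B.k 1 (fun x => by simp [B.G_per])
    (hh_per1 B Q) (fun x y => by simp [hh_per2]) B.dpos
    (fun x y => by rw [e]; exact inv_pos.mpr (div_pos (J_pos B Q _ _) (B.a_pos _)))
    (fun u hu h1 _ => skew_mp B Q hu h1) (fun u => skew_erg B Q) (B.exponent.trans ha) ?_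
  rw [← hσ]
  have := skew_cv B Q (v := fun z y => log (J B Q z y)⁻¹)
  simp only [log_inv, negMulLog, mul_neg, neg_mul] at this ⊢
  rw [← this]
  refine intervalIntegral.integral_congr fun x _ => intervalIntegral.integral_congr fun y _ => ?_
  simp only [e, (B.G_deriv _).deriv]
  rw [← log_inv]
  congr 1
  have := (B.a_pos (B.G x)).ne'
  field_simp

theorem prod_case (B : Base) (T : ℝ → ℝ) (hT : ContDiff ℝ ∞ T) (k : ℤ) (Tper : ∀ y, T (y + 1) = T y + k)
    (Tpos : ∀ y, 0 < deriv T y)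
    (mp : ∀ v, BM v → Function.Periodic v 1 → ∫ y in (0 : ℝ)..1, v (T y) = ∫ y in (0 : ℝ)..1, v y)
    (erg : ∀ v : ℝ → ℝ, Measurable v → (∀ y, v y = 0 ∨ v y = 1) → Function.Periodic v 1 →
      (∀ y, v (T y) = v y) → ∫ y in (0 : ℝ)..1, v y = 0 ∨ ∫ y in (0 : ℝ)..1, v y = 1)
    {a b : ℝ} (ha : ∫ z in (0 : ℝ)..B.k, negMulLog (B.a z) = a)
    (hb : ∫ y in (0 : ℝ)..1, log (deriv T y) = b) : Concl (max a b) (a + b) := by
  have hs : ContDiff ℝ ∞ fun p : ℝ × ℝ => T p.2 := hT.comp contDiff_snd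
  have e : ∀ x y : ℝ, fderiv ℝ (fun p : ℝ × ℝ => T p.2) (x, y) (0, 1) = deriv T y :=
    fun x y => (fderiv_snd (hs.differentiable (by simp)) x y).unique
      (hT.differentiable (by simp) y).hasDerivAt
  have := assemble B.G (fun p => T p.2) B.G_smooth hs B.k k (fun x => by simp [B.G_per])
    (fun _ _ => rfl) (fun _ y => Tper y) B.dpos (fun x y => by rw [e]; exact Tpos y) ?_ ?_
    (B.exponent.trans ha) (σ := a + b) ?_
  · rwa [add_sub_cancel_left] at this
  · intro u hu h1 h2
    simp only [mp (u _) (hu.right _) (h2 _)]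
    exact B.mp (hu.int (D := 1) measurable_const measurable_const (by simp)) fun x => by simp only [h1]
  · intro u hm h01 h1 h2 hinv
    have hu : BM2 u := ⟨hm, 1, fun x y => by rcases h01 x y with e | e <;> simp [e]⟩
    have key := B.prod_key T u (fun y => hm.comp measurable_prodMk_right) h01 h1 hinv
    rw [hu.swap]
    exact erg _ (meas_int (v := fun y x => u x y) (hm.comp measurable_swap) 0 1) (fun y => (key y).2)
      (fun y => by simp only [h2]) fun y => (key y).1
  · have c1 : Continuous fun x => log (deriv B.G x) :=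
      (B.G_smooth.continuous_deriv (by simp)).log fun x => (B.dpos x).ne'
    have c2 : Continuous fun x => log (deriv T x) :=
      (hT.continuous_deriv (by simp)).log fun x => (Tpos x).ne'
    simp only [e, log_mul (B.dpos _).ne' (Tpos _).ne']
    have : ∀ x, ∫ y in (0 : ℝ)..1, (log (deriv B.G x) + log (deriv T y)) = log (deriv B.G x) + b := by
      intro x
      rw [integral_add intervalIntegrable_const (c2.intervalIntegrable _ _), hb]
      simp
    simp only [this]
    rw [integral_add (c1.intervalIntegrable _ _) intervalIntegrable_const, B.exponent, ha]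
    simp

lemma rot_erg (v : ℝ → ℝ) (hm : Measurable v) (h01 : ∀ y, v y = 0 ∨ v y = 1) (hp : Function.Periodic v 1)
    (hinv : ∀ y, v (y + √2) = v y) : ∫ y in (0 : ℝ)..1, v y = 0 ∨ ∫ y in (0 : ℝ)..1, v y = 1 := by
  have herg : Ergodic (fun t : UnitAddCircle => t + ((√2 : ℝ) : UnitAddCircle)) := by
    rw [AddCircle.ergodic_add_right, addOrderOf_eq_zero_iff,
      AddCircle.not_isOfFinAddOrder_iff_forall_rat_ne_div]
    intro q hq
    exact irrational_sqrt_two ⟨q, by simpa using hq⟩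
  obtain ⟨c, hc⟩ := herg.toPreErgodic.ae_eq_const_of_ae_eq_comp (g := fun t => v (rep t))
    (hm.comp rep_meas) (by
      funext t
      simp only [Function.comp]
      rw [← coe_rep t, ← AddCircle.coe_add, per_rep hp, hinv, per_rep hp])
  obtain ⟨t, ht⟩ := hc.exists
  have e : ∫ y in (0 : ℝ)..1, v y = c := by
    have := circle_int fun t => v (rep t)
    simp only [per_rep hp] at this
    rw [← this, integral_congr_ae hc]
    simp
  rw [e]
  simp only [Function.const] at ht
  rw [← ht]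
  exact h01 _

theorem main (l1 l2 : ℝ) (h12 : l1 ≤ l2) (h : 0 < l1 + l2) : Concl l2 (l1 + l2) := by
  obtain ⟨B, hB⟩ := exists_base (show 0 < l2 by linarith)
  rcases lt_trichotomy l1 0 with h1 | h1 | h1
  · obtain ⟨Q, hQ⟩ := exists_kern B h (by rw [hB]; linarith)
    have := skew_case B Q hB hQ
    rwa [add_sub_cancel_right, max_eq_left h12] at this
  · have d : ∀ y : ℝ, deriv (fun y : ℝ => y + √2) y = 1 := fun y => by simp
    have := prod_case B (fun y => y + √2) (by fun_prop) 1 (fun y => by push_cast; ring)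
      (fun y => by rw [d]; exact one_pos)
      (fun v _ hp => by
        rw [integral_comp_add_right, add_comm 1, zero_add, hp.intervalIntegral_add_eq _ 0, zero_add])
      rot_erg hB (b := l1) (by simp [d, h1])
    rwa [max_eq_left h12, add_comm] at this
  · obtain ⟨B', hB'⟩ := exists_base h1
    have := prod_case B B'.G B'.G_smooth B'.k (fun x => by simp [B'.G_per]) B'.dpos
      (fun v hv hp => B'.mp hv hp)
      (fun v hm h01 hp hinv => (B'.prod_key (fun y : Unit => y) (fun x _ => v x) (fun _ => hm)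
        (fun x _ => h01 x) (fun x _ => hp x) (fun x _ => hinv x) ()).2) hB (B'.exponent.trans hB')
    rwa [max_eq_left h12, add_comm] at this

end Pool.Agent.H472Z.Flex
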