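import Pool.Agent.H472Z.FlexSkew

set_option autoImplicit false

namespace Pool.Agent.H472Z.Flex

open Set Filter Topology MeasureTheory intervalIntegral Real
open scoped ContDiff

/-- primitive of the Poisson kernel -/
noncomputable def Kr (r t : ℝ) : ℝ := t + arctan (r * sin (2 * π * t) / (1 - r * cos (2 * π * t))) / π

/-- the Poisson kernel -/
noncomputable def κr (r t : ℝ) : ℝ := (1 - r ^ 2) / (1 - 2 * r * cos (2 * π * t) + r ^ 2)

lemma den1 {r : ℝ} (h0 : 0 ≤ r) (h1 : r < 1) (θ : ℝ) : 0 < 1 - r * cos θ := by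
  nlinarith [cos_le_one θ]

lemma den2 {r : ℝ} (h0 : 0 ≤ r) (h1 : r < 1) (θ : ℝ) : 0 < 1 - 2 * r * cos θ + r ^ 2 := by
  nlinarith [cos_le_one θ, sq_pos_of_pos (sub_pos.mpr h1)]

lemma Kr_smooth {r : ℝ} (h0 : 0 ≤ r) (h1 : r < 1) : ContDiff ℝ ∞ (Kr r) := by
  unfold Kr
  refine contDiff_id.add (ContDiff.div_const (ContDiff.arctan ?_) _)
  exact ContDiff.div (by fun_prop) (by fun_prop) fun t => (den1 h0 h1 _).ne'

lemma Kr_deriv {r : ℝ} (h0 : 0 ≤ r) (h1 : r < 1) (t : ℝ) : HasDerivAt (Kr r) (κr r t) t := by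
  have a : HasDerivAt (fun t => 2 * π * t) (2 * π) t := by
    simpa using (hasDerivAt_id t).const_mul (2 * π)
  have d1 := den1 h0 h1 (2 * π * t)
  have d2 := den2 h0 h1 (2 * π * t)
  have := (hasDerivAt_id t).add ((((a.sin.const_mul r).div ((a.cos.const_mul r).const_sub 1)
    d1.ne').arctan).div_const π)
  refine this.congr_deriv ?_
  have hs := sin_sq_add_cos_sq (2 * π * t)
  have e : 1 + (r * sin (2 * π * t) / (1 - r * cos (2 * π * t))) ^ 2
      = (1 - 2 * r * cos (2 * π * t) + r ^ 2) / (1 - r * cos (2 * π * t)) ^ 2 := by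
    field_simp
    linear_combination r ^ 2 * hs
  simp only [Pi.div_apply]
  rw [e, κr]
  have := pi_pos.ne'
  field_simp
  linear_combination (-2 * r ^ 2) * hs

lemma κr_pos {r : ℝ} (h0 : 0 ≤ r) (h1 : r < 1) (t : ℝ) : 0 < κr r t :=
  div_pos (by nlinarith) (den2 h0 h1 _)

lemma Kr_mono {r : ℝ} (h0 : 0 ≤ r) (h1 : r < 1) : StrictMono (Kr r) :=
  strictMono_of_deriv_pos fun t => by rw [(Kr_deriv h0 h1 t).deriv]; exact κr_pos h0 h1 t

lemma Kr_int (r t : ℝ) (n : ℤ) : Kr r (t + n) = Kr r t + n := by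
  unfold Kr
  rw [show 2 * π * (t + n) = 2 * π * t + n * (2 * π) by ring, sin_add_int_mul_two_pi,
    cos_add_int_mul_two_pi]
  ring

lemma Kr_per (r t : ℝ) : Kr r (t + 1) = Kr r t + 1 := by simpa using Kr_int r t 1

lemma κr_eq {r : ℝ} (h0 : 0 < r) (h1 : r < 1) {l t : ℝ} (hl0 : 0 < l) (hl1 : l < 1)
    (h : κr r (t + l) = κr r t) : ∃ n : ℤ, 2 * t + l = n := by
  unfold κr at h
  rw [div_eq_div_iff (den2 h0.le h1 _).ne' (den2 h0.le h1 _).ne'] at h
  have h2 := mul_left_cancel₀ (show 1 - r ^ 2 ≠ 0 by nlinarith) h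
  have h3 : cos (2 * π * t) = cos (2 * π * (t + l)) := by
    apply mul_left_cancel₀ (show 2 * r ≠ 0 by positivity)
    linarith
  obtain ⟨n, hn | hn⟩ := cos_eq_cos_iff.mp h3
  · have : l = n := by
      apply mul_left_cancel₀ (show 2 * π ≠ 0 by positivity)
      linarith
    rw [this] at hl0 hl1
    have a : 0 < n := by exact_mod_cast hl0
    have b : n < 1 := by exact_mod_cast hl1
    omega
  · refine ⟨n, ?_⟩
    apply mul_left_cancel₀ (show 2 * π ≠ 0 by positivity)
    linarith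

/-- the Poisson kernel data -/
noncomputable def pois (r : ℝ) (h0 : 0 < r) (h1 : r < 1) : Kern where
  K := Kr r
  κ := κr r
  smooth := Kr_smooth h0.le h1
  der := Kr_deriv h0.le h1
  mono := Kr_mono h0.le h1
  per := Kr_per r
  uni := by
    intro l t0 t1 t2 hl0 hl1 h01 h12 h20 e0 e1 e2
    obtain ⟨n0, a0⟩ := κr_eq h0 h1 hl0 hl1 e0
    obtain ⟨n1, a1⟩ := κr_eq h0 h1 hl0 hl1 e1
    obtain ⟨n2, a2⟩ := κr_eq h0 h1 hl0 hl1 e2
    have b0 : n0 < n1 := by exact_mod_cast (show (n0 : ℝ) < n1 by linarith)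
    have b1 : n1 < n2 := by exact_mod_cast (show (n1 : ℝ) < n2 by linarith)
    have b2 : n2 < n0 + 2 := by exact_mod_cast (show (n2 : ℝ) < n0 + 2 by linarith)
    omega

/-- the base map built from the Poisson kernel -/
noncomputable def base (k : ℕ) (hk : 3 ≤ k) (r : ℝ) (h0 : 0 ≤ r) (h1 : r < 1) : Base where
  k := k
  s z := Kr r (z / k)
  hk := hk
  smooth := (Kr_smooth h0 h1).comp (contDiff_id.div_const _)
  mono := fun x y h => Kr_mono h0 h1 (div_lt_div_of_pos_right h (by exact_mod_cast (by omega : 0 < k)))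
  per z := by
    rw [add_div, div_self (by exact_mod_cast (by omega : k ≠ 0)), Kr_per]

lemma Kr_meas (r : ℝ) : Measurable (Kr r) := by
  unfold Kr
  refine measurable_id.add (Measurable.div_const (measurable_arctan.comp ?_) _)
  exact Measurable.div (by fun_prop) (by fun_prop)

lemma Kr_bd (r t : ℝ) : |Kr r t - t| ≤ 1 / 2 := by
  unfold Kr
  rw [add_sub_cancel_left, abs_div, abs_of_pos pi_pos, div_le_iff₀ pi_pos, abs_le]
  constructor
  · linarith [neg_pi_div_two_lt_arctan (r * sin (2 * π * t) / (1 - r * cos (2 * π * t)))]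
  · linarith [arctan_lt_pi_div_two (r * sin (2 * π * t) / (1 - r * cos (2 * π * t)))]

lemma Kr_zero (t : ℝ) : Kr 0 t = t := by simp [Kr]

lemma cos_lt {t : ℝ} (ht : ∀ n : ℤ, t ≠ n) : cos (2 * π * t) < 1 := by
  refine (cos_le_one _).lt_of_ne fun h => ?_
  obtain ⟨n, hn⟩ := (cos_eq_one_iff _).mp h
  apply ht n
  apply mul_left_cancel₀ (show 2 * π ≠ 0 by positivity)
  linarith

lemma Kr_contOn {t : ℝ} (ht : ∀ n : ℤ, t ≠ n) : ContinuousOn (fun r => Kr r t) (Icc 0 1) := by
  unfold Kr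
  refine continuousOn_const.add (ContinuousOn.div_const (continuous_arctan.comp_continuousOn ?_) _)
  refine ContinuousOn.div (by fun_prop) (by fun_prop) fun r hr => ?_
  have := cos_lt ht
  rcases hr.2.eq_or_lt with h | h
  · rw [h]; linarith
  · exact (den1 hr.1 h _).ne'

lemma Kr_one {t : ℝ} (ht : ∀ n : ℤ, t ≠ n) : Kr 1 t = ⌊t⌋ + 1 / 2 := by
  have h := Kr_int 1 (Int.fract t) ⌊t⌋
  rw [Int.fract_add_floor] at h
  rw [h, add_comm]
  congr 1
  have h0 : 0 < Int.fract t := Int.fract_pos.mpr (ht _)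
  have h1 := Int.fract_lt_one t
  generalize Int.fract t = u at h0 h1
  have hp := pi_pos
  have hs : 0 < sin (π * u) := sin_pos_of_pos_of_lt_pi (by positivity) (by nlinarith)
  have e : 1 * sin (2 * π * u) / (1 - 1 * cos (2 * π * u)) = tan (π / 2 - π * u) := by
    rw [tan_pi_div_two_sub, tan_eq_sin_div_cos, inv_div, mul_assoc, sin_two_mul, cos_two_mul, cos_sq',
      show 1 - 1 * (2 * (1 - sin (π * u) ^ 2) - 1) = 2 * sin (π * u) ^ 2 by ring]
    field_simp
  unfold Kr
  rw [e, arctan_tan (by nlinarith) (by nlinarith)]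
  field_simp
  ring

/-- entropy integral -/
noncomputable def ent (r p q : ℝ) : ℝ := ∫ y in (0 : ℝ)..1, negMulLog (Kr r (y - p) - Kr r (y - q))

lemma nml_bd : ∃ C : ℝ, ∀ r p q y : ℝ, |q - p| ≤ 1 → ‖negMulLog (Kr r (y - p) - Kr r (y - q))‖ ≤ C := by
  obtain ⟨C, hC⟩ := (isCompact_Icc (a := (-2 : ℝ)) (b := 2)).exists_bound_of_continuousOn
    continuous_negMulLog.continuousOn
  refine ⟨C, fun r p q y h => hC _ ?_⟩
  have a := abs_le.mp (Kr_bd r (y - p))
  have b := abs_le.mp (Kr_bd r (y - q))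
  have c := abs_le.mp h
  constructor <;> linarith [a.1, a.2, b.1, b.2, c.1, c.2]

lemma ae_nonint (p : ℝ) : ∀ᵐ y : ℝ, ∀ n : ℤ, y - p ≠ n := by
  rw [ae_all_iff]
  intro n
  filter_upwards [compl_mem_ae_iff.mpr (measure_singleton (p + n))] with y hy h
  exact hy (by rw [mem_singleton_iff]; linarith)

lemma ent_cont {p q : ℝ} (h : |q - p| ≤ 1) : ContinuousOn (fun r => ent r p q) (Icc 0 1) := by
  obtain ⟨C, hC⟩ := nml_bd
  intro r hr
  refine continuousWithinAt_of_dominated_interval (bound := fun _ => C) ?_ ?_ intervalIntegrable_const ?_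
  · refine Eventually.of_forall fun r => Measurable.aestronglyMeasurable ?_
    exact continuous_negMulLog.measurable.comp (((Kr_meas r).comp (measurable_sub_const p)).sub
      ((Kr_meas r).comp (measurable_sub_const q)))
  · exact Eventually.of_forall fun r => Eventually.of_forall fun y _ => hC r p q y h
  · filter_upwards [ae_nonint p, ae_nonint q] with y a b _
    exact continuous_negMulLog.comp_continuousOn ((Kr_contOn a).sub (Kr_contOn b)) r hr

lemma ent_zero (p q : ℝ) : ent 0 p q = negMulLog (q - p) := by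
  simp [ent, Kr_zero]

lemma ent_one {p q : ℝ} (h0 : p ≤ q) (h1 : q ≤ p + 1) : ent 1 p q = 0 := by
  unfold ent
  refine Eq.trans (intervalIntegral.integral_congr_ae ?_) (integral_zero (a := 0) (b := 1) (μ := volume))
  filter_upwards [ae_nonint p, ae_nonint q] with y a b _
  rw [Kr_one a, Kr_one b]
  have c : ⌊y - q⌋ ≤ ⌊y - p⌋ := Int.floor_le_floor (by linarith)
  have d : ⌊y - p⌋ ≤ ⌊y - q + 1⌋ := Int.floor_le_floor (by linarith)
  rw [Int.floor_add_one] at d
  rcases (show ⌊y - p⌋ = ⌊y - q⌋ ∨ ⌊y - p⌋ = ⌊y - q⌋ + 1 by omega) with e | e <;> simp [e]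

lemma exists_base {lam : ℝ} (h : 0 < lam) :
    ∃ B : Base, ∫ z in (0 : ℝ)..B.k, negMulLog (B.a z) = lam := by
  obtain ⟨k0, hk0⟩ := exists_nat_gt (exp lam)
  obtain ⟨k, hk, hk1⟩ : ∃ k : ℕ, 3 ≤ k ∧ lam ≤ log k := by
    refine ⟨k0 + 3, by omega, ?_⟩
    rw [le_log_iff_exp_le (by positivity)]
    push_cast
    linarith
  have hk3 : (3 : ℝ) ≤ k := by exact_mod_cast hk
  have hkp : (0 : ℝ) < k := by linarith
  have hk' : (k : ℝ)⁻¹ ≤ 1 := inv_le_one_of_one_le₀ (by linarith)
  have hk'' : (0 : ℝ) < (k : ℝ)⁻¹ := by positivity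
  have hc : ContinuousOn (fun r => k * ent r (-(k : ℝ)⁻¹) 0) (Icc 0 1) :=
    continuousOn_const.mul (ent_cont (by rw [zero_sub, neg_neg, abs_of_pos hk'']; exact hk'))
  have e0 : k * ent 0 (-(k : ℝ)⁻¹) 0 = log k := by
    rw [ent_zero, zero_sub, neg_neg, negMulLog, log_inv]
    field_simp
  have e1 : k * ent 1 (-(k : ℝ)⁻¹) 0 = 0 := by rw [ent_one (by linarith) (by linarith), mul_zero]
  obtain ⟨r, hr, e⟩ := intermediate_value_Icc' zero_le_one hc (show lam ∈ Icc _ _ by
    simp only [e0, e1]; exact ⟨h.le, hk1⟩)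
  have hr1 : r < 1 := hr.2.lt_of_ne fun h' => by
    simp only [h', e1] at e
    linarith
  refine ⟨base k hk r hr.1 hr1, ?_⟩
  rw [← e]
  have := integral_comp_div (a := 0) (b := k)
    (fun y => negMulLog (Kr r (y - -(k : ℝ)⁻¹) - Kr r (y - 0))) hkp.ne'
  rw [zero_div, div_self hkp.ne', smul_eq_mul] at this
  refine Eq.trans (integral_congr fun z _ => ?_) this
  simp only [Base.a, base, add_div, one_div, sub_neg_eq_add, sub_zero]

lemma exists_kern (B : Base) {σ : ℝ} (h0 : 0 < σ) (h1 : σ < ∫ z in (0 : ℝ)..B.k, negMulLog (B.a z)) :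
    ∃ Q : Kern, ∫ z in (0 : ℝ)..B.k, ∫ y in (0 : ℝ)..1, negMulLog (J B Q z y) = σ := by
  obtain ⟨C, hC⟩ := nml_bd
  have ha : ∀ z, |B.s (z + 1) - B.s z| ≤ 1 := fun z =>
    abs_le.mpr ⟨by linarith [B.a_pos z, show B.a z = B.s (z + 1) - B.s z from rfl], (B.a_lt z).le⟩
  have hc : ContinuousOn (fun r => ∫ z in (0 : ℝ)..B.k, ent r (B.s z) (B.s (z + 1))) (Icc 0 1) := by
    intro r hr
    refine continuousWithinAt_of_dominated_interval (bound := fun _ => C) ?_ ?_ intervalIntegrable_const ?_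
    · refine Eventually.of_forall fun r => Measurable.aestronglyMeasurable (meas_int ?_ 0 1)
      have hs := B.smooth.continuous.measurable
      exact continuous_negMulLog.measurable.comp
        (((Kr_meas r).comp (measurable_snd.sub (hs.comp measurable_fst))).sub
        ((Kr_meas r).comp (measurable_snd.sub (hs.comp (measurable_fst.add_const 1)))))
    · refine Eventually.of_forall fun r => Eventually.of_forall fun z _ => ?_
      simpa [ent] using norm_integral_le_of_norm_le_const (a := 0) (b := 1) fun y _ => hC r _ _ y (ha z)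
    · exact Eventually.of_forall fun z _ => ent_cont (ha z) r hr
  have e0 : ∫ z in (0 : ℝ)..B.k, ent 0 (B.s z) (B.s (z + 1)) = ∫ z in (0 : ℝ)..B.k, negMulLog (B.a z) := by
    simp only [ent_zero, Base.a]
  have e1 : ∫ z in (0 : ℝ)..B.k, ent 1 (B.s z) (B.s (z + 1)) = 0 := by
    have : ∀ z, ent 1 (B.s z) (B.s (z + 1)) = 0 := fun z =>
      ent_one (B.mono (by linarith)).le (by linarith [(abs_le.mp (ha z)).2])
    simp [this]
  obtain ⟨r, hr, e⟩ := intermediate_value_Icc' zero_le_one hc (show σ ∈ Icc _ _ by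
    simp only [e0, e1]; exact ⟨h0.le, h1.le⟩)
  have hr1 : r < 1 := hr.2.lt_of_ne fun h' => by
    simp only [h', e1] at e
    linarith
  have hr0 : 0 < r := hr.1.lt_of_ne' fun h' => by
    simp only [h', e0] at e
    linarith
  exact ⟨pois r hr0 hr1, e⟩

end Pool.Agent.H472Z.Flex
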