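import Pool.Agent.H472Z.FlexBase

set_option autoImplicit false

namespace Pool.Agent.H472Z.Flex

open Set Filter Topology MeasureTheory intervalIntegral
open scoped ContDiff

/-- bounded jointly measurable functions of two real variables -/
def BM2 (v : ℝ → ℝ → ℝ) : Prop := Measurable (Function.uncurry v) ∧ ∃ C, ∀ x y, |v x y| ≤ C

lemma BM2.right {v : ℝ → ℝ → ℝ} (h : BM2 v) (x : ℝ) : BM (v x) :=
  ⟨h.1.comp measurable_prodMk_left, h.2.imp fun _ hC y => hC x y⟩

lemma meas_int {v : ℝ → ℝ → ℝ} (hv : Measurable (Function.uncurry v)) (a b : ℝ) :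
    Measurable fun x => ∫ y in a..b, v x y := by
  unfold intervalIntegral
  exact (hv.stronglyMeasurable.integral_prod_right.measurable).sub
    (hv.stronglyMeasurable.integral_prod_right.measurable)

lemma BM2.int {v : ℝ → ℝ → ℝ} (hv : BM2 v) {P Q : ℝ → ℝ} (hP : Measurable P) (hQ : Measurable Q)
    {D : ℝ} (h : ∀ x, |Q x - P x| ≤ D) : BM fun x => ∫ y in P x..Q x, v x y := by
  have hU : Measurable (Function.uncurry fun t x => ∫ y in (0 : ℝ)..t, v x y) :=
    measurable_uncurry_of_continuous_of_measurable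
      (fun x => continuous_primitive (fun a b => (hv.right x).ii a b) 0) fun t => meas_int hv.1 0 t
  have e : (fun x => ∫ y in P x..Q x, v x y)
      = fun x => (∫ y in (0 : ℝ)..Q x, v x y) - ∫ y in (0 : ℝ)..P x, v x y :=
    funext fun x => (integral_interval_sub_left ((hv.right x).ii _ _) ((hv.right x).ii _ _)).symm
  constructor
  · rw [e]
    exact (hU.comp (hQ.prodMk measurable_id)).sub (hU.comp (hP.prodMk measurable_id))
  · obtain ⟨C, hC⟩ := hv.2
    refine ⟨C * D, fun x => ?_⟩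
    have := norm_integral_le_of_norm_le_const (a := P x) (b := Q x) (f := v x) (C := C) fun y _ => hC x y
    exact this.trans (mul_le_mul_of_nonneg_left (h x) ((abs_nonneg _).trans (hC 0 0)))

lemma rolle3 {f f' : ℝ → ℝ} (hf : ∀ t, HasDerivAt f (f' t) t) (hp : Function.Periodic f 1)
    {t0 t1 t2 : ℝ} (h01 : t0 < t1) (h12 : t1 < t2) (h20 : t2 < t0 + 1) (e1 : f t0 = f t1) (e2 : f t1 = f t2) :
    ∃ u0 u1 u2 : ℝ, u0 < u1 ∧ u1 < u2 ∧ u2 < u0 + 1 ∧ f' u0 = 0 ∧ f' u1 = 0 ∧ f' u2 = 0 := by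
  have hc : Continuous f := continuous_iff_continuousAt.mpr fun t => (hf t).continuousAt
  obtain ⟨u0, a0, b0⟩ := exists_hasDerivAt_eq_zero h01 hc.continuousOn e1 fun t _ => hf t
  obtain ⟨u1, a1, b1⟩ := exists_hasDerivAt_eq_zero h12 hc.continuousOn e2 fun t _ => hf t
  obtain ⟨u2, a2, b2⟩ := exists_hasDerivAt_eq_zero h20 hc.continuousOn
    (by rw [hp t0, e1, e2]) fun t _ => hf t
  exact ⟨u0, u1, u2, by linarith [a0.2, a1.1], by linarith [a1.2, a2.1], by linarith [a0.1, a2.2], b0, b1, b2⟩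

/-- a smooth increasing degree one lift with unimodal derivative -/
structure Kern where
  K : ℝ → ℝ
  κ : ℝ → ℝ
  smooth : ContDiff ℝ ∞ K
  der : ∀ t, HasDerivAt K (κ t) t
  mono : StrictMono K
  per : ∀ t, K (t + 1) = K t + 1
  uni : ∀ l t0 t1 t2 : ℝ, 0 < l → l < 1 → t0 < t1 → t1 < t2 → t2 < t0 + 1 →
    κ (t0 + l) = κ t0 → κ (t1 + l) = κ t1 → κ (t2 + l) = κ t2 → False

namespace Kern

variable (Q : Kern)

/-- primitive of the lift -/
noncomputable def Kt (t : ℝ) : ℝ := ∫ x in (0 : ℝ)..t, Q.K x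

lemma Kt_deriv (t : ℝ) : HasDerivAt Q.Kt (Q.K t) t :=
  (Q.smooth.continuous.integral_hasStrictDerivAt 0 t).hasDerivAt

lemma Kt_smooth : ContDiff ℝ ∞ Q.Kt := primitive_smooth Q.smooth

lemma Kt_per (t : ℝ) : Q.Kt (t + 1) = Q.Kt t + t + Q.Kt 1 := by
  have h : ∀ t, HasDerivAt (fun t => Q.Kt (t + 1) - Q.Kt t - t) 0 t := by
    intro t
    have := (((Q.Kt_deriv (t + 1)).comp_add_const t 1).sub (Q.Kt_deriv t)).sub (hasDerivAt_id t)
    rw [Q.per] at this
    exact this.congr_deriv (by ring)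
  have := is_const_of_deriv_eq_zero (fun t => (h t).differentiableAt) (fun t => (h t).deriv) t 0
  simp only [zero_add, sub_zero] at this
  have e : Q.Kt 0 = 0 := by simp [Kt]
  linarith

lemma three (P l t0 t1 t2 : ℝ) (hl0 : 0 < l) (hl1 : l < 1) (h01 : t0 < t1) (h12 : t1 < t2) (h20 : t2 < t0 + 1)
    (e1 : Q.Kt (P + l - t0) - Q.Kt (P - t0) + l * t0 = Q.Kt (P + l - t1) - Q.Kt (P - t1) + l * t1)
    (e2 : Q.Kt (P + l - t1) - Q.Kt (P - t1) + l * t1 = Q.Kt (P + l - t2) - Q.Kt (P - t2) + l * t2) :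
    False := by
  have d1 : ∀ t, HasDerivAt (fun t => Q.Kt (P + l - t) - Q.Kt (P - t) + l * t)
      (-Q.K (P + l - t) + Q.K (P - t) + l) t := by
    intro t
    have := (((Q.Kt_deriv (P + l - t)).comp_const_sub (P + l) t).sub
      ((Q.Kt_deriv (P - t)).comp_const_sub P t)).add ((hasDerivAt_id t).const_mul l)
    exact this.congr_deriv (by ring)
  have d2 : ∀ t, HasDerivAt (fun t => -Q.K (P + l - t) + Q.K (P - t) + l)
      (Q.κ (P + l - t) - Q.κ (P - t)) t := by
    intro t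
    have := ((((Q.der (P + l - t)).comp_const_sub (P + l) t).neg).add
      ((Q.der (P - t)).comp_const_sub P t)).add_const l
    exact this.congr_deriv (by ring)
  obtain ⟨u0, u1, u2, a, b, c, f0, f1, f2⟩ := rolle3 d1 (by
    intro t
    have a := Q.Kt_per (P + l - (t + 1))
    have b := Q.Kt_per (P - (t + 1))
    rw [show P + l - (t + 1) + 1 = P + l - t by ring] at a
    rw [show P - (t + 1) + 1 = P - t by ring] at b
    simp only
    linarith) h01 h12 h20 e1 e2
  obtain ⟨w0, w1, w2, a', b', c', g0, g1, g2⟩ := rolle3 d2 (by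
    intro t
    have a := Q.per (P + l - (t + 1))
    have b := Q.per (P - (t + 1))
    rw [show P + l - (t + 1) + 1 = P + l - t by ring] at a
    rw [show P - (t + 1) + 1 = P - t by ring] at b
    simp only
    linarith) a b c (f0.trans f1.symm) (f1.trans f2.symm)
  refine Q.uni l (P - w2) (P - w1) (P - w0) hl0 hl1 (by linarith) (by linarith) (by linarith) ?_ ?_ ?_
  · rw [show P - w2 + l = P + l - w2 by ring]; linarith
  · rw [show P - w1 + l = P + l - w1 by ring]; linarith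
  · rw [show P - w0 + l = P + l - w0 by ring]; linarith

end Kern

section
variable (B : Base) (Q : Kern)

/-- Jacobian of the inverse lift -/
def J (z y : ℝ) : ℝ := Q.K (y - B.s z) - Q.K (y - B.s (z + 1))

/-- fibre component of the inverse lift -/
noncomputable def H (z y : ℝ) : ℝ :=
  (Q.Kt (y - B.s z) - Q.Kt (y - B.s (z + 1)) - (Q.Kt (-B.s z) - Q.Kt (-B.s (z + 1)))) / B.a z

lemma J_pos (z y : ℝ) : 0 < J B Q z y :=
  sub_pos.mpr (Q.mono (by linarith [B.mono (show z < z + 1 by linarith)]))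

lemma J_sum (z y : ℝ) : ∑ j ∈ Finset.range B.k, J B Q (z + j) y = 1 := by
  have := Finset.sum_range_sub' (fun j : ℕ => Q.K (y - B.s (z + j))) B.k
  simp only [Nat.cast_add, Nat.cast_one, Nat.cast_zero, add_zero, B.per] at this
  have e := Q.per (y - (B.s z + 1))
  rw [show y - (B.s z + 1) + 1 = y - B.s z by ring] at e
  simp only [J, add_assoc]
  linarith

lemma J_lt (z y : ℝ) : J B Q z y < 1 := by
  have h := B.a_lt z
  have := Q.mono (show y - B.s z < y - B.s (z + 1) + 1 by unfold Base.a at h; linarith)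
  rw [Q.per] at this
  unfold J; linarith

lemma J_cont : Continuous fun p : ℝ × ℝ => J B Q p.1 p.2 := by
  have h1 := Q.smooth.continuous
  have h2 := B.smooth.continuous
  unfold J
  fun_prop

lemma H_smooth : ContDiff ℝ ∞ fun p : ℝ × ℝ => H B Q p.1 p.2 := by
  have h1 := Q.Kt_smooth
  have h2 := B.smooth
  have h3 := B.a_smooth
  unfold H
  refine ContDiff.div ?_ (by fun_prop) fun p => (B.a_pos _).ne'
  fun_prop

lemma H_cont : Continuous fun p : ℝ × ℝ => H B Q p.1 p.2 := (H_smooth B Q).continuous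

lemma H_deriv (z y : ℝ) : HasDerivAt (H B Q z) (J B Q z y / B.a z) y :=
  ((((Q.Kt_deriv _).comp_sub_const y _).sub ((Q.Kt_deriv _).comp_sub_const y _)).sub_const _).div_const _

lemma H_zero (z : ℝ) : H B Q z 0 = 0 := by simp [H]

lemma H_mono (z : ℝ) : StrictMono (H B Q z) :=
  strictMono_of_deriv_pos fun y => by
    rw [(H_deriv B Q z y).deriv]; exact div_pos (J_pos B Q z y) (B.a_pos z)

lemma H_per2 (z y : ℝ) : H B Q z (y + 1) = H B Q z y + 1 := by
  have a := Q.Kt_per (y - B.s z)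
  have b := Q.Kt_per (y - B.s (z + 1))
  have c := (B.a_pos z).ne'
  unfold H
  rw [show y + 1 - B.s z = y - B.s z + 1 by ring, show y + 1 - B.s (z + 1) = y - B.s (z + 1) + 1 by ring,
    a, b, div_add_one c]
  congr 1
  unfold Base.a
  ring

lemma H_one (z : ℝ) : H B Q z 1 = 1 := by
  have := H_per2 B Q z 0
  rwa [H_zero, zero_add] at this

lemma H_int (z y : ℝ) (n : ℤ) : H B Q z (y + n) = H B Q z y + n := by
  induction n using Int.induction_on with
  | zero => simp
  | succ n ih => push_cast at ih ⊢; rw [← add_assoc, H_per2, ih]; ring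
  | pred n ih =>
    push_cast at ih ⊢
    have := H_per2 B Q z (y + (-(n : ℝ) - 1))
    rw [show y + (-(n : ℝ) - 1) + 1 = y + -(n : ℝ) by ring, ih] at this
    linarith

lemma H_per1 (z y : ℝ) : H B Q (z + B.k) y = H B Q z y := by
  have a := Q.Kt_per (y - (B.s z + 1))
  have b := Q.Kt_per (y - (B.s (z + 1) + 1))
  have c := Q.Kt_per (-(B.s z + 1))
  have d := Q.Kt_per (-(B.s (z + 1) + 1))
  rw [show y - (B.s z + 1) + 1 = y - B.s z by ring] at a
  rw [show y - (B.s (z + 1) + 1) + 1 = y - B.s (z + 1) by ring] at b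
  rw [show -(B.s z + 1) + 1 = -B.s z by ring] at c
  rw [show -(B.s (z + 1) + 1) + 1 = -B.s (z + 1) by ring] at d
  unfold H
  rw [B.a_per, show z + B.k + 1 = z + 1 + B.k by ring, B.per, B.per]
  congr 1
  linarith

lemma H_cont2 (z : ℝ) : Continuous (H B Q z) := (H_cont B Q).comp (Continuous.prodMk_right z)

lemma H_surj (z : ℝ) : Function.Surjective (H B Q z) := by
  intro x
  have h1 := H_int B Q z 0 ⌊x⌋
  have h2 := H_int B Q z 0 (⌊x⌋ + 1)
  rw [H_zero, zero_add] at h1 h2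
  apply intermediate_value_univ (⌊x⌋ : ℝ) (((⌊x⌋ + 1 : ℤ) : ℝ)) (H_cont2 B Q z)
  rw [h1, h2]
  push_cast
  exact ⟨Int.floor_le x, (Int.lt_floor_add_one x).le⟩

/-- fibre component of the lift -/
noncomputable def hh (p : ℝ × ℝ) : ℝ := Function.surjInv (H_surj B Q (B.G p.1)) p.2

lemma H_hh (x y : ℝ) : H B Q (B.G x) (hh B Q (x, y)) = y := Function.surjInv_eq _ _

lemma hh_H (z y : ℝ) : hh B Q (B.Ψ z, H B Q z y) = y := by
  apply (H_mono B Q z).injective
  have := H_hh B Q (B.Ψ z) (H B Q z y)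
  rwa [B.G_Ψ] at this

lemma hh_per1 (x y : ℝ) : hh B Q (x + 1, y) = hh B Q (x, y) := by
  apply (H_mono B Q (B.G x)).injective
  have := H_hh B Q (x + 1) y
  rw [B.G_per, H_per1] at this
  rw [this, H_hh]

lemma hh_per2 (x y : ℝ) : hh B Q (x, y + 1) = hh B Q (x, y) + 1 := by
  apply (H_mono B Q (B.G x)).injective
  rw [H_per2, H_hh, H_hh]

/-- the inverse lift as an equivalence -/
noncomputable def Φ : ℝ × ℝ ≃ ℝ × ℝ where
  toFun p := (B.Ψ p.1, H B Q p.1 p.2)
  invFun p := (B.G p.1, hh B Q p)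
  left_inv p := by simp only [B.G_Ψ, hh_H]
  right_inv p := Prod.ext (B.Ψ_G _) (H_hh B Q p.1 p.2)

lemma fderiv_snd {f : ℝ × ℝ → ℝ} (hf : Differentiable ℝ f) (x y : ℝ) :
    HasDerivAt (fun y => f (x, y)) (fderiv ℝ f (x, y) (0, 1)) y :=
  (hf (x, y)).hasFDerivAt.comp_hasDerivAt y ((hasDerivAt_const y x).prodMk (hasDerivAt_id y))

lemma hh_smooth : ContDiff ℝ ∞ (hh B Q) := by
  have hs : ContDiff ℝ ∞ (Φ B Q) := (B.Ψ_smooth.comp contDiff_fst).prodMk (H_smooth B Q)
  have hd := (H_smooth B Q).differentiable (by simp)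
  have hder : ∀ p, HasFDerivAt (Φ B Q) ((B.a p.1 • ContinuousLinearMap.fst ℝ ℝ ℝ).prod
      (fderiv ℝ (fun p : ℝ × ℝ => H B Q p.1 p.2) p)) p := fun p =>
    ((B.Ψ_deriv p.1).comp_hasFDerivAt p hasFDerivAt_fst).prodMk (hd p).hasFDerivAt
  have hinj : ∀ p : ℝ × ℝ, Function.Injective ((B.a p.1 • ContinuousLinearMap.fst ℝ ℝ ℝ).prod
      (fderiv ℝ (fun p : ℝ × ℝ => H B Q p.1 p.2) p)) := by
    rintro ⟨z, y⟩
    rw [injective_iff_map_eq_zero]
    rintro ⟨v, w⟩ h
    have h1 : B.a z * v = 0 := congrArg Prod.fst h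
    have h2 : fderiv ℝ (fun p : ℝ × ℝ => H B Q p.1 p.2) (z, y) (v, w) = 0 := congrArg Prod.snd h
    have hv : v = 0 := (mul_eq_zero.mp h1).resolve_left (B.a_pos z).ne'
    subst hv
    have e : ((0 : ℝ), w) = w • ((0 : ℝ), (1 : ℝ)) := by simp
    rw [e, map_smul, (fderiv_snd hd z y).unique (H_deriv B Q z y), smul_eq_mul] at h2
    have hw : w = 0 := (mul_eq_zero.mp h2).resolve_right (div_pos (J_pos B Q z y) (B.a_pos z)).ne'
    rw [hw]; rfl
  let D : ℝ × ℝ → (ℝ × ℝ) ≃L[ℝ] (ℝ × ℝ) := fun p =>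
    (LinearEquiv.ofInjectiveEndo ((B.a p.1 • ContinuousLinearMap.fst ℝ ℝ ℝ).prod
      (fderiv ℝ (fun p : ℝ × ℝ => H B Q p.1 p.2) p)).toLinearMap (hinj p)).toContinuousLinearEquiv
  have hD : ∀ p, HasFDerivAt (Φ B Q) (D p : (ℝ × ℝ) →L[ℝ] (ℝ × ℝ)) p := fun p => hder p
  have ho : IsOpenMap (Φ B Q) := isOpenMap_of_hasStrictFDerivAt_equiv (f' := D) fun p =>
    hs.contDiffAt.hasStrictFDerivAt' (hD p) (by simp)
  have := ((Φ B Q).toHomeomorphOfContinuousOpen hs.continuous ho).contDiff_symm hD hs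
  exact contDiff_snd.comp this

lemma hh_deriv (x y : ℝ) : HasDerivAt (fun y => hh B Q (x, y))
    (J B Q (B.G x) (hh B Q (x, y)) / B.a (B.G x))⁻¹ y :=
  HasDerivAt.of_local_left_inverse
    ((hh_smooth B Q).continuous.comp (Continuous.prodMk_right x)).continuousAt (H_deriv B Q _ _)
    (div_pos (J_pos B Q _ _) (B.a_pos _)).ne' (Eventually.of_forall (H_hh B Q x))

lemma fib_cv (w : ℝ → ℝ) (z P R : ℝ) :
    B.a z * ∫ y in H B Q z P..H B Q z R, w (hh B Q (B.Ψ z, y)) = ∫ y in P..R, J B Q z y * w y := by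
  have := integral_comp_mul_deriv_of_deriv_nonneg (a := P) (b := R) (f := H B Q z)
    (f' := fun y => J B Q z y / B.a z) (g := fun y => w (hh B Q (B.Ψ z, y))) (H_cont2 B Q z).continuousOn
    (fun y _ => H_deriv B Q z y) (fun y _ => (div_pos (J_pos B Q z y) (B.a_pos z)).le)
  rw [← this, ← intervalIntegral.integral_const_mul]
  refine integral_congr fun y _ => ?_
  have := (B.a_pos z).ne'
  simp only [Function.comp, hh_H]
  field_simp

lemma J_BM (z : ℝ) : BM (J B Q z) :=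
  ⟨((J_cont B Q).comp (Continuous.prodMk_right z)).measurable, 1, fun y =>
    abs_le.mpr ⟨by linarith [J_pos B Q z y], (J_lt B Q z y).le⟩⟩

lemma recur {v : ℝ → ℝ → ℝ} (hv : BM2 v) (hp : ∀ x y, v (x + 1) y = v x y) (z P R : ℝ) :
    ∑ j ∈ Finset.range B.k, B.a (z + j) * ∫ y in H B Q (z + j) P..H B Q (z + j) R,
      v (B.G (B.Ψ (z + j))) (hh B Q (B.Ψ (z + j), y)) = ∫ y in P..R, v z y := by
  have e : ∀ (j : ℕ) y, v (z + j) y = v z y := fun j y => by
    simpa using Function.Periodic.nat_mul (f := fun x => v x y) (fun x => hp x y) j z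
  simp only [B.G_Ψ, e, fib_cv B Q (v z)]
  rw [← integral_finsetSum fun j _ => ((J_BM B Q _).mul (hv.right z)).ii _ _]
  simp only [← Finset.sum_mul, J_sum, one_mul]

lemma pull_BM2 {v : ℝ → ℝ → ℝ} (hv : BM2 v) : BM2 fun x y => v (B.G x) (hh B Q (x, y)) :=
  ⟨hv.1.comp ((B.G_cont.measurable.comp measurable_fst).prodMk (hh_smooth B Q).continuous.measurable),
    hv.2.imp fun _ hC _ _ => hC _ _⟩

lemma skew_cv {v : ℝ → ℝ → ℝ} : ∫ x in (0 : ℝ)..1, ∫ y in (0 : ℝ)..1, v (B.G x) (hh B Q (x, y))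
      = ∫ z in (0 : ℝ)..B.k, ∫ y in (0 : ℝ)..1, J B Q z y * v z y := by
  have := B.cv0 fun z => ∫ y in (0 : ℝ)..1, v z (hh B Q (B.Ψ z, y))
  simp only [B.Ψ_G] at this
  rw [this]
  refine integral_congr fun z _ => ?_
  have := fib_cv B Q (v z) z 0 1
  rwa [H_zero, H_one] at this

lemma skew_mp {v : ℝ → ℝ → ℝ} (hv : BM2 v) (hp : ∀ x y, v (x + 1) y = v x y) :
    ∫ x in (0 : ℝ)..1, ∫ y in (0 : ℝ)..1, v (B.G x) (hh B Q (x, y))
      = ∫ x in (0 : ℝ)..1, ∫ y in (0 : ℝ)..1, v x y := by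
  have h0 : BM fun x => ∫ y in (0 : ℝ)..1, v (B.G x) (hh B Q (x, y)) :=
    (pull_BM2 B Q hv).int (D := 1) measurable_const measurable_const (by simp)
  have := B.cv _ (h0.comp B.Ψ_cont.measurable)
  simp only [B.Ψ_G] at this
  rw [this]
  refine integral_congr fun z _ => ?_
  have := recur B Q hv hp z 0 1
  simp only [H_zero, H_one] at this
  exact this

/-- iterated inverse fibre maps -/
noncomputable def Hn : ℕ → ℝ → ℝ → ℝ
  | 0, _, y => y
  | n + 1, x, y => H B Q (B.G x) (Hn n (B.G x) y)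

lemma Hn_cont (n : ℕ) (y : ℝ) : Continuous fun x => Hn B Q n x y := by
  induction n with
  | zero => exact continuous_const
  | succ n ih => exact (H_cont B Q).comp (B.G_cont.prodMk (ih.comp B.G_cont))

lemma Hn_per1 (n : ℕ) (y : ℝ) : Function.Periodic (fun x => Hn B Q n x y) 1 := by
  induction n with
  | zero => exact fun _ => rfl
  | succ n ih =>
    intro x
    have := B.per_comp_G ih x
    simp only [Hn] at this ⊢
    rw [this, B.G_per, H_per1]

lemma Hn_nat (n : ℕ) (x y : ℝ) (j : ℕ) : Hn B Q n (x + j) y = Hn B Q n x y := by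
  simpa using (Hn_per1 B Q n y).nat_mul j x

lemma H_len (z P R : ℝ) (h : R - P ∈ Icc (0 : ℝ) 1) : H B Q z R - H B Q z P ∈ Icc (0 : ℝ) 1 := by
  have a := (H_mono B Q z).monotone (show P ≤ R by linarith [h.1])
  have b := (H_mono B Q z).monotone (show R ≤ P + 1 by linarith [h.2])
  rw [H_per2] at b
  constructor <;> linarith

lemma Hn_len (n : ℕ) (P R : ℝ) (h : R - P ∈ Icc (0 : ℝ) 1) (x : ℝ) :
    Hn B Q n x R - Hn B Q n x P ∈ Icc (0 : ℝ) 1 := by
  induction n generalizing x with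
  | zero => exact h
  | succ n ih => exact H_len B Q _ _ _ (ih _)

lemma abs_le_one_of_mem {t : ℝ} (h : t ∈ Icc (0 : ℝ) 1) : |t| ≤ 1 := abs_le.mpr ⟨by linarith [h.1], h.2⟩

lemma transport {v : ℝ → ℝ → ℝ} (hv : BM2 v) (hp : ∀ x y, v (x + 1) y = v x y)
    (hinv : ∀ x y, v (B.G x) (hh B Q (x, y)) = v x y) {ψ : ℝ → ℝ} (hψ : BM ψ)
    (hψp : Function.Periodic ψ 1) (P R : ℝ) (h : R - P ∈ Icc (0 : ℝ) 1) (n : ℕ) :
    ∫ x in (0 : ℝ)..1, ψ (B.G^[n] x) * ∫ y in Hn B Q n x P..Hn B Q n x R, v x y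
      = ∫ x in (0 : ℝ)..1, ψ x * ∫ y in P..R, v x y := by
  induction n with
  | zero => rfl
  | succ n ih =>
    rw [← ih]
    have hv' : BM2 fun z y => v (B.Ψ z) y :=
      ⟨hv.1.comp ((B.Ψ_cont.measurable.comp measurable_fst).prodMk measurable_snd),
        hv.2.imp fun _ hC _ _ => hC _ _⟩
    have hc : ∀ y, Measurable fun z => H B Q z (Hn B Q n z y) := fun y =>
      ((H_cont B Q).comp (continuous_id.prodMk (Hn_cont B Q n y))).measurable
    have hW : BM fun z => ψ (B.G^[n] z) *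
        ∫ y in H B Q z (Hn B Q n z P)..H B Q z (Hn B Q n z R), v (B.Ψ z) y :=
      (hψ.comp (B.G_cont.iterate n).measurable).mul (hv'.int (D := 1) (hc P) (hc R) fun z =>
        abs_le_one_of_mem (H_len B Q _ _ _ (Hn_len B Q n P R h z)))
    have := B.cv _ hW
    simp only [B.Ψ_G] at this
    refine Eq.trans this (integral_congr fun z _ => ?_)
    have e := recur B Q hv hp z (Hn B Q n z P) (Hn B Q n z R)
    simp only [hinv] at e
    have e2 : ∀ j : ℕ, ψ (B.G^[n] (z + j)) = ψ (B.G^[n] z) := fun j => by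
      simpa using (B.per_comp_iter hψp n).nat_mul j z
    simp only [Hn_nat, e2]
    rw [← e, Finset.mul_sum]
    exact Finset.sum_congr rfl fun j _ => by ring

lemma mean_len (z P R : ℝ) :
    ∑ j ∈ Finset.range B.k, B.a (z + j) * (H B Q (z + j) R - H B Q (z + j) P) = R - P := by
  have := recur B Q (v := fun _ _ => 1) ⟨measurable_const, 1, by simp⟩ (fun _ _ => rfl) z P R
  simpa using this

lemma var_pos (z P l : ℝ) (hl0 : 0 < l) (hl1 : l < 1) :
    0 < ∑ j ∈ Finset.range B.k, B.a (z + j) * (H B Q (z + j) (P + l) - H B Q (z + j) P - l) ^ 2 := by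
  have hnn : ∀ j ∈ Finset.range B.k,
      0 ≤ B.a (z + j) * (H B Q (z + j) (P + l) - H B Q (z + j) P - l) ^ 2 :=
    fun j _ => mul_nonneg (B.a_pos _).le (sq_nonneg _)
  refine (Finset.sum_nonneg hnn).lt_of_ne' fun h0 => ?_
  rw [Finset.sum_eq_zero_iff_of_nonneg hnn] at h0
  have hk := B.hk
  have key : ∀ j : ℕ, j < B.k → Q.Kt (P + l - B.s (z + j)) - Q.Kt (P - B.s (z + j)) + l * B.s (z + j)
      = Q.Kt (P + l - B.s (z + j + 1)) - Q.Kt (P - B.s (z + j + 1)) + l * B.s (z + j + 1) := by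
    intro j hj
    have a := h0 j (Finset.mem_range.mpr hj)
    have b := (B.a_pos (z + j)).ne'
    have c : H B Q (z + j) (P + l) - H B Q (z + j) P - l = 0 :=
      pow_eq_zero_iff two_ne_zero |>.mp ((mul_eq_zero.mp a).resolve_left b)
    unfold H at c
    rw [← sub_div, sub_eq_zero, div_eq_iff b] at c
    unfold Base.a at c
    linarith
  have k0 := key 0 (by omega)
  have k1 := key 1 (by omega)
  simp only [Nat.cast_zero, add_zero, Nat.cast_one] at k0 k1
  have h3 : (3 : ℝ) ≤ B.k := by exact_mod_cast hk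
  refine Q.three P l (B.s z) (B.s (z + 1)) (B.s (z + 1 + 1)) hl0 hl1 (B.mono (by linarith))
    (B.mono (by linarith)) ?_ k0 k1
  rw [← B.per]
  exact B.mono (by linarith)

lemma var_unif {η : ℝ} (hη : 0 < η) : ∃ δ : ℝ, 0 < δ ∧ δ ≤ 1 ∧ ∀ z ∈ Icc (0 : ℝ) 1, ∀ P l : ℝ, l ∈ Icc η (1 - η) →
    δ ≤ ∑ j ∈ Finset.range B.k, B.a (z + j) * (H B Q (z + j) (P + l) - H B Q (z + j) P - l) ^ 2 := by
  have hc : IsCompact (Icc (0 : ℝ) 1 ×ˢ Icc (0 : ℝ) 1 ×ˢ Icc η (1 - η)) :=
    isCompact_Icc.prod (isCompact_Icc.prod isCompact_Icc)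
  have h1 := H_cont B Q
  have h2 := B.a_cont
  have hf : Continuous fun p : ℝ × ℝ × ℝ => ∑ j ∈ Finset.range B.k,
      B.a (p.1 + j) * (H B Q (p.1 + j) (p.2.1 + p.2.2) - H B Q (p.1 + j) p.2.1 - p.2.2) ^ 2 := by
    refine continuous_finsetSum _ fun j _ => (h2.comp (by fun_prop)).mul (Continuous.pow ?_ 2)
    refine Continuous.sub (Continuous.sub ?_ ?_) (by fun_prop)
    · exact h1.comp (show Continuous fun p : ℝ × ℝ × ℝ => (p.1 + j, p.2.1 + p.2.2) by fun_prop)
    · exact h1.comp (show Continuous fun p : ℝ × ℝ × ℝ => (p.1 + j, p.2.1) by fun_prop)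
  obtain ⟨δ, hδ, h⟩ := hc.exists_forall_le' hf.continuousOn (a := 0) fun p hp =>
    var_pos B Q p.1 p.2.1 p.2.2 (by linarith [hp.2.2.1]) (by linarith [hp.2.2.2])
  refine ⟨min δ 1, lt_min hδ one_pos, min_le_right _ _, fun z hz P l hl => (min_le_left _ _).trans ?_⟩
  have := h (z, Int.fract P, l) ⟨hz, ⟨Int.fract_nonneg P, (Int.fract_lt_one P).le⟩, hl⟩
  refine this.trans (le_of_eq (Finset.sum_congr rfl fun j _ => ?_))
  have a := H_int B Q (z + j) (Int.fract P + l) ⌊P⌋
  have b := H_int B Q (z + j) (Int.fract P) ⌊P⌋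
  rw [show Int.fract P + l + ⌊P⌋ = P + l by rw [add_right_comm, Int.fract_add_floor]] at a
  rw [Int.fract_add_floor] at b
  simp only [a, b]
  ring

lemma sync (P R : ℝ) (h : R - P ∈ Icc (0 : ℝ) 1) {ε : ℝ} (hε : 0 < ε) : ∃ n : ℕ,
    ∫ x in (0 : ℝ)..1, (Hn B Q n x R - Hn B Q n x P) * (1 - (Hn B Q n x R - Hn B Q n x P)) ≤ ε := by
  obtain ⟨δ, hδ0, hδ1, hδ⟩ := var_unif B Q (half_pos hε)
  have hb : ∀ t ∈ Icc (0 : ℝ) 1, |t * (1 - t)| ≤ 1 := fun t ht =>
    abs_le.mpr ⟨by nlinarith [ht.1, ht.2], by nlinarith [ht.1, ht.2]⟩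
  have hΘ : ∀ n, BM fun x => (Hn B Q n x R - Hn B Q n x P) * (1 - (Hn B Q n x R - Hn B Q n x P)) := by
    intro n
    have a := Hn_cont B Q n R
    have b := Hn_cont B Q n P
    exact ⟨Continuous.measurable (by fun_prop), 1, fun x => hb _ (Hn_len B Q n P R h x)⟩
  set E : ℕ → ℝ := fun n =>
    ∫ x in (0 : ℝ)..1, (Hn B Q n x R - Hn B Q n x P) * (1 - (Hn B Q n x R - Hn B Q n x P)) with hE
  have step : ∀ n, E (n + 1) ≤ (1 - δ) * E n + δ * (ε / 2) := by
    intro n
    have hc : ∀ y, Continuous fun z => H B Q z (Hn B Q n z y) := fun y =>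
      (H_cont B Q).comp (continuous_id.prodMk (Hn_cont B Q n y))
    have hW : BM fun z => (H B Q z (Hn B Q n z R) - H B Q z (Hn B Q n z P))
        * (1 - (H B Q z (Hn B Q n z R) - H B Q z (Hn B Q n z P))) := by
      have a := hc R
      have b := hc P
      exact ⟨Continuous.measurable (by fun_prop), 1, fun x => hb _ (H_len B Q _ _ _ (Hn_len B Q n P R h x))⟩
    have e := B.cv _ hW
    have e2 : (1 - δ) * E n + δ * (ε / 2) = ∫ x in (0 : ℝ)..1, ((1 - δ) *
        ((Hn B Q n x R - Hn B Q n x P) * (1 - (Hn B Q n x R - Hn B Q n x P))) + δ * (ε / 2)) := by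
      rw [integral_add (((BM.const _).mul (hΘ n)).ii _ _) ((BM.const _).ii _ _),
        intervalIntegral.integral_const_mul]
      simp [hE]
    rw [e2]
    refine le_of_eq_of_le e (integral_mono_on zero_le_one ?_ ?_ ?_)
    · exact (BM.sum _ fun j _ => (B.a_BM.comp (measurable_add_const _)).mul
        (hW.comp (measurable_add_const _))).ii _ _
    · exact (((BM.const _).mul (hΘ n)).add (BM.const _)).ii _ _
    · intro z hz
      simp only [Hn_nat]
      have hl := Hn_len B Q n P R h z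
      generalize Hn B Q n z R = R' at hl ⊢
      generalize Hn B Q n z P = P' at hl ⊢
      obtain ⟨l, rfl⟩ : ∃ l, R' = P' + l := ⟨R' - P', by ring⟩
      rw [add_sub_cancel_left] at hl ⊢
      have m := mean_len B Q z P' (P' + l)
      rw [add_sub_cancel_left] at m
      have s := B.a_sum z
      have e3 : ∑ j ∈ Finset.range B.k, B.a (z + j) * ((H B Q (z + j) (P' + l) - H B Q (z + j) P')
          * (1 - (H B Q (z + j) (P' + l) - H B Q (z + j) P'))) = l * (1 - l) -
          ∑ j ∈ Finset.range B.k, B.a (z + j) * (H B Q (z + j) (P' + l) - H B Q (z + j) P' - l) ^ 2 := by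
        have : ∀ j : ℕ, B.a (z + j) * ((H B Q (z + j) (P' + l) - H B Q (z + j) P')
          * (1 - (H B Q (z + j) (P' + l) - H B Q (z + j) P'))) =
          (1 - 2 * l) * (B.a (z + j) * (H B Q (z + j) (P' + l) - H B Q (z + j) P')) + l ^ 2 * B.a (z + j)
          - B.a (z + j) * (H B Q (z + j) (P' + l) - H B Q (z + j) P' - l) ^ 2 := fun j => by ring
        simp only [this, Finset.sum_sub_distrib, Finset.sum_add_distrib, ← Finset.mul_sum, m, s]
        ring
      rw [e3]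
      have hnn : 0 ≤ ∑ j ∈ Finset.range B.k,
          B.a (z + j) * (H B Q (z + j) (P' + l) - H B Q (z + j) P' - l) ^ 2 :=
        Finset.sum_nonneg fun j _ => mul_nonneg (B.a_pos _).le (sq_nonneg _)
      by_cases hm : l ∈ Icc (ε / 2) (1 - ε / 2)
      · have := hδ z hz P' l hm
        have t : l * (1 - l) - ε / 2 ≤ 1 := by nlinarith [hl.1, hl.2]
        nlinarith
      · have t : l * (1 - l) ≤ ε / 2 := by
          rw [mem_Icc, not_and_or, not_le, not_le] at hm
          rcases hm with hm | hm <;> nlinarith [hl.1, hl.2]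
        nlinarith
  have bd : ∀ n, E n ≤ (1 - δ) ^ n * |E 0| + ε / 2 := by
    intro n
    induction n with
    | zero => simp only [pow_zero, one_mul]; linarith [le_abs_self (E 0)]
    | succ n ih =>
      have := mul_le_mul_of_nonneg_left ih (show 0 ≤ 1 - δ by linarith)
      rw [pow_succ]
      nlinarith [step n]
  obtain ⟨n, hn⟩ := exists_pow_lt_of_lt_one (show 0 < ε / 2 / (|E 0| + 1) by positivity)
    (show 1 - δ < 1 by linarith)
  refine ⟨n, (bd n).trans ?_⟩
  rw [lt_div_iff₀ (by positivity)] at hn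
  have := pow_nonneg (show 0 ≤ 1 - δ by linarith) n
  nlinarith

lemma arc_bound {w : ℝ → ℝ} (hw : BM w) (h01 : ∀ y, w y = 0 ∨ w y = 1) (hp : Function.Periodic w 1)
    {c : ℝ} (hc : ∫ y in (0 : ℝ)..1, w y = c) (P R : ℝ) (h : R - P ∈ Icc (0 : ℝ) 1) :
    |∫ y in P..R, (w y - c)| ≤ 2 * ((R - P) * (1 - (R - P))) := by
  have h0 : ∀ y, 0 ≤ w y := fun y => by rcases h01 y with e | e <;> simp [e]
  have h1 : ∀ y, w y ≤ 1 := fun y => by rcases h01 y with e | e <;> simp [e]
  have hc0 : 0 ≤ c := hc ▸ integral_nonneg zero_le_one fun y _ => h0 y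
  have hc1 : c ≤ 1 := by
    have := integral_mono_on zero_le_one (hw.ii 0 1) ((BM.const 1).ii 0 1) fun y _ => h1 y
    simpa [hc] using this
  have hv : BM fun y => w y - c := hw.sub (BM.const c)
  have hb : ∀ y, ‖w y - c‖ ≤ 1 := fun y => abs_le.mpr ⟨by linarith [h0 y], by linarith [h1 y]⟩
  have a := norm_integral_le_of_norm_le_const (a := P) (b := R) fun y _ => hb y
  have b := norm_integral_le_of_norm_le_const (a := R) (b := P + 1) fun y _ => hb y
  have e : (∫ y in P..R, (w y - c)) + ∫ y in R..P + 1, (w y - c) = 0 := by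
    rw [integral_add_adjacent_intervals (hv.ii _ _) (hv.ii _ _),
      integral_sub (hw.ii _ _) ((BM.const c).ii _ _), hp.intervalIntegral_add_eq P 0, zero_add, hc]
    simp
  rw [Real.norm_eq_abs, one_mul, abs_of_nonneg h.1] at a
  rw [Real.norm_eq_abs, one_mul, abs_of_nonneg (show 0 ≤ P + 1 - R by linarith [h.2]),
    ← neg_eq_of_add_eq_zero_right e, abs_neg] at b
  rcases le_total (R - P) (1 / 2) with t | t <;> nlinarith [h.1, h.2]

/-- ergodicity of the skew product, on lifts -/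
lemma skew_erg {u : ℝ → ℝ → ℝ} (hm : Measurable (Function.uncurry u)) (h01 : ∀ x y, u x y = 0 ∨ u x y = 1)
    (hp1 : ∀ x y, u (x + 1) y = u x y) (hp2 : ∀ x y, u x (y + 1) = u x y)
    (hinv : ∀ x y, u (B.G x) (hh B Q (x, y)) = u x y) :
    ∫ x in (0 : ℝ)..1, ∫ y in (0 : ℝ)..1, u x y = 0 ∨ ∫ x in (0 : ℝ)..1, ∫ y in (0 : ℝ)..1, u x y = 1 := by
  have hu : BM2 u := ⟨hm, 1, fun x y => by rcases h01 x y with e | e <;> simp [e]⟩
  set c := ∫ x in (0 : ℝ)..1, ∫ y in (0 : ℝ)..1, u x y with hc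
  have hmc : ∀ᵐ x, x ∈ Ioo (0 : ℝ) 1 → ∫ y in (0 : ℝ)..1, u x y = c := by
    refine B.fixed_const (hu.int (D := 1) measurable_const measurable_const (by simp))
      (fun x => by simp only [hp1]) fun z => ?_
    have := recur B Q hu hp1 z 0 1
    simp only [H_zero, H_one, hinv] at this
    exact this
  have hv : BM2 fun x y => u x y - c := by
    obtain ⟨C, hC⟩ := hu.2
    exact ⟨hm.sub measurable_const, C + |c|, fun x y => (abs_sub _ _).trans (by linarith [hC x y])⟩
  have key : ∀ q : ℝ, q ∈ Ioo (0 : ℝ) 1 → ∀ᵐ x, x ∈ Ioo (0 : ℝ) 1 → ∫ y in (0 : ℝ)..q, (u x y - c) = 0 := by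
    intro q hq
    have hq' : q - 0 ∈ Icc (0 : ℝ) 1 := by rw [sub_zero]; exact Ioo_subset_Icc_self hq
    have hN : BM fun x => ∫ y in (0 : ℝ)..q, (u x y - c) :=
      hv.int (D := 1) measurable_const measurable_const fun _ => abs_le_one_of_mem hq'
    obtain ⟨C, hC⟩ := hN.2
    have hC0 : 0 ≤ C := (abs_nonneg _).trans (hC 0)
    have e0 : ∫ x in (0 : ℝ)..1, (∫ y in (0 : ℝ)..q, (u x y - c)) * ∫ y in (0 : ℝ)..q, (u x y - c) = 0 := by
      refine le_antisymm (le_of_forall_pos_le_add fun ε hε => ?_)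
        (integral_nonneg zero_le_one fun x _ => mul_self_nonneg _)
      obtain ⟨n, hn⟩ := sync B Q 0 q hq' (show 0 < ε / (2 * C + 1) by positivity)
      rw [← transport B Q hv (fun x y => by simp only [hp1]) (fun x y => by simp only [hinv]) hN
        (fun x => by simp only [hp1]) 0 q hq' n, zero_add]
      have a := Hn_cont B Q n q
      have b := Hn_cont B Q n 0
      have hI : ∫ x in (0 : ℝ)..1, (∫ y in (0 : ℝ)..q, (u (B.G^[n] x) y - c)) *
          ∫ y in Hn B Q n x 0..Hn B Q n x q, (u x y - c) ≤ ∫ x in (0 : ℝ)..1, (2 * C) *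
          ((Hn B Q n x q - Hn B Q n x 0) * (1 - (Hn B Q n x q - Hn B Q n x 0))) := by
        refine integral_mono_ae_restrict zero_le_one ?_ ?_ ?_
        · exact ((hN.comp (B.G_cont.iterate n).measurable).mul (hv.int (D := 1) b.measurable a.measurable
            fun x => abs_le_one_of_mem (Hn_len B Q n 0 q hq' x))).ii _ _
        · exact Continuous.intervalIntegrable (by fun_prop) _ _
        · rw [← Measure.restrict_congr_set Ioo_ae_eq_Icc, EventuallyLE, ae_restrict_iff' measurableSet_Ioo]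
          filter_upwards [hmc] with x hx hx'
          have t := arc_bound (hu.right x) (h01 x) (hp2 x) (hx hx') _ _ (Hn_len B Q n 0 q hq' x)
          refine (le_abs_self _).trans ?_
          rw [abs_mul]
          refine (mul_le_mul (hC _) t (abs_nonneg _) hC0).trans (le_of_eq ?_)
          ring
      rw [intervalIntegral.integral_const_mul] at hI
      refine hI.trans ((mul_le_mul_of_nonneg_left hn (by positivity)).trans ?_)
      rw [← mul_div_assoc, div_le_iff₀ (by positivity)]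
      nlinarith
    rw [integral_eq_zero_iff_of_le_of_nonneg_ae zero_le_one
      (Eventually.of_forall fun x => mul_self_nonneg _) ((hN.mul hN).ii _ _),
      EventuallyEq, ae_restrict_iff' measurableSet_Ioc] at e0
    filter_upwards [e0] with x hx hx'
    exact mul_self_eq_zero.mp (hx (Ioo_subset_Ioc_self hx'))
  have key2 : ∀ᵐ x, x ∈ Ioo (0 : ℝ) 1 → ∀ q : ℚ, (q : ℝ) ∈ Ioo (0 : ℝ) 1 →
      ∫ y in (0 : ℝ)..q, (u x y - c) = 0 := by
    have : ∀ᵐ x, ∀ q : ℚ, (q : ℝ) ∈ Ioo (0 : ℝ) 1 → x ∈ Ioo (0 : ℝ) 1 →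
        ∫ y in (0 : ℝ)..q, (u x y - c) = 0 := by
      rw [ae_all_iff]
      intro q
      by_cases hq : (q : ℝ) ∈ Ioo (0 : ℝ) 1
      · filter_upwards [key q hq] with x hx _ using hx
      · exact Eventually.of_forall fun x h => absurd h hq
    filter_upwards [this] with x hx a q b using hx q b a
  obtain ⟨x, hx⟩ := Base.exists_of_ae key2
  have hcont : Continuous fun t => ∫ y in (0 : ℝ)..t, (u x y - c) :=
    continuous_primitive (fun a b => (hv.right x).ii a b) 0
  have hz : ∀ t ∈ Ioo (0 : ℝ) 1, ∫ y in (0 : ℝ)..t, (u x y - c) = 0 := by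
    intro t ht
    have := Rat.denseRange_cast.open_subset_closure_inter isOpen_Ioo ht
    refine closure_minimal (t := {t | ∫ y in (0 : ℝ)..t, (u x y - c) = 0}) ?_
      (isClosed_eq hcont continuous_const) this
    rintro _ ⟨h, q, rfl⟩
    exact hx q h
  have hd : ∀ᵐ t, t ∈ Ioo (0 : ℝ) 1 → u x t = c := by
    filter_upwards [((hv.right x).ii 0 1).ae_hasDerivAt_integral] with t ht ht'
    have a := ht (by rw [uIcc_of_le zero_le_one]; exact Ioo_subset_Icc_self ht') 0 left_mem_uIcc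
    have b : HasDerivAt (fun t => ∫ y in (0 : ℝ)..t, (u x y - c)) 0 t :=
      (hasDerivAt_const t (0 : ℝ)).congr_of_eventuallyEq
        (eventually_of_mem (isOpen_Ioo.mem_nhds ht') hz)
    exact sub_eq_zero.mp (a.unique b)
  obtain ⟨t, ht⟩ := Base.exists_of_ae hd
  rw [← ht]
  exact h01 x t

end

end Pool.Agent.H472Z.Flex
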