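import Mathlib

set_option autoImplicit false

namespace Pool.Agent.H472Z.LinAbs

/-- parity lemma: a symmetric, total, functional relation on the classes of `A` inside `X`. -/
theorem parity {B : Type} [Finite B] (A : Setoid B) (X : B → Prop) (T : B → B → Prop)
    (hT : ∀ x y x' y', T x y → A.r x x' → A.r y y' → T x' y')
    (tot : ∀ x, X x → ∃ y, X y ∧ T x y)
    (func : ∀ x y y', X x → X y → X y' → T x y → T x y' → A.r y y')
    (symm : ∀ x y, X x → X y → T x y → T y x) :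
    Nat.card {q : Quotient A // ∃ x, X x ∧ Quotient.mk A x = q} ≡
      Nat.card {q : {q : Quotient A // ∃ x, X x ∧ Quotient.mk A x = q} //
        ∃ x, X x ∧ Quotient.mk A x = q.1 ∧ T x x} [MOD 2] := by
  classical
  have h1 : ∀ q : {q : Quotient A // ∃ x, X x ∧ Quotient.mk A x = q},
      ∃ q' : {q : Quotient A // ∃ x, X x ∧ Quotient.mk A x = q},
      ∃ x y, X x ∧ X y ∧ Quotient.mk A x = q.1 ∧
      Quotient.mk A y = q'.1 ∧ T x y := by
    rintro ⟨q, x, hx, rfl⟩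
    obtain ⟨y, hy, hxy⟩ := tot x hx
    exact ⟨⟨Quotient.mk A y, y, hy, rfl⟩, x, y, hx, hy, rfl, rfl, hxy⟩
  choose f hf using h1
  have key : ∀ (q q' : {q : Quotient A // ∃ x, X x ∧ Quotient.mk A x = q}) x y,
      X x → X y → Quotient.mk A x = q.1 → Quotient.mk A y = q'.1 →
      T x y → f q = q' := by
    intro q q' x y hx hy hq hq' hxy
    obtain ⟨x1, y1, hx1, hy1, e1, e2, h⟩ := hf q
    have hxx : A.r x1 x := Quotient.exact (e1.trans hq.symm)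
    have h' : T x y1 := hT _ _ _ _ h hxx (A.refl' _)
    have := func x y1 y hx hy1 hy h' hxy
    apply Subtype.ext
    rw [← e2, ← hq']
    exact Quotient.sound this
  have hinv : Function.Involutive f := by
    intro q
    obtain ⟨x1, y1, hx1, hy1, e1, e2, h⟩ := hf q
    exact key _ _ y1 x1 hy1 hx1 e2 e1 (symm _ _ hx1 hy1 h)
  haveI : Fintype {q : Quotient A // ∃ x, X x ∧ Quotient.mk A x = q} := Fintype.ofFinite _
  haveI : Fact (Nat.Prime 2) := ⟨Nat.prime_two⟩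
  let F : Function.End {q : Quotient A // ∃ x, X x ∧ Quotient.mk A x = q} := f
  have hpow : F ^ 2 ^ 1 = 1 := by
    funext q
    simp only [pow_one, pow_two]
    exact hinv q
  have := Equiv.Perm.card_fixedPoints_modEq (p := 2) (n := 1) (f := F) hpow
  rw [Nat.card_eq_fintype_card]
  refine this.trans ?_
  rw [← Nat.card_eq_fintype_card]
  have e : Nat.card (Function.fixedPoints F) =
      Nat.card {q : {q : Quotient A // ∃ x, X x ∧ Quotient.mk A x = q} //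
        ∃ x, X x ∧ Quotient.mk A x = q.1 ∧ T x x} := by
    apply Nat.card_congr
    apply Equiv.subtypeEquivRight
    intro q
    constructor
    · intro hq
      have hq' : f q = q := hq
      obtain ⟨x1, y1, hx1, hy1, e1, e2, h⟩ := hf q
      rw [hq'] at e2
      have hxx : A.r y1 x1 := Quotient.exact (e2.trans e1.symm)
      exact ⟨x1, hx1, e1, hT _ _ _ _ h (A.refl' _) hxx⟩
    · rintro ⟨x, hx, e1, h⟩
      exact key q q x x hx hx e1 e1 h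
  rw [e]

variable {L : Type} [Lattice L] {B : Type}

/-- the abstract obstruction -/
theorem obstruction [Finite B] (g : LatticeHom L (Setoid B))
    (hg : ∀ (x y : L) (a b : B), (g (x ⊔ y)).r a b ↔ ∃ c : B, (g x).r a c ∧ (g y).r c b)
    (a b e1 e2 e3 e12 e13 e23 e123 d2 d3 m12 p12 m13 p13 m23 p23 : L)
    (h1 : b ≤ a ⊔ e1) (h2 : e1 ≤ b) (h2' : e2 ≤ a) (h2'' : a ≤ b) (h3 : e2 ≤ e12 ⊔ e1)
    (h4 : a ⊓ e1 ≤ e12) (h5 : e12 ⊓ e1 ≤ a) (h6 : a ⊓ e12 ≤ e1) (h7 : e1 ≤ e12 ⊔ e2)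
    (h8 : e1 ≤ e3 ⊔ e13) (h9 : (e13 ⊔ e12) ⊓ (e3 ⊔ e2) ≤ e23)
    (h10 : (e13 ⊔ e2) ⊓ (e23 ⊔ e1) ≤ e123) (h11 : (e3 ⊔ e123) ⊓ (e2 ⊔ e1) ≤ e12)
    (k1 : a ≤ m12) (k2 : a ≤ p12) (k3 : b ≤ m12 ⊔ d2) (k4 : d2 ≤ p12 ⊔ b)
    (k5 : m12 ⊓ d2 ≤ p12) (k6 : p12 ⊓ b ≤ a) (k7 : m12 ⊓ p12 ≤ d2) (k8 : b ⊓ d2 ≤ a)
    (k9 : b ≤ m13 ⊔ d3) (k10 : (m12 ⊔ m13) ⊓ (d2 ⊔ d3) ≤ m23)
    (k11 : (m23 ⊔ p12) ⊓ (d3 ⊔ b) ≤ p13) (k12 : (p13 ⊔ m12) ⊓ (d3 ⊔ d2) ≤ p23)
    (k13 : (m13 ⊔ p23) ⊓ (b ⊔ d2) ≤ p12) :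
    g b ≤ g a := by
  have mono : ∀ {x y : L}, x ≤ y → ∀ {u v : B}, (g x).r u v → (g y).r u v := by
    intro x y h u v huv
    exact (OrderHomClass.mono g h) huv
  have jn : ∀ {x y : L} {u w v : B}, (g x).r u w → (g y).r w v → (g (x ⊔ y)).r u v := by
    intro x y u w v h h'
    exact (hg x y u v).2 ⟨w, h, h'⟩
  have mt : ∀ {x y : L} {u v : B}, (g x).r u v → (g y).r u v → (g (x ⊓ y)).r u v := by
    intro x y u v h h'
    rw [map_inf]
    exact ⟨h, h'⟩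
  have sp : ∀ {z x y : L}, z ≤ x ⊔ y → ∀ {u v : B}, (g z).r u v →
      ∃ w, (g x).r u w ∧ (g y).r w v := by
    intro z x y h u v huv
    exact (hg x y u v).1 (mono h huv)
  have sy : ∀ {x : L} {u v : B}, (g x).r u v → (g x).r v u := fun h => Setoid.symm' _ h
  have tr : ∀ {x : L} {u w v : B}, (g x).r u w → (g x).r w v → (g x).r u v :=
    fun h h' => Setoid.trans' _ h h'
  have rf : ∀ (x : L) (u : B), (g x).r u u := fun x u => Setoid.refl' _ u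
  intro x0 o hxo
  by_contra hne
  have hxo' : (g b).r x0 o := hxo
  have hne' : ¬ (g a).r x0 o := hne
  -- the point Q
  obtain ⟨P, hP1, hP2⟩ := sp h1 hxo'
  obtain ⟨Q, hQ1, hQ2⟩ := sp h7 hP2
  have hQ3 : ¬ (g e1).r Q o := by
    intro h
    apply hne'
    have : (g a).r P Q := mono h5 (mt hQ1 (tr hP2 (sy h)))
    exact tr hP1 (tr this (mono h2' hQ2))
  -- first involution
  have par1 := parity (g a) (fun x => (g b).r x o)
    (fun x y => ∃ P1 P2, (g a).r x P1 ∧ (g a).r y P2 ∧ (g e1).r P1 Q ∧ (g e1).r P2 o ∧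
      (g e12).r P1 P2)
    (by
      rintro x y x' y' ⟨P1, P2, a1, a2, a3, a4, a5⟩ hx hy
      exact ⟨P1, P2, tr (sy hx) a1, tr (sy hy) a2, a3, a4, a5⟩)
    (by
      intro x hx
      have : (g b).r x Q := tr hx (sy (mono (h2'.trans h2'') hQ2))
      obtain ⟨P1, a1, a3⟩ := sp h1 this
      have h12 : (g (e12 ⊔ e1)).r P1 o := tr (mono le_sup_right a3) (mono h3 hQ2)
      obtain ⟨P2, a5, a4⟩ := sp le_rfl h12
      exact ⟨P2, mono h2 a4, P1, P2, a1, rf _ _, a3, a4, a5⟩)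
    (by
      rintro x y y' - - - ⟨P1, P2, a1, a2, a3, a4, a5⟩ ⟨P1', P2', b1, b2, b3, b4, b5⟩
      have c1 : (g e12).r P1 P1' := mono h4 (mt (tr (sy a1) b1) (tr a3 (sy b3)))
      have c2 : (g a).r P2 P2' := mono h5 (mt (tr (sy a5) (tr c1 b5)) (tr a4 (sy b4)))
      exact tr a2 (tr c2 (sy b2)))
    (by
      rintro x y - - ⟨P1, P2, a1, a2, a3, a4, a5⟩
      obtain ⟨P0, b1, b2⟩ := sp (sup_comm e1 e2).le (jn a3 hQ2)
      obtain ⟨P3, c1, c2⟩ := sp (sup_comm e1 e2).le (jn a4 (sy hQ2))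
      obtain ⟨R, r1, r2⟩ := sp h8 (tr b2 (sy a4))
      have s1 : (g e23).r R P1 := mono h9 (mt (jn r2 (sy a5)) (jn (sy r1) (sy b1)))
      have s2 : (g e123).r R P3 := mono h10 (mt (jn r2 c1) (jn s1 (tr a3 (sy c2))))
      have s3 : (g e12).r P0 P3 := mono h11 (mt (jn r1 s2) (jn (sy b1) (tr a3 (sy c2))))
      exact ⟨P3, P0, tr a2 (mono h2' c1), tr a1 (mono h2' b1), c2, b2, sy s3⟩)
  have par2 := parity (g a) (fun x => (g b).r x o)
    (fun x y => ∃ Q', (g m12).r x Q' ∧ (g d2).r Q' o ∧ (g p12).r Q' y)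
    (by
      rintro x y x' y' ⟨Q', a1, a2, a3⟩ hx hy
      exact ⟨Q', tr (sy (mono k1 hx)) a1, a2, tr a3 (mono k2 hy)⟩)
    (by
      intro x hx
      obtain ⟨Q', a1, a2⟩ := sp k3 hx
      obtain ⟨y, a3, a4⟩ := sp k4 a2
      exact ⟨y, a4, Q', a1, a2, a3⟩)
    (by
      rintro x y y' - hy hy' ⟨Q1, a1, a2, a3⟩ ⟨Q2, b1, b2, b3⟩
      have c1 : (g p12).r Q1 Q2 := mono k5 (mt (tr (sy a1) b1) (tr a2 (sy b2)))
      exact mono k6 (mt (tr (sy a3) (tr c1 b3)) (tr hy (sy hy'))))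
    (by
      rintro x y hx hy ⟨Q1, a1, a2, a3⟩
      obtain ⟨Q2, b1, b2⟩ := sp k3 hy
      obtain ⟨R, r1, r2⟩ := sp k9 hx
      have s1 : (g m23).r Q1 R := mono k10 (mt (jn (sy a1) r1) (jn a2 (sy r2)))
      have s2 : (g p13).r R y := mono k11 (mt (jn (sy s1) a3) (jn r2 (sy hy)))
      have s3 : (g p23).r R Q2 := mono k12 (mt (jn s2 b1) (jn r2 (sy b2)))
      have s4 : (g p12).r x Q2 := mono k13 (mt (jn r1 s3) (jn hx (sy b2)))
      exact ⟨Q2, b1, b2, sy s4⟩)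
  have z1 : Nat.card {q : {q : Quotient (g a) // ∃ x, (g b).r x o ∧ Quotient.mk (g a) x = q} //
        ∃ x, (g b).r x o ∧ Quotient.mk (g a) x = q.1 ∧
        ∃ P1 P2, (g a).r x P1 ∧ (g a).r x P2 ∧ (g e1).r P1 Q ∧ (g e1).r P2 o ∧
      (g e12).r P1 P2} = 0 := by
    rw [Nat.card_eq_zero]
    left
    constructor
    rintro ⟨q, x, -, -, P1, P2, a1, a2, a3, a4, a5⟩
    apply hQ3
    have : (g e1).r P1 P2 := mono h6 (mt (tr (sy a1) a2) a5)
    exact tr (sy a3) (tr this a4)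
  have z2 : Nat.card {q : {q : Quotient (g a) // ∃ x, (g b).r x o ∧ Quotient.mk (g a) x = q} //
        ∃ x, (g b).r x o ∧ Quotient.mk (g a) x = q.1 ∧
        ∃ Q', (g m12).r x Q' ∧ (g d2).r Q' o ∧ (g p12).r Q' x} = 1 := by
    rw [Nat.card_eq_one_iff_exists]
    refine ⟨⟨⟨Quotient.mk (g a) o, o, rf _ _, rfl⟩, o, rf _ _, rfl, o, rf _ _, rf _ _, rf _ _⟩, ?_⟩
    rintro ⟨⟨q, hq⟩, x, hx, e, Q', a1, a2, a3⟩
    apply Subtype.ext
    apply Subtype.ext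
    have : (g d2).r x Q' := mono k7 (mt a1 (sy a3))
    have h' : (g a).r x o := mono k8 (mt hx (tr this a2))
    exact e.symm.trans (Quotient.sound h')
  rw [z1] at par1
  rw [z2] at par2
  have := par1.symm.trans par2
  exact absurd this (by decide)

end Pool.Agent.H472Z.LinAbs
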