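import Mathlib
import Pool.Agent.H472Z.LinAbs

set_option autoImplicit false

namespace Pool.Agent.H472Z.LinGlue

abbrev G2 : Type := ZMod 2 × ZMod 2 × ZMod 2
abbrev G3 : Type := ZMod 3 × ZMod 3 × ZMod 3

theorem exists_phi : Nonempty ((ℕ → ZMod 3) ≃ (ℕ → ZMod 2)) := by
  rw [← Cardinal.eq]
  simp only [Cardinal.mk_pi, Cardinal.prod_const, Cardinal.lift_id, Cardinal.mk_nat,
    Cardinal.mk_fintype, ZMod.card]
  rw [Cardinal.nat_power_aleph0 (by norm_num), Cardinal.nat_power_aleph0 (by norm_num)]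

noncomputable def phi : (ℕ → ZMod 3) ≃ (ℕ → ZMod 2) := Classical.choice exists_phi

/-- the infinite base set -/
def A : Type := {p : (ℕ → G2) × (ℕ → G3) // phi (fun n => (p.2 n).1) = fun n => (p.1 n).1}

def R1 (U : Submodule (ZMod 2) G2) : Setoid A where
  r p q := (∀ n, (p.1.2 n).2 = (q.1.2 n).2) ∧ ∀ n, p.1.1 n - q.1.1 n ∈ U
  iseqv := ⟨fun p => ⟨fun _ => rfl, fun n => by simp⟩,
    fun {p q} h => ⟨fun n => (h.1 n).symm, fun n => by
      have := U.neg_mem (h.2 n); simpa using this⟩,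
    fun {p q r} h h' => ⟨fun n => (h.1 n).trans (h'.1 n), fun n => by
      have := U.add_mem (h.2 n) (h'.2 n); simpa using this⟩⟩

def R2 (U : Submodule (ZMod 3) G3) : Setoid A where
  r p q := ∀ n, p.1.2 n - q.1.2 n ∈ U
  iseqv := ⟨fun p => fun n => by simp,
    fun {p q} h => fun n => by
      have := U.neg_mem (h n); simpa using this,
    fun {p q r} h h' => fun n => by
      have := U.add_mem (h n) (h' n); simpa using this⟩

/-- `u` is the composition of `s` and `t` -/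
def IsComp (u s t : Setoid A) : Prop := ∀ a b, u.r a b ↔ ∃ c, s.r a c ∧ t.r c b

theorem IsComp.sup_eq {u s t : Setoid A} (h : IsComp u s t) : s ⊔ t = u := by
  apply le_antisymm
  · apply sup_le
    · intro a b hab
      exact (h a b).2 ⟨b, hab, Setoid.refl' _ _⟩
    · intro a b hab
      exact (h a b).2 ⟨a, Setoid.refl' _ _, hab⟩
  · intro a b hab
    obtain ⟨c, h1, h2⟩ := (h a b).1 hab
    exact Setoid.trans' _ ((le_sup_left : s ≤ s ⊔ t) h1) ((le_sup_right : t ≤ s ⊔ t) h2)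

theorem IsComp.symm {u s t : Setoid A} (h : IsComp u s t) : IsComp u t s := by
  intro a b
  constructor
  · intro hab
    obtain ⟨c, h1, h2⟩ := (h b a).1 (Setoid.symm' _ hab)
    exact ⟨c, Setoid.symm' _ h2, Setoid.symm' _ h1⟩
  · rintro ⟨c, h1, h2⟩
    exact Setoid.symm' _ ((h b a).2 ⟨c, Setoid.symm' _ h2, Setoid.symm' _ h1⟩)

theorem isComp_of_le {s t : Setoid A} (h : s ≤ t) : IsComp t s t := by
  intro a b
  constructor
  · intro hab
    exact ⟨a, Setoid.refl' _ _, hab⟩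
  · rintro ⟨c, h1, h2⟩
    exact Setoid.trans' _ (h h1) h2

theorem R1_inf (U V : Submodule (ZMod 2) G2) : R1 (U ⊓ V) = R1 U ⊓ R1 V := by
  ext p q
  constructor
  · rintro ⟨h1, h2⟩
    exact ⟨⟨h1, fun n => (h2 n).1⟩, ⟨h1, fun n => (h2 n).2⟩⟩
  · rintro ⟨⟨h1, h2⟩, ⟨-, h3⟩⟩
    exact ⟨h1, fun n => ⟨h2 n, h3 n⟩⟩

theorem R2_inf (U V : Submodule (ZMod 3) G3) : R2 (U ⊓ V) = R2 U ⊓ R2 V := by
  ext p q
  constructor
  · intro h2
    exact ⟨fun n => (h2 n).1, fun n => (h2 n).2⟩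
  · rintro ⟨h2, h3⟩
    exact fun n => ⟨h2 n, h3 n⟩

theorem R1_mono {U V : Submodule (ZMod 2) G2} (h : U ≤ V) : R1 U ≤ R1 V := by
  intro p q hpq
  exact ⟨hpq.1, fun n => h (hpq.2 n)⟩

theorem R2_mono {U V : Submodule (ZMod 3) G3} (h : U ≤ V) : R2 U ≤ R2 V := by
  intro p q hpq
  exact fun n => h (hpq n)

theorem R1_comp (U V : Submodule (ZMod 2) G2) : IsComp (R1 (U ⊔ V)) (R1 U) (R1 V) := by
  intro p q
  constructor
  · rintro ⟨h1, h2⟩
    have : ∀ n, ∃ y ∈ U, ∃ z ∈ V, y + z = p.1.1 n - q.1.1 n := fun n => Submodule.mem_sup.1 (h2 n)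
    choose y hy z hz hyz using this
    refine ⟨⟨(fun n => p.1.1 n - y n,
      fun n => (phi.symm (fun n => (p.1.1 n - y n).1) n, (p.1.2 n).2)), by simp⟩,
      ⟨fun n => rfl, fun n => by simpa using hy n⟩, ⟨fun n => h1 n, fun n => ?_⟩⟩
    have : p.1.1 n - y n - q.1.1 n = z n := by
      have := hyz n
      linear_combination (exp := 1) -this
    show p.1.1 n - y n - q.1.1 n ∈ V
    rw [this]
    exact hz n
  · rintro ⟨c, ⟨h1, h2⟩, ⟨h3, h4⟩⟩
    refine ⟨fun n => (h1 n).trans (h3 n), fun n => ?_⟩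
    have := Submodule.add_mem_sup (h2 n) (h4 n)
    simpa using this

theorem R2_comp (U V : Submodule (ZMod 3) G3) : IsComp (R2 (U ⊔ V)) (R2 U) (R2 V) := by
  intro p q
  constructor
  · intro h2
    have : ∀ n, ∃ y ∈ U, ∃ z ∈ V, y + z = p.1.2 n - q.1.2 n := fun n => Submodule.mem_sup.1 (h2 n)
    choose y hy z hz hyz using this
    refine ⟨⟨(fun n => (phi (fun n => (p.1.2 n - y n).1) n, 0),
      fun n => p.1.2 n - y n), by simp⟩,
      fun n => by simpa using hy n, fun n => ?_⟩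
    have : p.1.2 n - y n - q.1.2 n = z n := by
      have := hyz n
      linear_combination (exp := 1) -this
    show p.1.2 n - y n - q.1.2 n ∈ V
    rw [this]
    exact hz n
  · rintro ⟨c, h2, h4⟩
    intro n
    have := Submodule.add_mem_sup (h2 n) (h4 n)
    simpa using this

/-- the coatom of the lower geometry -/
def a1 : Submodule (ZMod 2) G2 := Submodule.span (ZMod 2) {(0, 1, 0)} ⊔ Submodule.span (ZMod 2) {(0, 0, 1)}
/-- the atom of the upper geometry -/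
def b2 : Submodule (ZMod 3) G3 := Submodule.span (ZMod 3) {(1, 0, 0)}

theorem mem_pt {K M : Type} [Field K] [AddCommGroup M] [Module K M] (v x : M) :
    x ∈ Submodule.span K {v} ↔ ∃ a : K, x = a • v := by
  rw [Submodule.mem_span_singleton]
  constructor <;> rintro ⟨a, h⟩ <;> exact ⟨a, h.symm⟩

theorem mem_ln {K M : Type} [Field K] [AddCommGroup M] [Module K M] (v w x : M) :
    x ∈ Submodule.span K {v} ⊔ Submodule.span K {w} ↔ ∃ a b : K, x = a • v + b • w := by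
  rw [Submodule.mem_sup]
  constructor
  · rintro ⟨y, hy, z, hz, h⟩
    obtain ⟨a, rfl⟩ := (mem_pt _ _).1 hy
    obtain ⟨b, rfl⟩ := (mem_pt _ _).1 hz
    exact ⟨a, b, h.symm⟩
  · rintro ⟨a, b, rfl⟩
    exact ⟨_, (mem_pt _ _).2 ⟨a, rfl⟩, _, (mem_pt _ _).2 ⟨b, rfl⟩, rfl⟩

theorem mem_a1 (x : G2) : x ∈ a1 ↔ x.1 = 0 := by
  unfold a1
  rw [mem_ln]
  revert x
  decide

theorem mem_b2 (x : G3) : x ∈ b2 ↔ x.2 = 0 := by
  unfold b2
  rw [mem_pt]
  revert x
  decide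

theorem R1_a1 : R1 a1 = R2 ⊥ := by
  ext p q
  constructor
  · rintro ⟨h1, h2⟩ n
    have e : (fun n => (p.1.1 n).1) = fun n => (q.1.1 n).1 := by
      funext n
      have := (mem_a1 _).1 (h2 n)
      exact sub_eq_zero.1 this
    rw [← p.2, ← q.2] at e
    have e' := congrFun (phi.injective e) n
    rw [Submodule.mem_bot, sub_eq_zero]
    exact Prod.ext e' (h1 n)
  · intro h
    have e : p.1.2 = q.1.2 := by
      funext n
      have := h n
      rwa [Submodule.mem_bot, sub_eq_zero] at this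
    refine ⟨fun n => by rw [e], fun n => ?_⟩
    rw [mem_a1]
    have e1 := p.2
    have e2 := q.2
    rw [e, e2] at e1
    have := congrFun e1 n
    simp only [Prod.fst_sub]
    rw [this, sub_self]

theorem R1_top : R1 ⊤ = R2 b2 := by
  ext p q
  constructor
  · rintro ⟨h1, -⟩ n
    rw [mem_b2]
    simp [h1 n]
  · intro h
    refine ⟨fun n => ?_, fun n => Submodule.mem_top⟩
    have := (mem_b2 _).1 (h n)
    exact sub_eq_zero.1 this

theorem coatom (U : Submodule (ZMod 2) G2) : U ≤ a1 ∨ U ⊔ a1 = ⊤ := by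
  by_cases h : U ≤ a1
  · exact Or.inl h
  · right
    rw [SetLike.not_le_iff_exists] at h
    obtain ⟨u, hu, hu'⟩ := h
    rw [mem_a1] at hu'
    rw [eq_top_iff]
    intro x _
    have h1 : u.1 = 1 := by
      generalize u.1 = t at hu'
      revert t; decide
    have : x = x.1 • u + (x - x.1 • u) := by abel
    rw [this]
    apply Submodule.add_mem_sup (U.smul_mem _ hu)
    rw [mem_a1]
    simp [h1]

theorem atom (U : Submodule (ZMod 3) G3) : b2 ≤ U ∨ b2 ⊓ U = ⊥ := by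
  by_cases h : b2 ⊓ U = ⊥
  · exact Or.inr h
  · left
    obtain ⟨u, ⟨hu, hu'⟩, hu0⟩ := Submodule.exists_mem_ne_zero_of_ne_bot h
    have hu2 := (mem_b2 _).1 hu
    intro x hx
    have hx2 := (mem_b2 _).1 hx
    have : ∃ c : ZMod 3, x = c • u := by
      clear hu hu' hx
      revert x u
      decide
    obtain ⟨c, rfl⟩ := this
    exact U.smul_mem _ hu'

theorem mixed (U : Submodule (ZMod 2) G2) (V : Submodule (ZMod 3) G3) :
    (∃ U', R1 U ⊓ R2 V = R1 U') ∧ ∃ V', IsComp (R2 V') (R1 U) (R2 V) := by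
  rcases coatom U with h | h
  · have : R1 U ≤ R2 V := (R1_mono h).trans (R1_a1.le.trans (R2_mono bot_le))
    exact ⟨⟨U, inf_eq_left.2 this⟩, V, isComp_of_le this⟩
  rcases atom V with h' | h'
  · have : R1 U ≤ R2 V := (R1_mono le_top).trans (R1_top.le.trans (R2_mono h'))
    exact ⟨⟨U, inf_eq_left.2 this⟩, V, isComp_of_le this⟩
  refine ⟨⟨U ⊓ a1, ?_⟩, b2 ⊔ V, ?_⟩
  · rw [R1_inf, R1_a1, ← h', R2_inf, ← R1_top, ← inf_assoc, ← R1_inf, inf_top_eq]
  · intro p q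
    constructor
    · intro hpq
      obtain ⟨c, h1, h2⟩ := (R2_comp b2 V p q).1 hpq
      rw [← R1_top, ← h] at h1
      obtain ⟨d, h3, h4⟩ := (R1_comp U a1 p c).1 h1
      rw [R1_a1] at h4
      exact ⟨d, h3, Setoid.trans' _ (R2_mono bot_le h4) h2⟩
    · rintro ⟨c, h1, h2⟩
      refine (R2_comp b2 V p q).2 ⟨c, ?_, h2⟩
      rw [← R1_top]
      exact R1_mono le_top h1

def S : Set (Setoid A) := Set.range R1 ∪ Set.range R2

theorem S_closed {s t : Setoid A} (hs : s ∈ S) (ht : t ∈ S) :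
    s ⊓ t ∈ S ∧ ∃ u ∈ S, IsComp u s t := by
  rcases hs with ⟨U, rfl⟩ | ⟨U, rfl⟩ <;> rcases ht with ⟨V, rfl⟩ | ⟨V, rfl⟩
  · exact ⟨Or.inl ⟨_, R1_inf U V⟩, _, Or.inl ⟨_, rfl⟩, R1_comp U V⟩
  · obtain ⟨⟨U', h1⟩, V', h2⟩ := mixed U V
    exact ⟨Or.inl ⟨_, h1.symm⟩, _, Or.inr ⟨_, rfl⟩, h2⟩
  · obtain ⟨⟨U', h1⟩, V', h2⟩ := mixed V U
    exact ⟨Or.inl ⟨_, by rw [inf_comm]; exact h1.symm⟩, _, Or.inr ⟨_, rfl⟩, h2.symm⟩
  · exact ⟨Or.inr ⟨_, R2_inf U V⟩, _, Or.inr ⟨_, rfl⟩, R2_comp U V⟩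

/-- the finite linear lattice -/
def Lat : Sublattice (Setoid A) where
  carrier := S
  supClosed' := by
    intro s hs t ht
    obtain ⟨-, u, hu, h⟩ := S_closed hs ht
    rw [h.sup_eq]
    exact hu
  infClosed' := fun s hs t ht => (S_closed hs ht).1

instance : Finite (Submodule (ZMod 2) G2) := Finite.of_injective _ SetLike.coe_injective
instance : Finite (Submodule (ZMod 3) G3) := Finite.of_injective _ SetLike.coe_injective

theorem Lat_finite : Finite Lat := by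
  have : S.Finite := (Set.finite_range R1).union (Set.finite_range R2)
  exact this

theorem Lat_type1 (x y : Lat) (a b : A) :
    (Lat.subtype (x ⊔ y)).r a b ↔ ∃ c : A, (Lat.subtype x).r a c ∧ (Lat.subtype y).r c b := by
  obtain ⟨-, u, hu, h⟩ := S_closed x.2 y.2
  have : Lat.subtype (x ⊔ y) = u := by
    rw [map_sup]
    exact h.sup_eq
  rw [this]
  exact h a b

def r1 (U : Submodule (ZMod 2) G2) : Lat := ⟨R1 U, Or.inl ⟨U, rfl⟩⟩
def r2 (U : Submodule (ZMod 3) G3) : Lat := ⟨R2 U, Or.inr ⟨U, rfl⟩⟩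

theorem r1_sup (U V : Submodule (ZMod 2) G2) : r1 U ⊔ r1 V = r1 (U ⊔ V) :=
  Subtype.ext (R1_comp U V).sup_eq
theorem r2_sup (U V : Submodule (ZMod 3) G3) : r2 U ⊔ r2 V = r2 (U ⊔ V) :=
  Subtype.ext (R2_comp U V).sup_eq
theorem r1_inf (U V : Submodule (ZMod 2) G2) : r1 U ⊓ r1 V = r1 (U ⊓ V) :=
  Subtype.ext (R1_inf U V).symm
theorem r2_inf (U V : Submodule (ZMod 3) G3) : r2 U ⊓ r2 V = r2 (U ⊓ V) :=
  Subtype.ext (R2_inf U V).symm
theorem r1_mono {U V : Submodule (ZMod 2) G2} (h : U ≤ V) : r1 U ≤ r1 V := R1_mono h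
theorem r2_mono {U V : Submodule (ZMod 3) G3} (h : U ≤ V) : r2 U ≤ r2 V := R2_mono h
theorem r1_a1 : r1 a1 = r2 ⊥ := Subtype.ext R1_a1
theorem r1_top : r1 ⊤ = r2 b2 := Subtype.ext R1_top

theorem not_le : ¬ r1 ⊤ ≤ r1 a1 := by
  intro h
  have h' : R1 ⊤ ≤ R1 a1 := h
  let p : A := ⟨(fun _ => (0, 0), fun n => (phi.symm (fun _ => 0) n, 0)), by simp⟩
  let q : A := ⟨(fun _ => (1, 0), fun n => (phi.symm (fun _ => 1) n, 0)), by simp⟩
  have hpq : (R1 ⊤).r p q := ⟨fun _ => rfl, fun _ => Submodule.mem_top⟩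
  have := (h' hpq).2 0
  rw [mem_a1] at this
  simp [p, q] at this

abbrev P2 (v : G2) : Submodule (ZMod 2) G2 := Submodule.span (ZMod 2) {v}
abbrev P3 (v : G3) : Submodule (ZMod 3) G3 := Submodule.span (ZMod 3) {v}

theorem no_finite (B : Type) [Finite B] (g : LatticeHom Lat (Setoid B))
    (hinj : Function.Injective g)
    (hg : ∀ (x y : Lat) (a b : B), (g (x ⊔ y)).r a b ↔ ∃ c : B, (g x).r a c ∧ (g y).r c b) :
    False := by
  have key := LinAbs.obstruction g hg (r1 a1) (r1 ⊤)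
    (r1 (P2 (1,0,0))) (r1 (P2 (0,1,0))) (r1 (P2 (0,0,1))) (r1 (P2 (1,1,0))) (r1 (P2 (1,0,1)))
    (r1 (P2 (0,1,1))) (r1 (P2 (1,1,1)))
    (r2 (P3 (0,1,0))) (r2 (P3 (0,0,1))) (r2 (P3 (1,-1,0))) (r2 (P3 (1,1,0)))
    (r2 (P3 (1,0,-1))) (r2 (P3 (1,0,1))) (r2 (P3 (0,1,-1))) (r2 (P3 (0,1,1)))
    ?_ ?_ ?_ ?_ ?_ ?_ ?_ ?_ ?_ ?_ ?_ ?_ ?_ ?_ ?_ ?_ ?_ ?_ ?_ ?_ ?_ ?_ ?_ ?_ ?_ ?_
  · apply not_le
    have : g (r1 ⊤ ⊓ r1 a1) = g (r1 ⊤) := by
      rw [map_inf]
      exact inf_eq_left.2 key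
    exact inf_eq_left.1 (hinj this)
  · rw [r1_sup]
    apply r1_mono
    rcases coatom (P2 (1,0,0)) with h | h
    · have := h (Submodule.mem_span_singleton_self _)
      rw [mem_a1] at this
      exact absurd this (by decide)
    · rw [sup_comm, h]
  all_goals
    first
    | exact r1_mono le_top
    | ((try simp only [r1_sup, r1_inf])
       apply r1_mono
       intro x
       simp only [Submodule.mem_inf, mem_a1, mem_ln, mem_pt]
       revert x
       decide)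
    | (simp only [r1_a1, r1_top, b2, r2_sup, r2_inf]
       apply r2_mono
       intro x
       simp only [Submodule.mem_inf, mem_ln, mem_pt, Submodule.mem_bot]
       revert x
       decide)

end Pool.Agent.H472Z.LinGlue
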